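import Pool.Agent.Work.MP_7b0bad_ag.S2.Stmts
import Pool.Agent.Work.MP_7b0bad_ag.AL.Stmts
import Pool.Agent.Work.MP_7b0bad_ag.MT.ANax
import Pool.Agent.Work.MP_7b0bad_ag.MT.ANred

set_option autoImplicit false

/-!
# Alternating and symmetric groups with tame inertia: the final theorem from `AL.ALfin`,
`AL.ALred`, `S2.SFin`
-/

namespace MP7b0bad.S2

open Equiv

/-- for every point `x` moved by `u` whose `g`-cycle has length `m > 1`: `u` moves at least
`2 m + 4` points or fixes at least `m` points -/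
def Room {n : ℕ} (u g : Perm (Fin n)) : Prop :=
  ∀ x : Fin n, u x ≠ x → 1 < Function.minimalPeriod g x →
    2 * Function.minimalPeriod g x + 4 ≤ u.support.card ∨
      Function.minimalPeriod g x + u.support.card ≤ n

/-- the condition on the tame generator `c`, one prime `r` at a time -/
def SylCond (p : ℕ) {n : ℕ} {X : Subgroup (Perm (Fin n))} (G₁ : Subgroup X) (c : X) : Prop :=
  ∀ r : ℕ, r.Prime → r ∣ orderOf c → ∃ x ∈ G₁, orderOf x = p ∧
    (r = 2 → (x : Perm (Fin n)).IsCycle) ∧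
    ∀ g ∈ Subgroup.zpowers c, (∃ m : ℕ, g ^ r ^ m = 1) → (∃ a : ℕ, g * x * g⁻¹ = x ^ a) ∧
      (p = 2 → 5 ≤ r → (∃ j : ℕ, r = 2 ^ j + 1) → Room (x : Perm (Fin n)) (g : Perm (Fin n)))

/-- `g x g⁻¹` is a power of `x` for the powers `g` of `c` -/
theorem Fin_pow {G : Type} [Group G] [Finite G] {x c g : G} (h : ∃ a : ℕ, c * x * c⁻¹ = x ^ a)
    (hg : g ∈ Subgroup.zpowers c) : ∃ a : ℕ, g * x * g⁻¹ = x ^ a :=
  MT.anax_nmem h ((le_sup_right : Subgroup.zpowers c ≤ Subgroup.zpowers x ⊔ Subgroup.zpowers c) hg)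

/-- `c` normalises `G₁` -/
theorem Fin_nz {p : ℕ} {G : Type} [Group G] {G₁ G₀ : Subgroup G} (h : SVF.Hyp p G₁ G₀) (c : G)
    (hc : ¬ p ∣ orderOf c) (hG : G₀ = G₁ ⊔ Subgroup.zpowers c) : MT.Nz p G₁ c := by
  obtain ⟨h1, h2, h3, h4, h5, h6⟩ := h
  refine ⟨h3, hc, fun x hx => ?_⟩
  have hc0 : c ∈ G₀ := by
    rw [hG]
    exact (le_sup_right : Subgroup.zpowers c ≤ _) (Subgroup.mem_zpowers c)
  have := h2.conj_mem ⟨x, h1 hx⟩ (Subgroup.mem_subgroupOf.mpr hx) ⟨c, hc0⟩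
  exact Subgroup.mem_subgroupOf.mp this

/-- `G₁ ≠ ⊥` -/
theorem Fin_ne {p : ℕ} {G : Type} [Group G] [Nontrivial G] {G₁ G₀ : Subgroup G}
    (h : SVF.Hyp p G₁ G₀) : G₁ ≠ ⊥ := by
  rintro rfl
  have h6 := h.2.2.2.2.2
  have h7 : Subgroup.normalClosure ((⊥ : Subgroup G) : Set G) ≤ ⊥ :=
    Subgroup.normalClosure_le_normal (le_refl _)
  rw [h6] at h7
  exact bot_ne_top (top_le_iff.mp h7)

/-- `p` odd: the group is the alternating group -/
theorem Fin_alt {p : ℕ} [Fact p.Prime] (hp : p ≠ 2) {n : ℕ} {X : Subgroup (Perm (Fin n))}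
    (hX : alternatingGroup (Fin n) ≤ X) {G₁ G₀ : Subgroup X} (h : SVF.Hyp p G₁ G₀) :
    X = alternatingGroup (Fin n) := by
  refine le_antisymm ?_ hX
  obtain ⟨h1, h2, h3, h4, h5, h6⟩ := h
  have hodd : Odd p := (Fact.out : p.Prime).odd_of_ne_two hp
  have hle : G₁ ≤ (alternatingGroup (Fin n)).subgroupOf X := by
    intro g hg
    rw [Subgroup.mem_subgroupOf, Perm.mem_alternatingGroup]
    obtain ⟨m, hm⟩ := h3 ⟨g, hg⟩
    have hm' : (g : Perm (Fin n)) ^ p ^ m = 1 := by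
      have := congrArg (fun y : G₁ => ((y : X) : Perm (Fin n))) hm
      simpa using this
    have h7 := congrArg Perm.sign hm'
    rw [map_pow, map_one] at h7
    rcases Int.units_eq_one_or (Perm.sign (g : Perm (Fin n))) with h8 | h8
    · exact h8
    · rw [h8, Odd.neg_one_pow (hodd.pow)] at h7
      exact absurd h7 (by decide)
  have hn : ((alternatingGroup (Fin n)).subgroupOf X).Normal := Subgroup.normal_subgroupOf
  have h8 : Subgroup.normalClosure (G₁ : Set X) ≤ (alternatingGroup (Fin n)).subgroupOf X :=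
    Subgroup.normalClosure_le_normal hle
  rw [h6] at h8
  intro g hg
  exact Subgroup.mem_subgroupOf.mp (h8 (Subgroup.mem_top (⟨g, hg⟩ : X)))

/-- THE FINAL THEOREM -/
theorem alt_main (hT0 : T0) (hALfin : AL.ALfin) (hALred : AL.ALred) (hANred : MT.ANred)
    (hSFin : SFin) (p : ℕ) (k : Type) [Field k] [IsAlgClosed k] [CharP k p] (hp : p.Prime)
    (n : ℕ) (hn : 5 ≤ n) (X : Subgroup (Perm (Fin n))) (hX : alternatingGroup (Fin n) ≤ X)
    (G₀ G₁ : Subgroup X) (h : SVF.Hyp p G₁ G₀) :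
    (p ≠ 2 → n < 2 * p → Occurs k X G₀) ∧
    (p ≠ 2 → n < 3 * p → Odd (G₁.subgroupOf G₀).index → Occurs k X G₀) ∧
    (∀ c : X, ¬ p ∣ orderOf c → G₀ = G₁ ⊔ Subgroup.zpowers c → SylCond p G₁ c →
      Occurs k X G₀) := by
  have hpF : Fact p.Prime := ⟨hp⟩
  have hnt : Nontrivial (alternatingGroup (Fin n)) := by
    have : 3 ≤ Nat.card (Fin n) := by
      rw [Nat.card_eq_fintype_card, Fintype.card_fin]
      omega
    exact alternatingGroup.nontrivial_of_three_le_card this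
  have hntX : Nontrivial X := by
    obtain ⟨a, b, hab⟩ := hnt
    exact ⟨⟨⟨a, hX a.2⟩, ⟨b, hX b.2⟩, fun e => hab (Subtype.ext (congrArg
      (fun y : X => (y : Perm (Fin n))) e))⟩⟩
  have hne : G₁ ≠ ⊥ := Fin_ne h
  refine ⟨fun h2 hlt => ?_, fun h2 hlt hodd => ?_, fun c hc hG hS => ?_⟩
  · obtain rfl := Fin_alt h2 hX h
    obtain ⟨x, c, hN, hG, hx, hcyc, hsup, hcx⟩ := hANred p n h2 hlt G₁ G₀ hne h
    have hxo : orderOf x = p := by
      rw [← Subgroup.orderOf_coe, hcyc.orderOf, hsup]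
    rw [hG]
    refine (hT0 k _ _).mp (hALfin k p n h2 hn G₁ c hN hne fun r hr hrd => ?_)
    exact ⟨x, hx, hxo, fun _ => hcyc, fun g hg _ => Fin_pow hcx hg⟩
  · obtain rfl := Fin_alt h2 hX h
    obtain ⟨c, x, hN, hG, hco, hx, hxo, hcx⟩ := hALred p n h2 hlt G₁ G₀ hne h hodd
    rw [hG]
    refine (hT0 k _ _).mp (hALfin k p n h2 hn G₁ c hN hne fun r hr hrd => ?_)
    refine ⟨x, hx, hxo, fun h3 => ?_, fun g hg _ => Fin_pow hcx hg⟩
    rw [h3] at hrd
    exact absurd (hco.of_dvd_nat hrd) (by decide)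
  · have hN : MT.Nz p G₁ c := Fin_nz h c hc hG
    rw [hG]
    refine (hT0 k _ _).mp ?_
    by_cases h2 : p = 2
    · subst h2
      refine hSFin k n X hX G₁ c hN h.2.2.2.2.2 fun r hr hrd => ?_
      obtain ⟨x, hx, hxo, -, hg⟩ := hS r hr hrd
      have hxx : x * x = 1 := by
        rw [← pow_two, ← hxo]
        exact pow_orderOf_eq_one x
      refine ⟨x, hx, ?_, hxx, fun g hgc hgr => ?_⟩
      · rintro rfl
        rw [orderOf_one] at hxo
        exact absurd hxo (by decide)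
      · obtain ⟨⟨a, ha⟩, hroom⟩ := hg g hgc hgr
        refine ⟨?_, fun h5 hj => hroom rfl h5 hj⟩
        have hx1 : x ≠ 1 := by
          rintro rfl
          rw [orderOf_one] at hxo
          exact absurd hxo (by decide)
        rcases Nat.even_or_odd' a with ⟨b, rfl | rfl⟩
        · exfalso
          rw [pow_mul, pow_two, hxx, one_pow] at ha
          apply hx1
          rw [mul_inv_eq_one] at ha
          exact mul_left_cancel (ha.trans (mul_one g).symm)
        · rw [pow_succ, pow_mul, pow_two, hxx, one_pow, one_mul, mul_inv_eq_iff_eq_mul] at ha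
          exact ha
    · obtain rfl := Fin_alt h2 hX h
      refine hALfin k p n h2 hn G₁ c hN hne fun r hr hrd => ?_
      obtain ⟨x, hx, hxo, hx2, hg⟩ := hS r hr hrd
      exact ⟨x, hx, hxo, hx2, fun g hgc hgr => (hg g hgc hgr).1⟩

end MP7b0bad.S2
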