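import Pool.Agent.Work.MP_7b0bad_ag.S2.Stmts

set_option autoImplicit false

/-!
# Block S2, item SB1: a cycle of odd length with two more pairs of the involution
-/

namespace MP7b0bad.S2

open Equiv

/-- the two element group as permutations of `Bool` -/
def SB1_f : ℤˣ →* Perm Bool where
  toFun := fun e => if e = 1 then 1 else Equiv.boolNot
  map_one' := by simp
  map_mul' := by decide

/-- the label of the points -/
def SB1_lab (T : Type) : (T ⊕ Bool) × Bool ≃ Om (T ⊕ Bool) Empty where
  toFun := fun p => match p with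
    | (Sum.inl x, b) => Sum.inl (Sum.inl x, b)
    | (Sum.inr y, b) => Sum.inl (Sum.inr (xor y b), b)
  invFun := fun q => match q with
    | Sum.inl (Sum.inl x, b) => (Sum.inl x, b)
    | Sum.inl (Sum.inr y, b) => (Sum.inr (xor y b), b)
  left_inv := by
    rintro ⟨x | y, b⟩
    · rfl
    · cases y <;> cases b <;> rfl
  right_inv := by
    rintro (⟨x | y, b⟩ | x)
    · rfl
    · cases y <;> cases b <;> rfl
    · exact x.elim

/-- the action -/
def SB1_θ (T : Type) [Fintype T] [DecidableEq T] : Perm (T ⊕ Bool) →* Perm (Om (T ⊕ Bool) Empty)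
    where
  toFun := fun σ => (SB1_lab T).permCongr (Equiv.prodCongr σ (SB1_f (Perm.sign σ)))
  map_one' := by
    ext x
    simp [Equiv.permCongr_apply, Equiv.prodCongr]
  map_mul' := by
    intro σ τ
    rw [map_mul, map_mul]
    refine Equiv.ext fun x => ?_
    simp [Equiv.permCongr_apply, Equiv.prodCongr, Prod.map]

theorem SB1_odd {T : Type} [Fintype T] [DecidableEq T] (c : Perm T) {m : ℕ} (hm : Odd m)
    (h : c ^ m = 1) : Perm.sign c = 1 := by
  have h1 : (Perm.sign c) ^ m = 1 := by rw [← map_pow, h, map_one]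
  rcases Int.units_eq_one_or (Perm.sign c) with h2 | h2
  · exact h2
  · rw [h2, hm.neg_one_pow] at h1
    exact absurd h1 (by decide)

theorem prf_SB1 (hSym : SSym) : SB1 := by
  intro k _ _ _ m _ hm
  obtain ⟨c, hc⟩ : ∃ c : Perm (ZMod m ⊕ Bool),
      c = Perm.sumCongr (Equiv.addRight (1 : ZMod m)) 1 := ⟨_, rfl⟩
  have hcm : c ^ m = 1 := by
    have h1 : ∀ n : ℕ, c ^ n = Perm.sumCongr ((Equiv.addRight (1 : ZMod m)) ^ n) 1 := by
      intro n
      induction n with
      | zero => rw [pow_zero, pow_zero, Perm.sumCongr_one]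
      | succ n ih => rw [pow_succ, ih, hc, Perm.sumCongr_mul, pow_succ, mul_one]
    have h2 : ∀ (n : ℕ) (x : ZMod m), ((Equiv.addRight (1 : ZMod m)) ^ n) x = x + n := by
      intro n
      induction n with
      | zero => simp
      | succ n ih =>
        intro x
        rw [pow_succ, Perm.mul_apply, ih]
        simp only [Equiv.coe_addRight]
        push_cast
        ring
    have h3 : (Equiv.addRight (1 : ZMod m)) ^ m = 1 := by
      refine Equiv.ext fun x => ?_
      rw [h2]
      simp
    rw [h1, h3, Perm.sumCongr_one]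
  have hodd : Odd (orderOf c) := Odd.of_dvd_nat hm (orderOf_dvd_of_pow_eq_one hcm)
  obtain ⟨u, hu⟩ : ∃ u : Perm (ZMod m ⊕ Bool), u = swap (Sum.inr false) (Sum.inr true) :=
    ⟨_, rfl⟩
  have hne : (Sum.inr false : ZMod m ⊕ Bool) ≠ Sum.inr true := by simp
  have hsu : Perm.sign u = -1 := by
    rw [hu, Perm.sign_swap hne]
  have hsc : Perm.sign c = 1 := SB1_odd c hm hcm
  refine ⟨Perm (ZMod m ⊕ Bool), inferInstance, inferInstance, u, c, SB1_θ (ZMod m), Perm.sign,
    ?_, hodd, ?_, ?_, ?_, hsu⟩
  · rw [eq_top_iff, ← Perm.closure_isSwap, Subgroup.closure_le]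
    rintro σ ⟨x, y, hxy, rfl⟩
    obtain ⟨g, hg⟩ := isConj_iff.1 (Perm.isConj_swap hne hxy)
    rw [← hu] at hg
    rw [← hg]
    exact Subgroup.normalClosure_normal.conj_mem u
      (Subgroup.subset_normalClosure (Set.mem_singleton u)) g
  · rw [hu]
    exact hSym k (ZMod m ⊕ Bool) (Sum.inr false) (Sum.inr true) c hne
      (by rw [hc]; rfl) (by rw [hc]; rfl) hodd
  · refine Equiv.ext fun x => ?_
    show (SB1_lab (ZMod m)).permCongr (Equiv.prodCongr u (SB1_f (Perm.sign u))) x = _
    rw [hsu, hu]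
    rcases x with ⟨x | y, b⟩ | x
    · cases b <;> rfl
    · cases y <;> cases b <;> rfl
    · exact x.elim
  · refine Equiv.ext fun x => ?_
    show (SB1_lab (ZMod m)).permCongr (Equiv.prodCongr c (SB1_f (Perm.sign c))) x = _
    rw [hsc, hc]
    rcases x with ⟨x | y, b⟩ | x
    · cases b <;> rfl
    · cases y <;> cases b <;> rfl
    · exact x.elim

end MP7b0bad.S2
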