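import Pool.Agent.Work.MP_7b0bad_ag.S2.Stmts

set_option autoImplicit false

/-!
# Block S2, item SCyc: reduction to cycles
-/

namespace MP7b0bad.S2

open Equiv

section

variable {L : Type} {π σ : Perm L}

theorem SCyc_pow (h : ∀ x, σ x ≠ x → σ x = π x) (x : L) (hx : σ x ≠ x) (i : ℕ) :
    (σ ^ i) x = (π ^ i) x := by
  induction i with
  | zero => rfl
  | succ i ih =>
    have h1 : σ ((σ ^ i) x) ≠ (σ ^ i) x := by
      rw [← Perm.mul_apply, ← pow_succ', pow_succ, Perm.mul_apply]
      exact fun h2 => hx ((σ ^ i).injective h2)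
    rw [pow_succ', Perm.mul_apply, h _ h1, ih, pow_succ', Perm.mul_apply]

theorem SCyc_ord (h : ∀ x, σ x ≠ x → σ x = π x) (N : ℕ) (hN : π ^ N = 1) : σ ^ N = 1 := by
  ext x
  by_cases hx : σ x = x
  · exact Perm.pow_apply_eq_self_of_apply_eq_self hx N
  · rw [SCyc_pow h x hx, hN]

theorem SCyc_per (h : ∀ x, σ x ≠ x → σ x = π x) (x : L) (hx : σ x ≠ x) :
    Function.minimalPeriod π x = Function.minimalPeriod σ x := by
  rw [Function.minimalPeriod_eq_minimalPeriod_iff]
  intro n
  rw [Function.IsPeriodicPt, Function.IsPeriodicPt, Function.IsFixedPt, Function.IsFixedPt,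
    Perm.iterate_eq_pow, Perm.iterate_eq_pow, SCyc_pow h x hx]

theorem SCyc_mod {G : Type} [Group G] (g : G) (N n : ℕ) (h : g ^ N = 1) :
    g ^ (n % N) = g ^ n := by
  conv_rhs => rw [← Nat.div_add_mod n N, pow_add, pow_mul, h, one_pow, one_mul]

theorem SCyc_val (N : ℕ) [NeZero N] {G : Type} [Group G] (g : G) (h : g ^ N = 1) (i : ZMod N) :
    g ^ (i + 1).val = g ^ (i.val + 1) := by
  rw [ZMod.val_add, ZMod.val_one_eq_one_mod, Nat.add_mod_mod, SCyc_mod g N _ h]

/-- a cycle is `(x ↦ x + 1) ⊕ 1` -/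
theorem SCyc_label [Finite L] (hσ : σ.IsCycle) (m : ℕ) [NeZero m] (hm : orderOf σ = m) :
    ∃ e : ZMod m ⊕ {y : L // σ y = y} ≃ L,
      e.permCongr (Perm.sumCongr (Equiv.addRight (1 : ZMod m)) 1) = σ := by
  obtain ⟨x, hx, -⟩ := id hσ
  have h1 : σ ^ m = 1 := by rw [← hm]; exact pow_orderOf_eq_one σ
  let F : ZMod m ⊕ {y : L // σ y = y} → L :=
    Sum.elim (fun i => (σ ^ i.val) x) (fun y => y.1)
  have hne : ∀ i : ℕ, σ ((σ ^ i) x) ≠ (σ ^ i) x := by
    intro i
    rw [← Perm.mul_apply, ← pow_succ', pow_succ, Perm.mul_apply]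
    exact fun h2 => hx ((σ ^ i).injective h2)
  have hF : Function.Bijective F := by
    constructor
    · rintro (i | y) (i' | y') h
      · have h2 : (σ ^ i.val) x = (σ ^ i'.val) x := h
        have h3 : σ ^ i.val = σ ^ i'.val := hσ.pow_eq_pow_iff.mpr ⟨x, hx, h2⟩
        have h4 : i.val = i'.val := by
          apply pow_injOn_Iio_orderOf (x := σ) _ _ h3
          · rw [hm]; exact ZMod.val_lt i
          · rw [hm]; exact ZMod.val_lt i'
        rw [ZMod.val_injective m h4]
      · exfalso
        have h2 : (σ ^ i.val) x = y'.1 := h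
        exact hne i.val (by rw [h2]; exact y'.2)
      · exfalso
        have h2 : y.1 = (σ ^ i'.val) x := h
        exact hne i'.val (by rw [← h2]; exact y.2)
      · have h2 : y.1 = y'.1 := h
        rw [Subtype.ext h2]
    · intro y
      by_cases hy : σ y = y
      · exact ⟨Sum.inr ⟨y, hy⟩, rfl⟩
      · obtain ⟨i, hi⟩ := hσ.exists_pow_eq hx hy
        refine ⟨Sum.inl (i : ZMod m), ?_⟩
        show (σ ^ (i : ZMod m).val) x = y
        rw [ZMod.val_natCast, SCyc_mod σ m i h1, hi]
  refine ⟨Equiv.ofBijective F hF, ?_⟩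
  ext y
  obtain ⟨z, rfl⟩ := (Equiv.ofBijective F hF).surjective y
  rw [Equiv.permCongr_apply, Equiv.symm_apply_apply]
  rcases z with i | z
  · show (σ ^ (i + 1).val) x = σ ((σ ^ i.val) x)
    rw [SCyc_val m σ h1 i, pow_succ', Perm.mul_apply]
  · exact z.2.symm

end

theorem prf_SCyc (hEq : SEq) (hMul : SMul) : SCyc := by
  intro k _ _ _ L F _ _ r π hr hr2 ⟨j, hj⟩ hone hcyc
  classical
  have hodd : ∀ σ : Perm L, (∀ x, σ x ≠ x → σ x = π x) → Odd (orderOf σ) := by
    intro σ h
    have h1 := SCyc_ord h _ hj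
    exact Odd.of_dvd_nat ((hr.odd_of_ne_two hr2).pow) (orderOf_dvd_of_pow_eq_one h1)
  have hmain : ∀ σ : Perm L, (∀ x, σ x ≠ x → σ x = π x) → Re k L F σ 1 := by
    intro σ
    induction σ using Perm.cycle_induction_on with
    | base_one => intro _; exact hone
    | base_cycles σ hσ =>
      intro h
      obtain ⟨x, hx, -⟩ := id hσ
      have h1 := SCyc_ord h _ hj
      have hper : Function.minimalPeriod σ x = orderOf σ := by
        apply Nat.dvd_antisymm
        · apply Function.IsPeriodicPt.minimalPeriod_dvd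
          rw [Function.IsPeriodicPt, Function.IsFixedPt, Perm.iterate_eq_pow, pow_orderOf_eq_one]
          rfl
        · apply orderOf_dvd_of_pow_eq_one
          rw [hσ.pow_eq_one_iff' hx, ← Perm.iterate_eq_pow]
          exact Function.iterate_minimalPeriod
      obtain ⟨a, -, ha⟩ := (Nat.dvd_prime_pow hr).mp (orderOf_dvd_of_pow_eq_one h1)
      have ha0 : 0 < a := by
        rcases Nat.eq_zero_or_pos a with h2 | h2
        · rw [h2, pow_zero] at ha
          rw [orderOf_eq_one_iff] at ha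
          rw [ha] at hx
          exact absurd rfl hx
        · exact h2
      have : NeZero (r ^ a) := ⟨(pow_pos hr.pos a).ne'⟩
      obtain ⟨e, he⟩ := SCyc_label hσ (r ^ a) ha
      have h3 := hcyc a {y : L // σ y = y} ha0
        ⟨x, by rw [SCyc_per h x hx, hper, ha]⟩ ⟨e.symm⟩
      have h4 := hEq k _ F L F e (Equiv.refl F) _ _ h3
      rw [he] at h4
      exact h4
    | induction_disjoint σ τ hd hσ hPσ hPτ =>
      intro h
      have hs : ∀ x, σ x ≠ x → σ x = π x := by
        intro x hx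
        have h1 : τ x = x := (hd x).resolve_left hx
        have h2 := h x (by rw [Perm.mul_apply, h1]; exact hx)
        rwa [Perm.mul_apply, h1] at h2
      have ht : ∀ x, τ x ≠ x → τ x = π x := by
        intro x hx
        have h1 : σ (τ x) = τ x := (hd (τ x)).resolve_right fun h2 => hx (τ.injective h2)
        have h2 := h x (by rw [Perm.mul_apply, h1]; exact hx)
        rwa [Perm.mul_apply, h1] at h2
      have h3 := hMul k L F σ τ 1 1 (hodd σ hs) (hodd τ ht) (by rw [orderOf_one]; exact odd_one)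
        (by rw [orderOf_one]; exact odd_one) hd.commute rfl (hPσ hs) (hPτ ht)
      rwa [mul_one] at h3
  exact hmain π fun x _ => rfl

end MP7b0bad.S2
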