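import Pool.Agent.Work.MP_7b0bad_ag.S2.Stmts

set_option autoImplicit false

/-!
# Block S2, item SEmb (helper35): more points
-/

namespace MP7b0bad.S2

open Equiv

theorem SEmb_uu (L F : Type) : uu L F * uu L F = 1 := by
  ext x
  rcases x with ⟨i, b⟩ | j
  · change Sum.inl (i, !(!b)) = _
    rw [Bool.not_not]
    rfl
  · rfl

/-- the action of the sign on the new points -/
def SEmb_psi (L F : Type) : ℤˣ →* Perm (Om L F) where
  toFun e := if e = 1 then 1 else uu L F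
  map_one' := if_pos rfl
  map_mul' x y := by
    have h1 : (-1 : ℤˣ) ≠ 1 := by decide
    rcases Int.units_eq_one_or x with rfl | rfl <;> rcases Int.units_eq_one_or y with rfl | rfl
    · simp
    · simp
    · simp
    · rw [if_neg h1, SEmb_uu, if_pos (by decide)]

theorem SEmb_psi_one (L F : Type) : SEmb_psi L F 1 = 1 := map_one _

theorem SEmb_psi_neg (L F : Type) : SEmb_psi L F (-1) = uu L F := by
  have h1 : (-1 : ℤˣ) ≠ 1 := by decide
  change (if (-1 : ℤˣ) = 1 then 1 else uu L F) = uu L F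
  rw [if_neg h1]

/-- the points -/
def SEmb_E (L₀ L₁ F₀ F₁ : Type) : Om L₀ F₀ ⊕ Om L₁ F₁ ≃ Om (L₀ ⊕ L₁) (F₀ ⊕ F₁) where
  toFun x := match x with
    | Sum.inl (Sum.inl (i, b)) => Sum.inl (Sum.inl i, b)
    | Sum.inl (Sum.inr j) => Sum.inr (Sum.inl j)
    | Sum.inr (Sum.inl (i, b)) => Sum.inl (Sum.inr i, b)
    | Sum.inr (Sum.inr j) => Sum.inr (Sum.inr j)
  invFun x := match x with
    | Sum.inl (Sum.inl i, b) => Sum.inl (Sum.inl (i, b))
    | Sum.inl (Sum.inr i, b) => Sum.inr (Sum.inl (i, b))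
    | Sum.inr (Sum.inl j) => Sum.inl (Sum.inr j)
    | Sum.inr (Sum.inr j) => Sum.inr (Sum.inr j)
  left_inv x := by
    rcases x with (⟨i, b⟩ | j) | (⟨i, b⟩ | j) <;> rfl
  right_inv x := by
    rcases x with ⟨i | i, b⟩ | (j | j) <;> rfl

theorem SEmb_E_uu (L₀ L₁ F₀ F₁ : Type) :
    (SEmb_E L₀ L₁ F₀ F₁).permCongr (Perm.sumCongr (uu L₀ F₀) (uu L₁ F₁)) =
      uu (L₀ ⊕ L₁) (F₀ ⊕ F₁) := by
  ext x
  rcases x with ⟨i | i, b⟩ | (j | j) <;> rfl

theorem SEmb_E_cp (L₀ L₁ F₀ F₁ : Type) (π : Perm L₀) (τ : Perm F₀) :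
    (SEmb_E L₀ L₁ F₀ F₁).permCongr (Perm.sumCongr (cp π τ) (1 : Perm (Om L₁ F₁))) =
      cp (Perm.sumCongr π 1) (Perm.sumCongr τ 1) := by
  ext x
  rcases x with ⟨i | i, b⟩ | (j | j) <;> rfl

/-- the new action -/
def SEmb_th {H : Type} [Group H] {L₀ F₀ : Type} (L₁ F₁ : Type) (θ : H →* Perm (Om L₀ F₀))
    (ε : H →* ℤˣ) : H →* Perm (Om (L₀ ⊕ L₁) (F₀ ⊕ F₁)) where
  toFun h := (SEmb_E L₀ L₁ F₀ F₁).permCongr (Perm.sumCongr (θ h) (SEmb_psi L₁ F₁ (ε h)))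
  map_one' := by
    rw [map_one, map_one, map_one, Perm.sumCongr_one]
    ext x
    rw [Equiv.permCongr_apply]
    simp
  map_mul' x y := by
    rw [map_mul, map_mul, map_mul, ← Perm.sumCongr_mul]
    ext z
    rw [Perm.mul_apply, Equiv.permCongr_apply, Equiv.permCongr_apply, Equiv.permCongr_apply,
      Equiv.symm_apply_apply, Perm.mul_apply]

theorem prf_SEmb : SEmb := by
  intro k _ L₀ L₁ F₀ F₁ π τ h
  obtain ⟨H, hG, hF, u, c, θ, ε, hn, ho, hrel, hu, hc, he⟩ := h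
  have hec : ε c = 1 := by
    rcases Int.units_eq_one_or (ε c) with h1 | h1
    · exact h1
    · exfalso
      have h2 : ε c ^ orderOf c = 1 := by rw [← map_pow, pow_orderOf_eq_one, map_one]
      rw [h1, ho.neg_one_pow] at h2
      exact absurd h2 (by decide)
  refine ⟨H, hG, hF, u, c, SEmb_th L₁ F₁ θ ε, ε, hn, ho, hrel, ?_, ?_, he⟩
  · change (SEmb_E L₀ L₁ F₀ F₁).permCongr (Perm.sumCongr (θ u) (SEmb_psi L₁ F₁ (ε u))) = _
    rw [hu, he, SEmb_psi_neg, SEmb_E_uu]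
  · change (SEmb_E L₀ L₁ F₀ F₁).permCongr (Perm.sumCongr (θ c) (SEmb_psi L₁ F₁ (ε c))) = _
    rw [hc, hec, SEmb_psi_one, SEmb_E_cp]

end MP7b0bad.S2
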