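import Pool.Agent.Work.MP_7b0bad_ag.S2.Stmts
import Pool.Agent.Work.MP_7b0bad_ag.MT.ANax

set_option autoImplicit false

/-! Block S2, item SEq: relabelling of the points. -/

namespace MP7b0bad.S2

open Equiv

/-- the relabelling of the points -/
def SEq_om {L F L' F' : Type} (e : L ≃ L') (e' : F ≃ F') : Om L F ≃ Om L' F' :=
  Equiv.sumCongr (Equiv.prodCongr e (Equiv.refl Bool)) e'

theorem SEq_uu {L F L' F' : Type} (e : L ≃ L') (e' : F ≃ F') :
    (SEq_om e e').permCongr (uu L F) = uu L' F' := by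
  ext x
  rcases x with ⟨i, b⟩ | j
  · simp [SEq_om, uu, Equiv.permCongr_apply]
  · simp [SEq_om, uu, Equiv.permCongr_apply]

theorem SEq_cp {L F L' F' : Type} (e : L ≃ L') (e' : F ≃ F') (π : Perm L) (τ : Perm F) :
    (SEq_om e e').permCongr (cp π τ) = cp (e.permCongr π) (e'.permCongr τ) := by
  ext x
  rcases x with ⟨i, b⟩ | j
  · simp [SEq_om, cp, Equiv.permCongr_apply]
  · simp [SEq_om, cp, Equiv.permCongr_apply]

theorem prf_SEq : SEq := by
  intro k _ _ _ L F L' F' _ _ e e' π τ h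
  haveI : Fact (Nat.Prime 2) := ⟨Nat.prime_two⟩
  obtain ⟨H, hH, hR⟩ := h
  set f : Perm (Om L F) →* Perm (Om L' F') := (Equiv.permCongrHom (SEq_om e e')).toMonoidHom with hf
  have fu : f (uu L F) = uu L' F' := SEq_uu e e'
  have fc : f (cp π τ) = cp (e.permCongr π) (e'.permCongr τ) := SEq_cp e e' π τ
  have h1 := MT.anax_tr 2 f hR
  rw [MonoidHom.map_zpowers, fu, fc] at h1
  refine ⟨H.map f, ?_, h1⟩
  refine (Subgroup.map_mono hH).trans ?_
  rw [Subgroup.map_le_iff_le_comap]
  apply Subgroup.normalClosure_le_normal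
  intro x hx
  rw [Set.mem_singleton_iff] at hx
  rw [hx]
  show f (uu L F) ∈ Subgroup.normalClosure {uu L' F'}
  rw [fu]
  exact Subgroup.subset_normalClosure rfl

end MP7b0bad.S2
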