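import Pool.Agent.Work.MP_7b0bad_ag.S2.Stmts

set_option autoImplicit false

/-!
# Block S2: [SF] the fixed points of the involution
-/

namespace MP7b0bad.S2

open Equiv

/-- all transpositions are conjugate, and they generate the symmetric group -/
theorem SF_norm {T : Type} [Finite T] [DecidableEq T] (a b : T) (hab : a ≠ b) :
    Subgroup.normalClosure {swap a b} = (⊤ : Subgroup (Perm T)) := by
  rw [eq_top_iff, ← Equiv.Perm.closure_isSwap, Subgroup.closure_le]
  rintro σ ⟨x, y, hxy, rfl⟩
  obtain ⟨g, hg⟩ := isConj_iff.1 (Equiv.Perm.isConj_swap hab hxy)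
  have h1 : swap a b ∈ Subgroup.normalClosure {swap a b} :=
    Subgroup.subset_normalClosure (Set.mem_singleton _)
  have h2 := Subgroup.Normal.conj_mem (Subgroup.normalClosure_normal (s := {swap a b})) _ h1 g
  rw [hg] at h2
  exact h2

theorem prf_SF (hSym : SSym) : SF := by
  intro k _ _ _ F _ τ hτ
  classical
  have _inst : Fintype (Bool ⊕ F) := Fintype.ofFinite _
  set c : Perm (Bool ⊕ F) := Perm.sumCongr 1 τ with hc
  have hpow : ∀ n : ℕ, c ^ n = Perm.sumCongr 1 (τ ^ n) := by
    intro n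
    induction n with
    | zero => rw [pow_zero, pow_zero, Perm.sumCongr_one]
    | succ n ih => rw [pow_succ, pow_succ, ih, hc, Perm.sumCongr_mul, one_mul]
  have hodd : Odd (orderOf c) := by
    refine Odd.of_dvd_nat hτ (orderOf_dvd_of_pow_eq_one ?_)
    rw [hpow, pow_orderOf_eq_one, Perm.sumCongr_one]
  have hne : (Sum.inl false : Bool ⊕ F) ≠ Sum.inl true := by
    intro h
    exact Bool.false_ne_true (Sum.inl.inj h)
  let e : Bool ⊕ F ≃ Om Unit F := Equiv.sumCongr (Equiv.punitProd Bool).symm (Equiv.refl F)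
  refine ⟨Perm (Bool ⊕ F), inferInstance, inferInstance, swap (Sum.inl false) (Sum.inl true), c,
    (e.permCongrHom : Perm (Bool ⊕ F) ≃* Perm (Om Unit F)).toMonoidHom, Perm.sign,
    SF_norm _ _ hne, hodd, hSym k (Bool ⊕ F) _ _ c hne ?_ ?_ hodd, ?_, ?_, Perm.sign_swap hne⟩
  · rw [hc, Perm.sumCongr_apply]
    rfl
  · rw [hc, Perm.sumCongr_apply]
    rfl
  · ext x
    change e (swap (Sum.inl false) (Sum.inl true) (e.symm x)) = uu Unit F x
    rcases x with ⟨⟨⟩, b⟩ | x
    · change e (swap (Sum.inl false) (Sum.inl true) (Sum.inl b)) = Sum.inl ((), !b)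
      cases b
      · rw [swap_apply_left]
        rfl
      · rw [swap_apply_right]
        rfl
    · change e (swap (Sum.inl false) (Sum.inl true) (Sum.inr x)) = Sum.inr x
      rw [swap_apply_of_ne_of_ne (by simp) (by simp)]
      rfl
  · ext x
    change e (c (e.symm x)) = cp 1 τ x
    rcases x with ⟨⟨⟩, b⟩ | x
    · rfl
    · rfl

end MP7b0bad.S2
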