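import Pool.Agent.Work.MP_7b0bad_ag.S2.Stmts
import Pool.Agent.Work.MP_7b0bad_ag.MT.ANmain
import Pool.Agent.Work.MP_7b0bad_ag.AL.ALfin

set_option autoImplicit false

/-!
# Block S2, item SFin: the result for the alternating and symmetric groups, `p = 2`
-/

namespace MP7b0bad.S2

open Equiv

/-- a subgroup that contains the alternating group is normal -/
theorem SFin_normal {n : ℕ} {X : Subgroup (Perm (Fin n))} (hX : alternatingGroup (Fin n) ≤ X) :
    X.Normal := by
  refine ⟨fun x hx g => ?_⟩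
  have h1 : g * x * g⁻¹ * x⁻¹ ∈ alternatingGroup (Fin n) := by
    rw [Perm.mem_alternatingGroup, Perm.sign_mul, Perm.sign_mul, Perm.sign_mul, Perm.sign_inv,
      Perm.sign_inv, mul_comm (Perm.sign g) (Perm.sign x), mul_assoc (Perm.sign x),
      ← sq, Int.units_sq, mul_one, ← sq, Int.units_sq]
  have h2 := X.mul_mem (hX h1) hx
  rwa [inv_mul_cancel_right] at h2

/-- from permutations to `X` -/
theorem SFin_sub (k : Type) [Field k] {G : Type} [Group G] (X H : Subgroup G) (hH : H ≤ X)
    (u g : X) (h : MT.Rz k (Subgroup.zpowers (u : G)) (g : G) H) :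
    MT.Rz k (Subgroup.zpowers u) g (H.subgroupOf X) := by
  obtain ⟨h1, h2⟩ := h
  have e1 := MT.ANmain_sub X u g
  refine ⟨?_, ?_⟩
  · rw [← e1]
    intro y hy
    exact h1 hy
  · have h3 := all_QIso k H (H.subgroupOf X) (Subgroup.subgroupOfEquivOfLe hH).symm _ h2
    have h4 : ((Subgroup.zpowers (u : G) ⊔ Subgroup.zpowers (g : G)).subgroupOf H).map
        (Subgroup.subgroupOfEquivOfLe hH).symm.toMonoidHom
        = (Subgroup.zpowers u ⊔ Subgroup.zpowers g).subgroupOf (H.subgroupOf X) := by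
      rw [← e1]
      ext y
      rw [Subgroup.mem_map, Subgroup.mem_subgroupOf, Subgroup.mem_subgroupOf]
      constructor
      · rintro ⟨z, hz, rfl⟩
        exact hz
      · intro hy
        exact ⟨⟨((y : X) : G), y.2⟩, hy, rfl⟩
    rw [h4] at h3
    exact h3

theorem prf_SFin (hPt : SPt) (hFam : MT.MFam) (hChar2 : MT.MChar2) : SFin := by
  intro k _ _ _ n X hX P c hPc hncl hyp
  have : Fact (Nat.Prime 2) := ⟨Nat.prime_two⟩
  have hXn := SFin_normal hX
  -- the case `g = 1`
  have hone : ∃ H : Subgroup X, MT.Rz k P 1 H := by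
    have h0 : P ⊔ Subgroup.zpowers (1 : X) = P := by
      rw [Subgroup.zpowers_one_eq_bot, sup_bot_eq]
    refine ⟨P, h0.le, ?_⟩
    rw [h0, Subgroup.subgroupOf_self]
    exact all_QRP k 2 P hPc.1
  -- all elements of `⟨c⟩`
  have hall : ∀ N : ℕ, N ≠ 0 → ∀ g ∈ Subgroup.zpowers c, g ^ N = 1 →
      ∃ H : Subgroup X, MT.Rz k P g H := by
    intro N
    induction N using Nat.recOnPosPrimePosCoprime with
    | zero => intro h; exact absurd rfl h
    | one =>
      intro _ g _ hg
      rw [pow_one] at hg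
      rw [hg]
      exact hone
    | prime_pow r m hr hm =>
      intro _ g hg hgr
      by_cases hg1 : g = 1
      · rw [hg1]
        exact hone
      have hord : orderOf g ∣ r ^ m := orderOf_dvd_of_pow_eq_one hgr
      have hrg : r ∣ orderOf g := by
        obtain ⟨j, hj, hj'⟩ := (Nat.dvd_prime_pow hr).mp hord
        rw [hj']
        apply dvd_pow_self
        rintro rfl
        rw [pow_zero] at hj'
        exact hg1 (orderOf_eq_one_iff.mp hj')
      have hrc : r ∣ orderOf c := hrg.trans (orderOf_dvd_of_mem_zpowers hg)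
      have hr2 : r ≠ 2 := by
        rintro rfl
        exact hPc.2.1 hrc
      obtain ⟨u, huP, hu1, huu, hug⟩ := hyp r hr hrc
      obtain ⟨hgu, hCn⟩ := hug g hg ⟨m, hgr⟩
      have hNg := AL.ALfin_nz 2 P c hPc g hg
      have coe : ∀ a b : X, a = b → (a : Perm (Fin n)) = (b : Perm (Fin n)) :=
        fun a b h => congrArg _ h
      obtain ⟨H, hH, hR⟩ := hPt k n r (u : Perm (Fin n)) (g : Perm (Fin n)) hr hr2
        (fun h => hu1 (Subtype.ext h)) (coe _ _ huu) (coe _ _ hgu)
        ⟨m, coe _ _ hgr⟩ hCn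
      have hHX : H ≤ X := hH.trans (Subgroup.normalClosure_le_normal
        (Set.singleton_subset_iff.mpr u.2))
      have hR' := SFin_sub k X H hHX u g hR
      have huP' : Subgroup.zpowers u ≤ P := by
        rw [Subgroup.zpowers_le]
        exact huP
      have hzu : MT.Nz 2 (Subgroup.zpowers u) g := by
        refine ⟨hPc.1.to_le huP', hNg.2.1, ?_⟩
        intro y hy
        obtain ⟨i, rfl⟩ := Subgroup.mem_zpowers_iff.mp hy
        have h1 : g * u ^ i = u ^ i * g := Commute.zpow_right (show Commute g u from hgu) i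
        rw [h1, mul_inv_cancel_right]
        exact hy
      have h1 := hFam k 2 X P 1 (fun _ => g) (fun _ => Subgroup.zpowers u)
        (fun _ => H.subgroupOf X) hPc.1 (fun _ => hNg) (fun _ => hzu) (fun _ => huP')
        (fun _ _ => Commute.refl g) (fun _ => hR')
      exact ⟨_, by simpa using h1⟩
    | coprime a b ha hb hab iha ihb =>
      intro _ g hg hgab
      have ha0 : a ≠ 0 := by omega
      have hb0 : b ≠ 0 := by omega
      have hbez : (1 : ℤ) = a * Nat.gcdA a b + b * Nat.gcdB a b := by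
        have h := Nat.gcd_eq_gcd_ab a b
        rw [hab.gcd_eq_one] at h
        exact_mod_cast h
      have hgg : g = g ^ ((b : ℤ) * Nat.gcdB a b) * g ^ ((a : ℤ) * Nat.gcdA a b) := by
        rw [← zpow_add, add_comm, ← hbez, zpow_one]
      have h1 : g ^ ((b : ℤ) * Nat.gcdB a b) ∈ Subgroup.zpowers c := Subgroup.zpow_mem _ hg _
      have h2 : g ^ ((a : ℤ) * Nat.gcdA a b) ∈ Subgroup.zpowers c := Subgroup.zpow_mem _ hg _
      have e1 : (g ^ ((b : ℤ) * Nat.gcdB a b)) ^ a = 1 := by
        rw [← zpow_natCast, ← zpow_mul,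
          show (b : ℤ) * Nat.gcdB a b * (a : ℤ) = ((a * b : ℕ) : ℤ) * Nat.gcdB a b by
            push_cast; ring, zpow_mul, zpow_natCast, hgab, one_zpow]
      have e2 : (g ^ ((a : ℤ) * Nat.gcdA a b)) ^ b = 1 := by
        rw [← zpow_natCast, ← zpow_mul,
          show (a : ℤ) * Nat.gcdA a b * (b : ℤ) = ((a * b : ℕ) : ℤ) * Nat.gcdA a b by
            push_cast; ring, zpow_mul, zpow_natCast, hgab, one_zpow]
      obtain ⟨H₀, hR₀⟩ := iha ha0 _ h1 e1
      obtain ⟨H₁, hR₁⟩ := ihb hb0 _ h2 e2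
      have hN₀ := AL.ALfin_nz 2 P c hPc _ h1
      have hN₁ := AL.ALfin_nz 2 P c hPc _ h2
      have hcm : Commute (g ^ ((b : ℤ) * Nat.gcdB a b)) (g ^ ((a : ℤ) * Nat.gcdA a b)) :=
        Commute.zpow_zpow (Commute.refl g) _ _
      have h3 := hFam k 2 X P 2 ![g ^ ((b : ℤ) * Nat.gcdB a b), g ^ ((a : ℤ) * Nat.gcdA a b)]
        (fun _ => P) ![H₀, H₁] hPc.1
        (by intro i; fin_cases i; exacts [hN₀, hN₁]) (by intro i; fin_cases i; exacts [hN₀, hN₁])
        (fun _ => le_refl P)
        (by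
          intro i j
          fin_cases i <;> fin_cases j
          exacts [Commute.refl _, hcm, hcm.symm, Commute.refl _])
        (by intro i; fin_cases i; exacts [hR₀, hR₁])
      rw [hgg]
      exact ⟨_, by simpa using h3⟩
  obtain ⟨H, hR⟩ := hall (orderOf c) (orderOf_pos c).ne' c (Subgroup.mem_zpowers c)
    (pow_orderOf_eq_one c)
  exact hChar2 k X P P H c hPc hPc le_rfl hR hncl

end MP7b0bad.S2
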