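import Pool.Agent.Work.MP_7b0bad_ag.S2.Stmts
import Pool.Agent.Work.MP_7b0bad_ag.MT.MChar2

set_option autoImplicit false

/-! # Item SG3: the complex reflection group `G(m, m, 3)` -/

namespace MP7b0bad.S2

open Equiv

/-- `(i, x) ↦ (σ i, x + v i)` -/
def SG3_el {m : ℕ} (σ : Perm (Fin 3)) (v : Fin 3 → ZMod m) : Perm (Fin 3 × ZMod m) where
  toFun p := (σ p.1, p.2 + v p.1)
  invFun p := (σ⁻¹ p.1, p.2 - v (σ⁻¹ p.1))
  left_inv := by rintro ⟨i, x⟩; simp
  right_inv := by rintro ⟨i, x⟩; simp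

theorem SG3_el_apply {m : ℕ} (σ : Perm (Fin 3)) (v : Fin 3 → ZMod m) (i : Fin 3) (x : ZMod m) :
    SG3_el σ v (i, x) = (σ i, x + v i) := rfl

theorem SG3_el_mul {m : ℕ} (σ σ' : Perm (Fin 3)) (v v' : Fin 3 → ZMod m) :
    SG3_el σ v * SG3_el σ' v' = SG3_el (σ * σ') (fun i => v' i + v (σ' i)) := by
  ext1 ⟨i, x⟩
  rw [Perm.mul_apply, SG3_el_apply, SG3_el_apply, SG3_el_apply, Perm.mul_apply, add_assoc]

theorem SG3_el_one {m : ℕ} : SG3_el (1 : Perm (Fin 3)) (0 : Fin 3 → ZMod m) = 1 := by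
  ext1 ⟨i, x⟩
  rw [SG3_el_apply]
  simp

theorem SG3_el_inv {m : ℕ} (σ : Perm (Fin 3)) (v : Fin 3 → ZMod m) :
    (SG3_el σ v)⁻¹ = SG3_el σ⁻¹ (fun i => -v (σ⁻¹ i)) := by
  rw [inv_eq_iff_mul_eq_one, SG3_el_mul, ← SG3_el_one]
  congr 1
  · simp
  · funext i
    simp

theorem SG3_el_inj {m : ℕ} {σ σ' : Perm (Fin 3)} {v v' : Fin 3 → ZMod m}
    (h : SG3_el σ v = SG3_el σ' v') : σ = σ' ∧ v = v' := by
  have h1 : ∀ i, (σ i, (0 : ZMod m) + v i) = (σ' i, 0 + v' i) := fun i => by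
    rw [← SG3_el_apply, ← SG3_el_apply, h]
  constructor
  · ext1 i
    exact (Prod.mk.inj (h1 i)).1
  · funext i
    have := (Prod.mk.inj (h1 i)).2
    simpa using this

/-- the group -/
def SG3_H (m : ℕ) : Subgroup (Perm (Fin 3 × ZMod m)) where
  carrier := {g | ∃ (σ : Perm (Fin 3)) (v : Fin 3 → ZMod m), ∑ i, v i = 0 ∧ g = SG3_el σ v}
  mul_mem' := by
    rintro _ _ ⟨σ, v, hv, rfl⟩ ⟨σ', v', hv', rfl⟩
    refine ⟨σ * σ', _, ?_, SG3_el_mul σ σ' v v'⟩
    rw [Finset.sum_add_distrib, hv', Equiv.sum_comp σ' v, hv, add_zero]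
  one_mem' := ⟨1, 0, by simp, SG3_el_one.symm⟩
  inv_mem' := by
    rintro _ ⟨σ, v, hv, rfl⟩
    refine ⟨σ⁻¹, _, ?_, SG3_el_inv σ v⟩
    rw [Finset.sum_neg_distrib, Equiv.sum_comp σ⁻¹ v, hv, neg_zero]

theorem SG3_mem {m : ℕ} (σ : Perm (Fin 3)) (v : Fin 3 → ZMod m) (h : ∑ i, v i = 0) :
    SG3_el σ v ∈ SG3_H m := ⟨σ, v, h, rfl⟩

/-- the permutation of `Fin 3` -/
noncomputable def SG3_s (m : ℕ) : SG3_H m →* Perm (Fin 3) :=
  MonoidHom.mk' (fun g => g.2.choose) (by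
    intro a b
    obtain ⟨va, -, ha⟩ := a.2.choose_spec
    obtain ⟨vb, -, hb⟩ := b.2.choose_spec
    obtain ⟨vc, -, hc⟩ := (a * b).2.choose_spec
    have h2 : SG3_el (a.2.choose) va * SG3_el (b.2.choose) vb = SG3_el ((a * b).2.choose) vc :=
      (congrArg₂ (· * ·) ha.symm hb.symm).trans hc
    rw [SG3_el_mul] at h2
    exact (SG3_el_inj h2).1.symm)

theorem SG3_s_spec {m : ℕ} (g : SG3_H m) : ∃ v : Fin 3 → ZMod m,
    (g : Perm (Fin 3 × ZMod m)) = SG3_el (SG3_s m g) v := by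
  obtain ⟨va, -, ha⟩ := g.2.choose_spec
  exact ⟨va, ha⟩

theorem SG3_perm3 : Group.IsSolvable (Perm (Fin 3)) := by
  have h1 : Group.IsSolvable (Perm.sign (α := Fin 3)).ker := by
    refine Group.isSolvable_of_comm ?_
    rintro ⟨a, ha⟩ ⟨b, hb⟩
    apply Subtype.ext
    change a * b = b * a
    rw [MonoidHom.mem_ker] at ha hb
    revert a b
    decide
  have h2 : Group.IsSolvable ℤˣ := Group.isSolvable_of_comm fun a b => mul_comm a b
  exact Group.isSolvable_of_ker_le_range (Perm.sign (α := Fin 3)).ker.subtype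
    (Perm.sign (α := Fin 3)) (by rw [Subgroup.range_subtype])

theorem SG3_solv (m : ℕ) : Group.IsSolvable (SG3_H m) := by
  have h1 : Group.IsSolvable (SG3_s m).ker := by
    refine Group.isSolvable_of_comm ?_
    rintro ⟨a, ha⟩ ⟨b, hb⟩
    apply Subtype.ext
    apply Subtype.ext
    change (a : Perm (Fin 3 × ZMod m)) * b = b * a
    rw [MonoidHom.mem_ker] at ha hb
    obtain ⟨va, hva⟩ := SG3_s_spec a
    obtain ⟨vb, hvb⟩ := SG3_s_spec b
    rw [hva, hvb, ha, hb, SG3_el_mul, SG3_el_mul]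
    congr 1
    funext i
    exact add_comm _ _
  have h2 := SG3_perm3
  exact Group.isSolvable_of_ker_le_range (SG3_s m).ker.subtype (SG3_s m)
    (by rw [Subgroup.range_subtype])

/-- the involution -/
def SG3_u (m : ℕ) : SG3_H m := ⟨SG3_el (swap 0 1) 0, SG3_mem _ _ (by simp)⟩

/-- the tame element -/
def SG3_c (m : ℕ) : SG3_H m := ⟨SG3_el 1 ![1, 1, -2], SG3_mem _ _ (by
  simp [Fin.sum_univ_three]; ring)⟩

theorem SG3_nc_perm (m : ℕ) (σ : Perm (Fin 3)) :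
    (⟨SG3_el σ 0, SG3_mem σ 0 (by simp)⟩ : SG3_H m) ∈ Subgroup.normalClosure {SG3_u m} := by
  -- the homomorphism `σ ↦ (σ, 0)`
  let j : Perm (Fin 3) →* SG3_H m :=
    { toFun := fun σ => ⟨SG3_el σ 0, SG3_mem σ 0 (by simp)⟩
      map_one' := Subtype.ext SG3_el_one
      map_mul' := fun a b => Subtype.ext (by
        change SG3_el (a * b) 0 = SG3_el a 0 * SG3_el b 0
        rw [SG3_el_mul]
        congr 1
        funext i
        simp) }
  have h1 : (⊤ : Subgroup (Perm (Fin 3))) ≤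
      (Subgroup.normalClosure {SG3_u m}).comap j := by
    rw [← Perm.closure_isSwap, Subgroup.closure_le]
    rintro τ ⟨x, y, hxy, rfl⟩
    change j (swap x y) ∈ Subgroup.normalClosure {SG3_u m}
    -- conjugate of `u`
    obtain ⟨ρ, hρ⟩ : ∃ ρ : Perm (Fin 3), ρ * swap 0 1 * ρ⁻¹ = swap x y := by
      have h01 : (swap (0 : Fin 3) 1).IsSwap := ⟨0, 1, by decide, rfl⟩
      have hxy' : (swap x y).IsSwap := ⟨x, y, hxy, rfl⟩
      exact isConj_iff.1 (Perm.isConj_swap (by decide) hxy)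
    rw [← hρ, map_mul, map_mul, map_inv]
    exact Subgroup.normalClosure_normal.conj_mem _
      (Subgroup.subset_normalClosure (Set.mem_singleton _)) _
  exact h1 (Subgroup.mem_top σ)

theorem SG3_comm (m : ℕ) (τ : Perm (Fin 3)) (v : Fin 3 → ZMod m) (hv : ∑ i, v i = 0) :
    (⟨SG3_el 1 (fun i => v i - v (τ⁻¹ i)), SG3_mem _ _ (by
      rw [Finset.sum_sub_distrib, Equiv.sum_comp τ⁻¹ v, sub_self])⟩ : SG3_H m) ∈
      Subgroup.normalClosure {SG3_u m} := by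
  have h1 : (⟨SG3_el 1 v, SG3_mem _ _ hv⟩ : SG3_H m) * ⟨SG3_el τ 0, SG3_mem τ 0 (by simp)⟩ *
      (⟨SG3_el 1 v, SG3_mem _ _ hv⟩ : SG3_H m)⁻¹ *
      (⟨SG3_el τ 0, SG3_mem τ 0 (by simp)⟩ : SG3_H m)⁻¹ ∈
      Subgroup.normalClosure {SG3_u m} := by
    refine Subgroup.mul_mem _ ?_ (Subgroup.inv_mem _ (SG3_nc_perm m τ))
    exact Subgroup.normalClosure_normal.conj_mem _ (SG3_nc_perm m τ) _
  convert h1 using 1
  apply Subtype.ext
  change SG3_el 1 (fun i => v i - v (τ⁻¹ i)) =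
    SG3_el 1 v * SG3_el τ 0 * (SG3_el 1 v)⁻¹ * (SG3_el τ 0)⁻¹
  rw [SG3_el_inv, SG3_el_inv, SG3_el_mul, SG3_el_mul, SG3_el_mul]
  congr 1
  · simp
  · funext i
    simp
    ring

theorem SG3_nc (m : ℕ) : Subgroup.normalClosure {SG3_u m} = ⊤ := by
  rw [eq_top_iff]
  rintro ⟨g, σ, v, hv, rfl⟩ -
  have h3 : v 0 + v 1 + v 2 = 0 := by
    rw [← hv, Fin.sum_univ_three]
  -- `(1, v)` with `v = (a, -a, 0) + (0, b, -b)`
  have hA := SG3_comm m (swap 0 1) ![v 0, 0, -v 0] (by simp [Fin.sum_univ_three])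
  have hB := SG3_comm m (swap 1 2) ![-(v 0 + v 1), v 0 + v 1, 0] (by simp [Fin.sum_univ_three])
  have hP := SG3_nc_perm m σ
  have h1 := Subgroup.mul_mem _ hP (Subgroup.mul_mem _ hA hB)
  convert h1 using 1
  apply Subtype.ext
  change SG3_el σ v = SG3_el σ 0 * (SG3_el 1 _ * SG3_el 1 _)
  rw [SG3_el_mul, SG3_el_mul]
  congr 1
  funext i
  have e2 : v 2 = -(v 0 + v 1) := by linear_combination h3
  fin_cases i
  · simp [swap_apply_of_ne_of_ne]
  · simp [swap_apply_of_ne_of_ne]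
  · simp [swap_apply_of_ne_of_ne, e2]

/-- the labels -/
def SG3_E (m : ℕ) : Fin 3 × ZMod m ≃ Om (ZMod m) (ZMod m) where
  toFun p := if p.1 = 0 then Sum.inl (p.2, false) else
    if p.1 = 1 then Sum.inl (p.2, true) else Sum.inr p.2
  invFun q := Sum.elim (fun a => (if a.2 then 1 else 0, a.1)) (fun x => (2, x)) q
  left_inv := by
    rintro ⟨i, x⟩
    fin_cases i <;> simp
  right_inv := by
    rintro (⟨x, b⟩ | x)
    · cases b <;> simp
    · simp

theorem SG3_E0 (m : ℕ) (x : ZMod m) : SG3_E m (0, x) = Sum.inl (x, false) := rfl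
theorem SG3_E1 (m : ℕ) (x : ZMod m) : SG3_E m (1, x) = Sum.inl (x, true) := rfl
theorem SG3_E2 (m : ℕ) (x : ZMod m) : SG3_E m (2, x) = Sum.inr x := rfl
theorem SG3_Ef (m : ℕ) (x : ZMod m) : (SG3_E m).symm (Sum.inl (x, false)) = (0, x) := rfl
theorem SG3_Et (m : ℕ) (x : ZMod m) : (SG3_E m).symm (Sum.inl (x, true)) = (1, x) := rfl
theorem SG3_Er (m : ℕ) (x : ZMod m) : (SG3_E m).symm (Sum.inr x) = (2, x) := rfl

theorem SG3_cpow (m n : ℕ) (v : Fin 3 → ZMod m) :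
    (SG3_el 1 v) ^ n = SG3_el 1 (fun i => (n : ZMod m) * v i) := by
  induction n with
  | zero =>
    rw [pow_zero, ← SG3_el_one]
    congr 1
    funext i
    simp
  | succ n ih =>
    rw [pow_succ, ih, SG3_el_mul]
    congr 1
    funext i
    simp
    ring

theorem prf_SG3 (hSolv : MT.MSolv) : SG3 := by
  intro k _ _ _ m _ hm
  have hcm : SG3_c m ^ m = 1 := by
    apply Subtype.ext
    change (SG3_el 1 ![1, 1, -2]) ^ m = (1 : Perm (Fin 3 × ZMod m))
    rw [SG3_cpow, ← SG3_el_one]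
    congr 1
    funext i
    simp
  have hodd : Odd (orderOf (SG3_c m)) := hm.of_dvd_nat (orderOf_dvd_of_pow_eq_one hcm)
  have hcu : SG3_c m * SG3_u m = SG3_u m * SG3_c m := by
    apply Subtype.ext
    change SG3_el 1 ![1, 1, -2] * SG3_el (swap 0 1) 0 = SG3_el (swap 0 1) 0 * SG3_el 1 ![1, 1, -2]
    rw [SG3_el_mul, SG3_el_mul]
    congr 1
    funext i
    fin_cases i <;> simp [swap_apply_of_ne_of_ne]
  have huu : SG3_u m ^ 2 = 1 := by
    apply Subtype.ext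
    change (SG3_el (swap 0 1) 0) ^ 2 = (1 : Perm (Fin 3 × ZMod m))
    rw [sq, SG3_el_mul, ← SG3_el_one]
    congr 1
    · simp
    · funext i
      simp
  have hNz : MT.Nz 2 (Subgroup.zpowers (SG3_u m)) (SG3_c m) := by
    refine ⟨?_, ?_, ?_⟩
    · intro g
      obtain ⟨g, n, rfl⟩ := g
      refine ⟨1, ?_⟩
      apply Subtype.ext
      change (SG3_u m ^ n) ^ 2 ^ 1 = 1
      rw [pow_one, ← zpow_natCast, zpow_comm, zpow_natCast, huu, one_zpow]
    · intro h2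
      exact (Nat.not_even_iff_odd.2 hodd) (even_iff_two_dvd.2 h2)
    · rintro _ ⟨n, rfl⟩
      refine ⟨n, ?_⟩
      have : Commute (SG3_c m) (SG3_u m ^ n) := Commute.zpow_right hcu n
      change SG3_u m ^ n = SG3_c m * SG3_u m ^ n * (SG3_c m)⁻¹
      rw [this.eq, mul_inv_cancel_right]
  have hRz := hSolv k 2 (SG3_H m) (Subgroup.zpowers (SG3_u m)) ⊤ (SG3_c m) hNz le_top (by
    have := SG3_solv m
    exact (Group.isSolvable_of_isSolvable_injective (f := (Subgroup.topEquiv (G := SG3_H m)).toMonoidHom)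
      (Subgroup.topEquiv (G := SG3_H m)).injective)) (by
    rw [eq_top_iff]
    intro g' _
    have hg' : g' ∈ Subgroup.normalClosure {SG3_u m} := by
      rw [SG3_nc m]
      exact Subgroup.mem_top g'
    refine Subgroup.closure_mono ?_ hg'
    intro g hg
    obtain ⟨a, ha, hga⟩ := Group.mem_conjugatesOfSet_iff.1 hg
    rw [Set.mem_singleton_iff] at ha
    subst ha
    obtain ⟨x, rfl⟩ := isConj_iff.1 hga
    exact ⟨x, Subgroup.mem_top x, SG3_u m, Subgroup.mem_zpowers _, rfl⟩)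
  have hRel := MT.MChar2_ofTop k (SG3_H m) _ hRz.2
  refine ⟨SG3_H m, inferInstance, inferInstance, SG3_u m, SG3_c m,
    (SG3_E m).permCongrHom.toMonoidHom.comp (SG3_H m).subtype,
    Perm.sign.comp (SG3_H m).subtype, SG3_nc m, hodd, hRel, ?_, ?_, ?_⟩
  · change (SG3_E m).permCongr (SG3_el (swap 0 1) 0) = uu (ZMod m) (ZMod m)
    ext1 q
    rw [Equiv.permCongr_apply]
    rcases q with ⟨x, b⟩ | x
    · cases b
      · rw [SG3_Ef, SG3_el_apply]
        simp [SG3_E1, uu]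
      · rw [SG3_Et, SG3_el_apply]
        simp [SG3_E0, uu]
    · rw [SG3_Er, SG3_el_apply]
      simp [SG3_E2, uu, swap_apply_of_ne_of_ne]
  · change (SG3_E m).permCongr (SG3_el 1 ![1, 1, -2]) = cp _ _
    ext1 q
    rw [Equiv.permCongr_apply]
    rcases q with ⟨x, b⟩ | x
    · cases b
      · rw [SG3_Ef, SG3_el_apply]
        simp [SG3_E0, cp]
      · rw [SG3_Et, SG3_el_apply]
        simp [SG3_E1, cp]
    · rw [SG3_Er, SG3_el_apply]
      simp [SG3_E2, cp]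
  · change Perm.sign (SG3_el (swap 0 1) 0 : Perm (Fin 3 × ZMod m)) = -1
    have h1 : (SG3_el (swap 0 1) 0 : Perm (Fin 3 × ZMod m)) =
        prodCongrLeft (fun _ : ZMod m => swap (0 : Fin 3) 1) := by
      ext1 ⟨i, x⟩
      rw [SG3_el_apply, prodCongrLeft_apply]
      simp
    rw [h1, Perm.sign_prodCongrLeft]
    simp only [Finset.prod_const, Finset.card_univ, ZMod.card]
    rw [Perm.sign_swap (by decide)]
    exact hm.neg_one_pow

end MP7b0bad.S2
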