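import Pool.Agent.Work.MP_7b0bad_ag.S2.Stmts

set_option autoImplicit false

/-!
# Block S2: products of tame parts
-/

namespace MP7b0bad.S2

open Equiv

theorem SMul_cp_mul {L F : Type} (π π' : Perm L) (τ τ' : Perm F) :
    cp π τ * cp π' τ' = cp (π * π') (τ * τ') := by
  ext x
  rcases x with ⟨i, b⟩ | j <;> rfl

theorem SMul_cp_one {L F : Type} : cp (1 : Perm L) (1 : Perm F) = 1 := by
  ext x
  rcases x with ⟨i, b⟩ | j <;> rfl

/-- `cp` as a homomorphism -/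
def SMul_hom (L F : Type) : Perm L × Perm F →* Perm (Om L F) where
  toFun p := cp p.1 p.2
  map_one' := SMul_cp_one
  map_mul' p q := (SMul_cp_mul p.1 q.1 p.2 q.2).symm

theorem SMul_odd {L F : Type} (π : Perm L) (τ : Perm F) (hπ : Odd (orderOf π))
    (hτ : Odd (orderOf τ)) : Odd (orderOf (cp π τ)) := by
  have h1 : orderOf (cp π τ) ∣ orderOf ((π, τ) : Perm L × Perm F) :=
    orderOf_map_dvd (SMul_hom L F) (π, τ)
  rw [Prod.orderOf_mk] at h1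
  have h2 : orderOf (cp π τ) ∣ orderOf π * orderOf τ := h1.trans (Nat.lcm_dvd_mul _ _)
  exact (hπ.mul hτ).of_dvd_nat h2

theorem SMul_uu_sq (L F : Type) : uu L F * uu L F = 1 := by
  ext x
  rcases x with ⟨i, b⟩ | j
  · change Sum.inl (i, !(!b)) = Sum.inl (i, b)
    rw [Bool.not_not]
  · rfl

theorem SMul_comm {L F : Type} (π : Perm L) (τ : Perm F) : Commute (cp π τ) (uu L F) := by
  change cp π τ * uu L F = uu L F * cp π τ
  ext x
  rcases x with ⟨i, b⟩ | j <;> rfl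

theorem SMul_pgroup (L F : Type) : IsPGroup 2 (Subgroup.zpowers (uu L F)) := by
  rintro ⟨g, hg⟩
  obtain ⟨m, rfl⟩ := hg
  refine ⟨1, Subtype.ext ?_⟩
  change (uu L F ^ m) ^ (2 ^ 1) = 1
  rw [pow_one, ← zpow_natCast, ← zpow_mul, mul_comm, zpow_mul]
  have h1 : uu L F ^ ((2 : ℕ) : ℤ) = 1 := by
    rw [zpow_natCast, sq, SMul_uu_sq]
  rw [h1, one_zpow]

theorem SMul_Nz {L F : Type} (π : Perm L) (τ : Perm F) (hπ : Odd (orderOf π))
    (hτ : Odd (orderOf τ)) : MT.Nz 2 (Subgroup.zpowers (uu L F)) (cp π τ) := by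
  refine ⟨SMul_pgroup L F, ?_, ?_⟩
  · have h1 := SMul_odd π τ hπ hτ
    exact h1.not_two_dvd_nat
  · rintro x ⟨m, rfl⟩
    have h1 : Commute (cp π τ) (uu L F ^ m) := (SMul_comm π τ).zpow_right m
    change cp π τ * uu L F ^ m * (cp π τ)⁻¹ ∈ Subgroup.zpowers (uu L F)
    rw [h1.eq, mul_inv_cancel_right]
    exact ⟨m, rfl⟩

theorem prf_SMul (hRz : MT.MRz) : SMul := by
  intro k _ _ _ L F _ _ π π' τ τ' hπ hπ' hτ hτ' hcπ hcτ h h'
  obtain ⟨H, hH, hR⟩ := h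
  obtain ⟨H', hH', hR'⟩ := h'
  have : Fact (Nat.Prime 2) := ⟨Nat.prime_two⟩
  have hc : cp π τ * cp π' τ' = cp π' τ' * cp π τ := by
    rw [SMul_cp_mul, SMul_cp_mul, hcπ, hcτ]
  have h1 := hRz k 2 (Perm (Om L F)) (Subgroup.zpowers (uu L F)) (Subgroup.zpowers (uu L F))
    (Subgroup.zpowers (uu L F)) H H' (cp π τ) (cp π' τ') (SMul_Nz π τ hπ hτ)
    (SMul_Nz π' τ' hπ' hτ') (SMul_Nz π τ hπ hτ) (SMul_Nz π' τ' hπ' hτ') le_rfl le_rfl hc hR hR'
  rw [SMul_cp_mul] at h1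
  refine ⟨_, ?_, h1⟩
  refine sup_le (sup_le ?_ hH) hH'
  rw [Subgroup.zpowers_le]
  exact Subgroup.subset_normalClosure (Set.mem_singleton _)

end MP7b0bad.S2
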