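import Pool.Agent.Work.MP_7b0bad_ag.S2.Stmts

set_option autoImplicit false

/-!
Item SNF: units of odd order in `ZMod (r ^ i)`.
-/

namespace MP7b0bad.S2

theorem SNF_unit {r i : ℕ} (hr : r.Prime) (hi : 0 < i) (x : ZMod (r ^ i))
    (h : ZMod.castHom (dvd_pow_self r hi.ne') (ZMod r) x ≠ 0) : IsUnit x := by
  have hne : NeZero (r ^ i) := ⟨pow_ne_zero _ hr.ne_zero⟩
  have h1 : ((x.val : ℕ) : ZMod (r ^ i)) = x := ZMod.natCast_zmod_val x
  have h2 : ((x.val : ℕ) : ZMod r) ≠ 0 := by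
    intro h0
    apply h
    rw [← h1, map_natCast]
    exact h0
  rw [← h1, ZMod.isUnit_iff_coprime]
  refine Nat.Coprime.pow_right i ?_
  rw [Nat.coprime_comm, Nat.Prime.coprime_iff_not_dvd hr]
  intro h3
  exact h2 ((ZMod.natCast_eq_zero_iff _ _).2 h3)

theorem prf_SNF : SNF := by
  intro r i hr hr2 hnp hi
  have : Fact r.Prime := ⟨hr⟩
  have hne : NeZero (r ^ i) := ⟨pow_ne_zero _ hr.ne_zero⟩
  -- an odd prime divisor of `r - 1`
  obtain ⟨d, hd, hd2, hdr⟩ : ∃ d, d.Prime ∧ d ≠ 2 ∧ d ∣ r - 1 := by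
    by_contra hcon
    push Not at hcon
    apply hnp
    have h1 : r - 1 ≠ 0 := by
      have := hr.two_le
      omega
    have h2 := Nat.eq_prime_pow_of_unique_prime_dvd (p := 2) h1
      (fun {d} hd hdv => by
        by_contra hne2
        exact hcon d hd hne2 hdv)
    refine ⟨(r - 1).primeFactorsList.length, ?_⟩
    have := hr.two_le
    omega
  have hdf : Fact d.Prime := ⟨hd⟩
  obtain ⟨g, hg⟩ : ∃ g : (ZMod r)ˣ, orderOf g = d := by
    refine exists_prime_orderOf_dvd_card' d ?_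
    rw [Nat.card_eq_fintype_card, ZMod.card_units]
    exact hdr
  obtain ⟨a₀, ha₀⟩ := ZMod.unitsMap_surjective (dvd_pow_self r hi.ne') g
  obtain ⟨s, t, ht, hst⟩ := Nat.exists_eq_two_pow_mul_odd (orderOf_pos a₀).ne'
  refine ⟨a₀ ^ (2 ^ s), ?_, ?_⟩
  · have h1 : orderOf (a₀ ^ (2 ^ s)) = t := by
      rw [orderOf_pow, hst, Nat.gcd_eq_right (Dvd.intro t rfl), Nat.mul_div_cancel_left]
      exact pow_pos (by norm_num) s
    rw [h1]
    exact ht
  · refine SNF_unit hr hi _ ?_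
    intro h0
    rw [map_sub, map_one, sub_eq_zero] at h0
    have h1 : ((ZMod.unitsMap (dvd_pow_self r hi.ne') (a₀ ^ (2 ^ s)) : (ZMod r)ˣ) : ZMod r) = 1 :=
      h0
    rw [map_pow, ha₀] at h1
    have h2 : g ^ (2 ^ s) = 1 := Units.ext h1
    have h3 := orderOf_dvd_of_pow_eq_one h2
    rw [hg] at h3
    exact hd2 ((Nat.prime_dvd_prime_iff_eq hd Nat.prime_two).1 (hd.dvd_of_dvd_pow h3))

end MP7b0bad.S2
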