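import Pool.Agent.Work.MP_7b0bad_ag.S2.Stmts
import Pool.Agent.Work.MP_7b0bad_ag.MT.ANax

set_option autoImplicit false

/-!
# Block S2, item SPt: permutations of `n` points
-/

namespace MP7b0bad.S2

open Equiv

theorem SPt_cp_mul {L F : Type} (π π' : Perm L) (τ τ' : Perm F) :
    cp (π * π') (τ * τ') = cp π τ * cp π' τ' := by
  ext x
  rcases x with ⟨i, b⟩ | j <;> simp [cp]

theorem SPt_cp_pow {L F : Type} (π : Perm L) (τ : Perm F) (m : ℕ) :
    cp π τ ^ m = cp (π ^ m) (τ ^ m) := by
  induction m with
  | zero =>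
    ext x
    rcases x with ⟨i, b⟩ | j <;> simp [cp]
  | succ m ih => rw [pow_succ, ih, pow_succ, pow_succ, SPt_cp_mul]

theorem SPt_cp_one {L F : Type} {π : Perm L} {τ : Perm F} (h : cp π τ = 1) : π = 1 ∧ τ = 1 := by
  constructor
  · ext i
    have h1 := congrArg (fun p : Perm (Om L F) => p (Sum.inl (i, false))) h
    simp [cp] at h1
    simpa using h1
  · ext j
    have h1 := congrArg (fun p : Perm (Om L F) => p (Sum.inr j)) h
    simp [cp] at h1
    simpa using h1

theorem SPt_perm {n : ℕ} {L F : Type} (e : Fin n ≃ Om L F) {p : Perm (Fin n)}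
    {q : Perm (Om L F)} (h : e.permCongr p = q) (a : Fin n) : e (p a) = q (e a) := by
  rw [← h, Equiv.permCongr_apply, Equiv.symm_apply_apply]

theorem SPt_permpow {n : ℕ} {L F : Type} (e : Fin n ≃ Om L F) {p : Perm (Fin n)}
    {q : Perm (Om L F)} (h : e.permCongr p = q) (m : ℕ) : e.permCongr (p ^ m) = q ^ m := by
  have h1 : e.permCongrHom (p ^ m) = (e.permCongrHom p) ^ m := map_pow _ _ _
  have h2 : e.permCongrHom p = q := h
  rw [h2] at h1
  exact h1

theorem SPt_supp {n : ℕ} {L F : Type} [Finite L] [Finite F] (e : Fin n ≃ Om L F)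
    {u : Perm (Fin n)} (h : e.permCongr u = uu L F) : u.support.card = 2 * Nat.card L := by
  classical
  haveI := Fintype.ofFinite L
  have h1 : u.support = Finset.univ.image (fun p : L × Bool => e.symm (Sum.inl p)) := by
    ext a
    rw [Perm.mem_support, Finset.mem_image]
    have h2 : u a ≠ a ↔ uu L F (e a) ≠ e a := by
      rw [← SPt_perm e h a]
      exact (e.injective.ne_iff).symm
    rw [h2]
    constructor
    · intro h3
      rcases hx : e a with p | j
      · exact ⟨p, Finset.mem_univ _, by rw [← hx, e.symm_apply_apply]⟩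
      · rw [hx] at h3
        exact absurd (by simp [uu]) h3
    · rintro ⟨⟨i, b⟩, -, rfl⟩
      rw [e.apply_symm_apply]
      simp [uu]
  have hinj : Function.Injective (fun p : L × Bool => e.symm (Sum.inl p)) :=
    e.symm.injective.comp Sum.inl_injective
  rw [h1, Finset.card_image_of_injective _ hinj, Finset.card_univ, Fintype.card_prod, Fintype.card_bool, Nat.card_eq_fintype_card, mul_comm]

theorem SPt_card {n : ℕ} {L F : Type} [Finite L] [Finite F] (e : Fin n ≃ Om L F) :
    n = 2 * Nat.card L + Nat.card F := by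
  have h1 := Nat.card_congr e
  rw [Nat.card_sum, Nat.card_prod, Nat.card_eq_fintype_card, Fintype.card_fin,
    Nat.card_eq_fintype_card (α := Bool), Fintype.card_bool] at h1
  omega

/-- [SPt] permutations of `n` points -/
theorem prf_SPt (hDec : SDec) (hRr : SRr) : SPt := by
  intro k _ _ _ n r u g hr hr2 hu huu hgu hg hCn
  obtain ⟨j, hj⟩ := hg
  have hodd : Odd (orderOf g) := by
    have h1 : orderOf g ∣ r ^ j := orderOf_dvd_of_pow_eq_one hj
    exact Odd.of_dvd_nat ((hr.odd_of_ne_two hr2).pow) h1
  obtain ⟨L, F, hL, hF, e, π, τ, he1, he2, -, -⟩ := hDec (Fin n) u g huu hgu hodd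
  have : Nonempty L := by
    by_contra hne
    rw [not_nonempty_iff] at hne
    apply hu
    ext a
    have h1 := SPt_perm e he1 a
    have h2 : e (u a) = e a := by
      rw [h1]
      rcases e a with ⟨i, b⟩ | j
      · exact (hne.false i).elim
      · simp [uu]
    rw [e.injective h2]
    rfl
  have hpow : cp (π ^ r ^ j) (τ ^ r ^ j) = 1 := by
    rw [← SPt_cp_pow, ← SPt_permpow e he2, hj]
    ext a
    simp
  obtain ⟨hπ, hτ⟩ := SPt_cp_one hpow
  have hCnd : Cnd L F r π := by
    intro h5 hf x hx
    set a := e.symm (Sum.inl (x, false)) with ha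
    have hea : e a = Sum.inl (x, false) := e.apply_symm_apply _
    have hua : u a ≠ a := by
      intro h1
      have h2 := SPt_perm e he1 a
      rw [h1, hea] at h2
      simp [uu] at h2
    have hmp : Function.minimalPeriod g a = Function.minimalPeriod π x := by
      rw [Function.minimalPeriod_eq_minimalPeriod_iff]
      intro m
      unfold Function.IsPeriodicPt Function.IsFixedPt
      rw [Perm.iterate_eq_pow, Perm.iterate_eq_pow]
      have h1 := SPt_perm e (SPt_permpow e he2 m) a
      rw [SPt_cp_pow, hea] at h1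
      constructor
      · intro h2
        rw [h2, hea] at h1
        simp only [cp, Perm.sumCongr_apply, Sum.map_inl, Equiv.prodCongr_apply, Prod.map,
          Equiv.refl_apply, Sum.inl.injEq, Prod.mk.injEq] at h1
        exact h1.1.symm
      · intro h2
        apply e.injective
        rw [h1, hea]
        simp only [cp, Perm.sumCongr_apply, Sum.map_inl, Equiv.prodCongr_apply, Prod.map,
          Equiv.refl_apply, h2]
    have h3 := hCn h5 hf a hua (by rw [hmp]; exact hx)
    rw [hmp, SPt_supp e he1] at h3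
    have h4 := SPt_card e
    rcases h3 with h3 | h3
    · left; omega
    · right; omega
  obtain ⟨H, hH, hRz⟩ := hRr k L F r π τ hr hr2 ⟨j, hπ⟩ ⟨j, hτ⟩ hCnd
  set f : Perm (Om L F) →* Perm (Fin n) := (e.symm.permCongrHom).toMonoidHom with hf
  have hfs : Function.Surjective f := (e.symm.permCongrHom).surjective
  have hfu : f (uu L F) = u := by
    rw [← he1]
    ext a
    simp [hf, Equiv.permCongrHom]
  have hfg : f (cp π τ) = g := by
    rw [← he2]
    ext a
    simp [hf, Equiv.permCongrHom]
  refine ⟨H.map f, ?_, ?_⟩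
  · refine (Subgroup.map_mono hH).trans ?_
    rw [Subgroup.map_normalClosure _ _ hfs, Set.image_singleton, hfu]
  · haveI : Fact (Nat.Prime 2) := ⟨Nat.prime_two⟩
    have h1 := MT.anax_tr 2 f hRz
    rwa [MonoidHom.map_zpowers, hfu, hfg] at h1

end MP7b0bad.S2
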