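import Pool.Agent.Work.MP_7b0bad_ag.S2.Stmts
import Pool.Agent.Work.MP_7b0bad_ag.MT.ANax
import Pool.Agent.Work.MP_7b0bad_ag.MT.MChar2

set_option autoImplicit false

/-!
# Block S2, item SRe: images of realised groups
-/

namespace MP7b0bad.S2

open Equiv

theorem prf_SRe : SRe := by
  rintro k _ _ _ L F _ _ π τ ⟨H, _, _, u, c, θ, ε, hn, ho, hR, hu, hc, -⟩
  haveI : Fact (Nat.Prime 2) := ⟨Nat.prime_two⟩
  have h1 : MT.Rz k (Subgroup.zpowers u) c (⊤ : Subgroup H) :=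
    ⟨le_top, MT.MChar2_toTop k H _ hR⟩
  have h2 := MT.anax_tr 2 θ h1
  rw [MonoidHom.map_zpowers, hu, hc] at h2
  refine ⟨(⊤ : Subgroup H).map θ, ?_, h2⟩
  rw [← hn, Subgroup.map_le_iff_le_comap]
  refine Subgroup.normalClosure_le_normal ?_
  intro x hx
  rw [Set.mem_singleton_iff] at hx
  subst hx
  show θ x ∈ Subgroup.normalClosure {uu L F}
  rw [hu]
  exact Subgroup.subset_normalClosure (Set.mem_singleton _)

end MP7b0bad.S2
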