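import Pool.Agent.Work.MP_7b0bad_ag.S2.Stmts

set_option autoImplicit false

/-!
# Block S2, item SRr: elements of `r`-power order
-/

namespace MP7b0bad.S2

open Equiv

namespace SRrAux

/-- a finite type contains a copy of every smaller one -/
theorem SRr_split (A X : Type) [Finite A] [Finite X] (h : Nat.card A ≤ Nat.card X) :
    ∃ (Y : Type) (_ : Finite Y), Nonempty (A ⊕ Y ≃ X) := by
  refine ⟨Fin (Nat.card X - Nat.card A), inferInstance, ?_⟩
  rw [← Finite.card_eq, Nat.card_sum, Nat.card_fin]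
  omega

theorem SRr_odd {A : Type} [Finite A] {r : ℕ} (hr : r.Prime) (hr2 : r ≠ 2) {π : Perm A}
    (h : ∃ j, π ^ r ^ j = 1) : Odd (orderOf π) := by
  obtain ⟨j, hj⟩ := h
  exact Odd.of_dvd_nat ((hr.odd_of_ne_two hr2).pow) (orderOf_dvd_of_pow_eq_one hj)

theorem SRr_odd_one {A : Type} : Odd (orderOf (1 : Perm A)) := by
  rw [orderOf_one]
  exact odd_one

theorem SRr_permCongr_one {A B : Type} (e : A ≃ B) : e.permCongr 1 = 1 := by
  ext x
  simp

theorem SRr_sumCongr_one {A B : Type} :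
    (Perm.sumCongr (1 : Perm A) (1 : Perm B)) = 1 := by
  ext x
  cases x <;> rfl

/-- `(1, τ)` -/
theorem SRr_fst {k : Type} [Field k] [IsAlgClosed k] [CharP k 2] (hRe : SRe) (hEmb : SEmb)
    (hEq : SEq) (hF : SF) (L F : Type) [Finite L] [Finite F] [Nonempty L] (τ : Perm F)
    (hτ : Odd (orderOf τ)) : Re k L F 1 τ := by
  obtain ⟨L₁, _, ⟨e⟩⟩ := SRr_split Unit L (by
    rw [Nat.card_unique]
    exact Nat.succ_le_of_lt Nat.card_pos)
  have h1 := hRe k _ _ _ _ (hEmb k Unit L₁ F Empty 1 τ (hF k F τ hτ))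
  have h2 := hEq k _ _ L F e (Equiv.sumEmpty F Empty) _ _ h1
  have e1 : e.permCongr (Perm.sumCongr (1 : Perm Unit) (1 : Perm L₁)) = 1 := by
    rw [SRr_sumCongr_one, SRr_permCongr_one]
  have e2 : (Equiv.sumEmpty F Empty).permCongr (Perm.sumCongr τ (1 : Perm Empty)) = τ := by
    ext x
    simp [Equiv.permCongr_apply]
  rw [e1, e2] at h2
  exact h2

/-- a source without fixed points gives everything -/
theorem SRr_src {k : Type} [Field k] [IsAlgClosed k] [CharP k 2] (hRe : SRe) (hEmb : SEmb)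
    (hEq : SEq) (L₀ L₁ F : Type) [Finite L₀] [Finite L₁] [Finite F] (π : Perm L₀)
    (h : Src k L₀ Empty π 1) : Re k (L₀ ⊕ L₁) F (Perm.sumCongr π 1) 1 := by
  have h1 := hRe k _ _ _ _ (hEmb k L₀ L₁ Empty F π 1 h)
  have h2 := hEq k _ _ (L₀ ⊕ L₁) F (Equiv.refl _) (Equiv.emptySum Empty F) _ _ h1
  have e1 : (Equiv.refl (L₀ ⊕ L₁)).permCongr (Perm.sumCongr π (1 : Perm L₁)) =
      Perm.sumCongr π 1 := by
    ext x
    rfl
  have e2 : (Equiv.emptySum Empty F).permCongr (Perm.sumCongr (1 : Perm Empty) (1 : Perm F)) =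
      1 := by
    rw [SRr_sumCongr_one, SRr_permCongr_one]
  rw [e1, e2] at h2
  exact h2

theorem SRr_pow {m : ℕ} (a : ZMod m) (j : ℕ) (x : ZMod m) :
    ((Equiv.addRight a : Perm (ZMod m)) ^ j) x = x + j * a := by
  induction j with
  | zero => simp
  | succ j ih =>
    rw [pow_succ', Perm.mul_apply, ih, Equiv.coe_addRight]
    push_cast
    ring

end SRrAux

open SRrAux

theorem prf_SRr (hRe : SRe) (hEmb : SEmb) (hEq : SEq) (hMul : SMul) (hF : SF) (hB1 : SB1)
    (hG3 : SG3) (hAff : SAff) (hNF : SNF) (hS5 : SS5) (hCyc : SCyc) : SRr := by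
  intro k _ _ _ L F _ _ _ r π τ hr hr2 hπ hτ hC
  have hro : Odd r := hr.odd_of_ne_two hr2
  have hτ1 := SRr_fst (k := k) hRe hEmb hEq hF L F τ (SRr_odd hr hr2 hτ)
  have h11 := SRr_fst (k := k) hRe hEmb hEq hF L F 1 SRr_odd_one
  have hπ1 : Re k L F π 1 := by
    refine hCyc k L F r π hr hr2 hπ h11 ?_
    rintro a L₁ _ ha ⟨x, hx⟩ ⟨e⟩
    have hm0 : r ^ a ≠ 0 := pow_ne_zero _ hr.ne_zero
    have : NeZero (r ^ a) := ⟨hm0⟩
    have hmo : Odd (r ^ a) := hro.pow
    by_cases h3 : r = 3
    · subst h3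
      obtain ⟨b, rfl⟩ : ∃ b, a = b + 1 := ⟨a - 1, by omega⟩
      have : NeZero (3 ^ b : ℕ) := ⟨pow_ne_zero _ (by norm_num)⟩
      have h := hS5 k (3 ^ b) ((by decide : Odd 3).pow)
      rw [← pow_succ'] at h
      exact SRr_src hRe hEmb hEq _ L₁ F _ h
    · have h5 : 5 ≤ r := by
        have := hr.two_le
        obtain ⟨c, hc⟩ := hro
        omega
      by_cases hf : ∃ j : ℕ, r = 2 ^ j + 1
      · have hx1 : 1 < Function.minimalPeriod π x := by
          rw [hx]
          exact Nat.one_lt_pow (by omega) hr.one_lt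
        rcases hC h5 hf x hx1 with hL | hFc
        · rw [hx] at hL
          have hcard : Nat.card L = r ^ a + Nat.card L₁ := by
            rw [Nat.card_congr e, Nat.card_sum, Nat.card_zmod]
          obtain ⟨L₂, _, ⟨e₂⟩⟩ := SRr_split Bool L₁ (by
            rw [Nat.card_eq_fintype_card, Fintype.card_bool]
            omega)
          have h := SRr_src (k := k) hRe hEmb hEq _ L₂ F _ (hB1 k (r ^ a) hmo)
          have h2 := hEq k _ _ (ZMod (r ^ a) ⊕ L₁) F
            ((Equiv.sumAssoc _ _ _).trans (Equiv.sumCongr (Equiv.refl _) e₂)) (Equiv.refl F)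
            _ _ h
          have e1 : ((Equiv.sumAssoc (ZMod (r ^ a)) Bool L₂).trans
              (Equiv.sumCongr (Equiv.refl _) e₂)).permCongr
              (Perm.sumCongr (Perm.sumCongr (Equiv.addRight (1 : ZMod (r ^ a))) (1 : Perm Bool))
                (1 : Perm L₂)) =
              Perm.sumCongr (Equiv.addRight (1 : ZMod (r ^ a))) (1 : Perm L₁) := by
            ext x
            obtain ⟨y, rfl⟩ := ((Equiv.sumAssoc (ZMod (r ^ a)) Bool L₂).trans
              (Equiv.sumCongr (Equiv.refl _) e₂)).surjective x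
            rcases y with (y | y) | y <;> simp [Equiv.permCongr_apply]
          rw [e1, SRr_permCongr_one] at h2
          exact h2
        · rw [hx] at hFc
          obtain ⟨F₂, _, ⟨e₂⟩⟩ := SRr_split (ZMod (r ^ a)) F (by
            rw [Nat.card_zmod]
            exact hFc)
          have h := hRe k _ _ _ _ (hEmb k _ L₁ _ F₂ _ _ (hG3 k (r ^ a) hmo))
          have hpow : ∀ c : ZMod (r ^ a), Odd (orderOf (Perm.sumCongr
              (Equiv.addRight c : Perm (ZMod (r ^ a))) (1 : Perm F₂))) := by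
            intro c
            refine SRr_odd hr hr2 ⟨a, ?_⟩
            have : (Perm.sumCongr (Equiv.addRight c : Perm (ZMod (r ^ a))) (1 : Perm F₂)) ^ r ^ a
                = Perm.sumCongr ((Equiv.addRight c : Perm (ZMod (r ^ a))) ^ r ^ a)
                  ((1 : Perm F₂) ^ r ^ a) :=
              (map_pow (Perm.sumCongrHom (ZMod (r ^ a)) F₂)
                ((Equiv.addRight c : Perm (ZMod (r ^ a))), (1 : Perm F₂)) (r ^ a)).symm
            rw [this, one_pow]
            have e0 : (Equiv.addRight c : Perm (ZMod (r ^ a))) ^ r ^ a = 1 := by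
              ext x
              rw [SRr_pow, ZMod.natCast_self, zero_mul, add_zero]
              rfl
            rw [e0, SRr_sumCongr_one]
          have hpow' : Odd (orderOf (Perm.sumCongr
              (Equiv.addRight (1 : ZMod (r ^ a)) : Perm (ZMod (r ^ a))) (1 : Perm L₁))) := by
            refine SRr_odd hr hr2 ⟨a, ?_⟩
            have : (Perm.sumCongr (Equiv.addRight (1 : ZMod (r ^ a)) : Perm (ZMod (r ^ a)))
                (1 : Perm L₁)) ^ r ^ a
                = Perm.sumCongr ((Equiv.addRight (1 : ZMod (r ^ a)) : Perm (ZMod (r ^ a))) ^ r ^ a)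
                  ((1 : Perm L₁) ^ r ^ a) :=
              (map_pow (Perm.sumCongrHom (ZMod (r ^ a)) L₁)
                ((Equiv.addRight (1 : ZMod (r ^ a)) : Perm (ZMod (r ^ a))), (1 : Perm L₁))
                (r ^ a)).symm
            rw [this, one_pow]
            have e0 : (Equiv.addRight (1 : ZMod (r ^ a)) : Perm (ZMod (r ^ a))) ^ r ^ a = 1 := by
              ext x
              rw [SRr_pow, ZMod.natCast_self, zero_mul, add_zero]
              rfl
            rw [e0, SRr_sumCongr_one]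
          have h' := SRr_fst (k := k) hRe hEmb hEq hF (ZMod (r ^ a) ⊕ L₁) (ZMod (r ^ a) ⊕ F₂)
            (Perm.sumCongr (Equiv.addRight (2 : ZMod (r ^ a))) (1 : Perm F₂)) (hpow 2)
          have hc : Perm.sumCongr (Equiv.addRight (-2 : ZMod (r ^ a))) (1 : Perm F₂) *
              Perm.sumCongr (Equiv.addRight (2 : ZMod (r ^ a))) (1 : Perm F₂) = 1 := by
            ext x
            rcases x with x | x <;> simp
          have hc' : Perm.sumCongr (Equiv.addRight (2 : ZMod (r ^ a))) (1 : Perm F₂) *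
              Perm.sumCongr (Equiv.addRight (-2 : ZMod (r ^ a))) (1 : Perm F₂) = 1 := by
            ext x
            rcases x with x | x <;> simp
          have hM := hMul k (ZMod (r ^ a) ⊕ L₁) (ZMod (r ^ a) ⊕ F₂) _ 1 _ _ hpow' SRr_odd_one
            (hpow (-2)) (hpow 2) (by rw [mul_one, one_mul]) (hc.trans hc'.symm) h h'
          rw [hc, mul_one] at hM
          have h2 := hEq k _ _ (ZMod (r ^ a) ⊕ L₁) F (Equiv.refl _) e₂ _ _ hM
          rw [SRr_permCongr_one] at h2
          exact h2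
      · obtain ⟨b, hb1, hb2⟩ := hNF r a hr hr2 hf ha
        exact SRr_src hRe hEmb hEq _ L₁ F _ (hAff k (r ^ a) b hmo hb1 hb2)
  have h := hMul k L F π 1 1 τ (SRr_odd hr hr2 hπ) SRr_odd_one SRr_odd_one
    (SRr_odd hr hr2 hτ) (by rw [mul_one, one_mul]) (by rw [mul_one, one_mul]) hπ1 hτ1
  rw [mul_one, one_mul] at h
  exact h

end MP7b0bad.S2
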