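import Pool.Agent.Work.MP_7b0bad_ag.S2.Stmts
import Pool.Agent.Work.MP_7b0bad_ag.MT.ANax
import Pool.Agent.Work.MP_7b0bad_ag.SV.GAll

set_option autoImplicit false

/-!
# Block S2, item SS5: a `3M`-cycle, the group `(ZMod M)^6 ⋊ S_5`
-/

namespace MP7b0bad.S2

open Equiv SemidirectProduct
open scoped commutatorElement

section

variable (M : ℕ) (θ : Perm (Fin 5) →* Perm (ZMod 3 × Bool))

/-- the coefficient group -/
abbrev SS5_A : Type := Multiplicative (ZMod M)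

/-- the module -/
abbrev SS5_V : Type := ZMod 3 × Bool → SS5_A M

/-- the action of `h` on the module -/
def SS5_act (h : Perm (Fin 5)) : SS5_V M →* SS5_V M where
  toFun v := fun ω => v ((θ h)⁻¹ ω) ^ ((Perm.sign h : ℤˣ) : ℤ)
  map_one' := by
    funext ω
    simp
  map_mul' v w := by
    funext ω
    simp [mul_zpow]

theorem SS5_act_mul (h h' : Perm (Fin 5)) (v : SS5_V M) :
    SS5_act M θ (h * h') v = SS5_act M θ h (SS5_act M θ h' v) := by
  funext ω
  show v ((θ (h * h'))⁻¹ ω) ^ ((Perm.sign (h * h') : ℤˣ) : ℤ)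
    = (v ((θ h')⁻¹ ((θ h)⁻¹ ω)) ^ ((Perm.sign h' : ℤˣ) : ℤ)) ^ ((Perm.sign h : ℤˣ) : ℤ)
  rw [← zpow_mul, map_mul, map_mul, mul_inv_rev, Perm.mul_apply, Units.val_mul, mul_comm]

theorem SS5_act_one (v : SS5_V M) : SS5_act M θ 1 v = v := by
  funext ω
  show v ((θ 1)⁻¹ ω) ^ ((Perm.sign (1 : Perm (Fin 5)) : ℤˣ) : ℤ) = v ω
  simp

/-- the action of `S_5` on the module -/
def SS5_φ : Perm (Fin 5) →* MulAut (SS5_V M) where
  toFun h :=
    { toFun := SS5_act M θ h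
      invFun := SS5_act M θ h⁻¹
      left_inv := fun v => by rw [← SS5_act_mul, inv_mul_cancel, SS5_act_one]
      right_inv := fun v => by rw [← SS5_act_mul, mul_inv_cancel, SS5_act_one]
      map_mul' := fun v w => map_mul _ v w }
  map_one' := by
    ext v
    exact congrFun (SS5_act_one M θ v) _
  map_mul' h h' := by
    ext v
    exact congrFun (SS5_act_mul M θ h h' v) _

theorem SS5_φ_apply (h : Perm (Fin 5)) (v : SS5_V M) (ω : ZMod 3 × Bool) :
    SS5_φ M θ h v ω = v ((θ h)⁻¹ ω) ^ ((Perm.sign h : ℤˣ) : ℤ) := rfl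

/-- the group -/
abbrev SS5_B : Type := SS5_V M ⋊[SS5_φ M θ] Perm (Fin 5)

/-- the action on the points -/
def SS5_mul (b : SS5_B M θ) (y : SS5_A M × (ZMod 3 × Bool)) : SS5_A M × (ZMod 3 × Bool) :=
  (b.left (θ b.right y.2) * y.1 ^ ((Perm.sign b.right : ℤˣ) : ℤ), θ b.right y.2)

theorem SS5_mul_one (y : SS5_A M × (ZMod 3 × Bool)) : SS5_mul M θ 1 y = y := by
  obtain ⟨a, ω⟩ := y
  simp [SS5_mul]

theorem SS5_mul_mul (b b' : SS5_B M θ) (y : SS5_A M × (ZMod 3 × Bool)) :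
    SS5_mul M θ (b * b') y = SS5_mul M θ b (SS5_mul M θ b' y) := by
  obtain ⟨a, ω⟩ := y
  refine Prod.ext ?_ ?_
  · show (b * b').left (θ (b * b').right ω) * a ^ ((Perm.sign (b * b').right : ℤˣ) : ℤ)
      = b.left (θ b.right (θ b'.right ω)) * (b'.left (θ b'.right ω) *
        a ^ ((Perm.sign b'.right : ℤˣ) : ℤ)) ^ ((Perm.sign b.right : ℤˣ) : ℤ)
    have e : (θ b.right)⁻¹ (θ b.right (θ b'.right ω)) = θ b'.right ω :=
      Equiv.symm_apply_apply _ _
    rw [SemidirectProduct.mul_left, SemidirectProduct.mul_right, Pi.mul_apply, SS5_φ_apply, map_mul,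
      map_mul, Perm.mul_apply, e, mul_zpow, ← zpow_mul, Units.val_mul, mul_assoc,
      mul_comm ((Perm.sign b.right : ℤˣ) : ℤ)]
  · show θ (b * b').right ω = θ b.right (θ b'.right ω)
    rw [SemidirectProduct.mul_right, map_mul, Perm.mul_apply]

/-- the permutation representation -/
def SS5_Θ : SS5_B M θ →* Perm (SS5_A M × (ZMod 3 × Bool)) where
  toFun b :=
    { toFun := SS5_mul M θ b
      invFun := SS5_mul M θ b⁻¹
      left_inv := fun y => by rw [← SS5_mul_mul, inv_mul_cancel, SS5_mul_one]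
      right_inv := fun y => by rw [← SS5_mul_mul, mul_inv_cancel, SS5_mul_one] }
  map_one' := by
    ext y : 1
    exact SS5_mul_one M θ y
  map_mul' b b' := by
    ext y : 1
    exact SS5_mul_mul M θ b b' y

theorem SS5_Θ_apply (b : SS5_B M θ) (y : SS5_A M × (ZMod 3 × Bool)) :
    SS5_Θ M θ b y = (b.left (θ b.right y.2) * y.1 ^ ((Perm.sign b.right : ℤˣ) : ℤ),
      θ b.right y.2) := rfl

end

/-- powers modulo `N` -/
theorem SS5_mod {G : Type} [Group G] (g : G) (N n : ℕ) (h : g ^ N = 1) : g ^ (n % N) = g ^ n := by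
  conv_rhs => rw [← Nat.div_add_mod n N, pow_add, pow_mul, h, one_pow, one_mul]

theorem SS5_val (N : ℕ) [NeZero N] {G : Type} [Group G] (g : G) (h : g ^ N = 1) (i : ZMod N) :
    g ^ (i + 1).val = g ^ (i.val + 1) := by
  rw [ZMod.val_add, ZMod.val_one_eq_one_mod, Nat.add_mod_mod, SS5_mod g N _ h]

section

variable (M : ℕ) (θ : Perm (Fin 5) →* Perm (ZMod 3 × Bool))

/-- a vector supported at one point -/
def SS5_sg (ω : ZMod 3 × Bool) (a : SS5_A M) : SS5_V M := Pi.mulSingle ω a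

/-- squares -/
theorem SS5_sq (hM : Odd M) (a : SS5_A M) : ∃ b : SS5_A M, a = b * b := by
  obtain ⟨m, hm⟩ := hM
  have h1 : a ^ M = 1 := by
    apply Multiplicative.toAdd.injective
    rw [toAdd_pow, toAdd_one, nsmul_eq_mul, ZMod.natCast_self, zero_mul]
  refine ⟨a ^ (m + 1), ?_⟩
  rw [← pow_add, show m + 1 + (m + 1) = M + 1 by omega, pow_succ, h1, one_mul]

/-- the commutator of a vector and an element of `S_5` -/
theorem SS5_com (hfix : ∀ ω, ∃ h : Perm (Fin 5), Perm.sign h = -1 ∧ θ h ω = ω) (hM : Odd M)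
    (K : Subgroup (SS5_B M θ))
    (hK : ∀ (v : SS5_V M) (h : Perm (Fin 5)), ⁅(inl v : SS5_B M θ), (inr h : SS5_B M θ)⁆ ∈ K)
    (v : SS5_V M) :
    (inl v : SS5_B M θ) ∈ K := by
  classical
  have h1 : ∀ (ω : ZMod 3 × Bool) (a : SS5_A M),
      (inl (Pi.mulSingle ω a : SS5_V M) : SS5_B M θ) ∈ K := by
    intro ω a
    obtain ⟨b, rfl⟩ := SS5_sq M hM a
    obtain ⟨h, hs, hω⟩ := hfix ω
    have e1 : SS5_φ M θ h (Pi.mulSingle ω b)⁻¹ = Pi.mulSingle ω b := by
      funext ω'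
      rw [SS5_φ_apply, hs]
      show ((Pi.mulSingle ω b : SS5_V M)⁻¹ ((θ h)⁻¹ ω')) ^ (-1 : ℤ) = _
      rw [Pi.inv_apply, zpow_neg_one, inv_inv]
      by_cases hc : ω' = ω
      · have e2 : (θ h)⁻¹ ω' = ω := by
          rw [Perm.inv_eq_iff_eq, hω, hc]
        rw [e2, hc]
      · have e2 : (θ h)⁻¹ ω' ≠ ω := by
          intro e3
          rw [Perm.inv_eq_iff_eq, hω] at e3
          exact hc e3
        rw [Pi.mulSingle_eq_of_ne e2, Pi.mulSingle_eq_of_ne hc]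
    have e2 : ⁅(inl (Pi.mulSingle ω b : SS5_V M) : SS5_B M θ), (inr h : SS5_B M θ)⁆
        = inl (Pi.mulSingle ω (b * b) : SS5_V M) := by
      have e0 : (inr h : SS5_B M θ) * (inl (Pi.mulSingle ω b : SS5_V M))⁻¹ * (inr h)⁻¹
          = inl (SS5_φ M θ h (Pi.mulSingle ω b)⁻¹) := by
        rw [inl_aut, ← map_inv inl, ← map_inv inr]
      rw [commutatorElement_def, mul_assoc (inl _), mul_assoc (inl _), e0,
        ← map_mul, e1, Pi.mulSingle_mul]
    rw [← e2]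
    exact hK _ _
  have h2 : v = ∏ ω, (Pi.mulSingle ω (v ω) : SS5_V M) := (Finset.univ_prod_mulSingle v).symm
  have h3 : v ∈ K.comap (inl : SS5_V M →* SS5_B M θ) := by
    rw [h2]
    exact Subgroup.prod_mem _ fun ω _ => h1 ω _
  exact h3

/-- the tame element -/
def SS5_v : SS5_V M := fun ω =>
  if ω.1 = 0 then (if ω.2 then (Multiplicative.ofAdd (1 : ZMod M))⁻¹ else Multiplicative.ofAdd 1)
    else 1

/-- the involution `u` -/
def SS5_u : SS5_B M θ := inr (swap 0 1)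

/-- the tame element `c` -/
def SS5_c : SS5_B M θ := ⟨SS5_v M, swap 2 3 * swap 3 4⟩

theorem SS5_uu : SS5_u M θ * SS5_u M θ = 1 := by
  rw [SS5_u, ← map_mul, swap_mul_self, map_one]

theorem SS5_cu (hu : ∀ x b, θ (swap 0 1) (x, b) = (x, !b)) :
    SS5_c M θ * SS5_u M θ = SS5_u M θ * SS5_c M θ := by
  refine SemidirectProduct.ext ?_ ?_
  · show SS5_v M * SS5_φ M θ (swap 2 3 * swap 3 4) 1 = 1 * SS5_φ M θ (swap 0 1) (SS5_v M)
    rw [map_one, mul_one, one_mul]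
    funext ω
    have e1 : (θ (swap 0 1))⁻¹ ω = θ (swap 0 1) ω := by
      rw [← map_inv, swap_inv]
    rw [SS5_φ_apply, e1, Perm.sign_swap (by decide : (0 : Fin 5) ≠ 1)]
    obtain ⟨x, b⟩ := ω
    rw [hu]
    show (if x = 0 then (if b then (Multiplicative.ofAdd (1 : ZMod M))⁻¹ else
        Multiplicative.ofAdd 1) else 1)
      = (if x = 0 then (if !b then (Multiplicative.ofAdd (1 : ZMod M))⁻¹ else
        Multiplicative.ofAdd 1) else 1) ^ (-1 : ℤ)
    rw [zpow_neg_one]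
    by_cases hx : x = 0
    · rw [if_pos hx, if_pos hx]
      cases b <;> simp
    · rw [if_neg hx, if_neg hx, inv_one]
  · show (swap 2 3 * swap 3 4 : Perm (Fin 5)) * swap 0 1 = swap 0 1 * (swap 2 3 * swap 3 4)
    decide

/-- the order of `c` -/
theorem SS5_pow : SS5_c M θ ^ (3 * M) = 1 := by
  have h1 : (SS5_c M θ ^ 3).right = 1 := by
    have : (SS5_c M θ ^ 3).right = (swap 2 3 * swap 3 4 : Perm (Fin 5)) ^ 3 :=
      map_pow (rightHom : SS5_B M θ →* Perm (Fin 5)) (SS5_c M θ) 3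
    rw [this]
    decide
  have h2 : SS5_c M θ ^ 3 = inl (SS5_c M θ ^ 3).left := by
    refine SemidirectProduct.ext rfl ?_
    rw [h1, right_inl]
  rw [pow_mul, h2, ← map_pow]
  have h3 : ∀ v : SS5_V M, v ^ M = 1 := by
    intro v
    funext ω
    rw [Pi.pow_apply]
    apply Multiplicative.toAdd.injective
    rw [toAdd_pow, nsmul_eq_mul, ZMod.natCast_self, zero_mul]
    rfl
  rw [h3, map_one]

/-- `c` and `u` as permutations of the points -/
theorem SS5_Θu (hu : ∀ x b, θ (swap 0 1) (x, b) = (x, !b)) (a : SS5_A M) (x : ZMod 3) (b : Bool) :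
    SS5_Θ M θ (SS5_u M θ) (a, (x, b)) = (a⁻¹, (x, !b)) := by
  rw [SS5_Θ_apply]
  refine Prod.ext ?_ (hu x b)
  show (1 : SS5_V M) _ * a ^ ((Perm.sign (swap 0 1 : Perm (Fin 5)) : ℤˣ) : ℤ) = a⁻¹
  rw [Perm.sign_swap (by decide : (0 : Fin 5) ≠ 1), Pi.one_apply, one_mul]
  exact zpow_neg_one a

theorem SS5_Θc (hc : ∀ x b, θ (swap 2 3 * swap 3 4) (x, b) = (x + 1, b)) (a : SS5_A M)
    (x : ZMod 3) (b : Bool) :
    SS5_Θ M θ (SS5_c M θ) (a, (x, b)) = (SS5_v M (x + 1, b) * a, (x + 1, b)) := by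
  rw [SS5_Θ_apply]
  refine Prod.ext ?_ (hc x b)
  show SS5_v M (θ (swap 2 3 * swap 3 4) (x, b)) *
    a ^ ((Perm.sign (swap 2 3 * swap 3 4 : Perm (Fin 5)) : ℤˣ) : ℤ) = _
  rw [hc, Perm.sign_mul, Perm.sign_swap (by decide : (2 : Fin 5) ≠ 3),
    Perm.sign_swap (by decide : (3 : Fin 5) ≠ 4)]
  show SS5_v M (x + 1, b) * a ^ (1 : ℤ) = _
  rw [zpow_one]

/-- `c³` on the block of `(0, b)` -/
theorem SS5_c3 (hc : ∀ x b, θ (swap 2 3 * swap 3 4) (x, b) = (x + 1, b)) (a : SS5_A M) (b : Bool) :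
    (SS5_Θ M θ (SS5_c M θ) ^ 3) (a, ((0 : ZMod 3), b)) =
      ((if b then (Multiplicative.ofAdd (1 : ZMod M))⁻¹ else Multiplicative.ofAdd 1) * a,
        ((0 : ZMod 3), b)) := by
  rw [pow_succ, pow_succ, pow_one, Perm.mul_apply, Perm.mul_apply, SS5_Θc M θ hc,
    SS5_Θc M θ hc, SS5_Θc M θ hc]
  have e1 : SS5_v M ((0 : ZMod 3) + 1, b) = 1 :=
    if_neg (by decide : ((0 : ZMod 3) + 1) ≠ 0)
  have e2 : SS5_v M ((0 : ZMod 3) + 1 + 1, b) = 1 :=
    if_neg (by decide : ((0 : ZMod 3) + 1 + 1) ≠ 0)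
  have e3 : (0 : ZMod 3) + 1 + 1 + 1 = 0 := by decide
  rw [e1, e2, e3, one_mul, one_mul]
  rfl

/-- the points as `c^i u^b` -/
theorem SS5_surj [NeZero M] (hc : ∀ x b, θ (swap 2 3 * swap 3 4) (x, b) = (x + 1, b))
    (a : SS5_A M) (x : ZMod 3) (b : Bool) :
    ∃ n : ℕ, (SS5_Θ M θ (SS5_c M θ) ^ n) (1, ((0 : ZMod 3), b)) = (a, (x, b)) := by
  -- powers of `c³`
  have h1 : ∀ n : ℕ, (SS5_Θ M θ (SS5_c M θ) ^ (3 * n)) (1, ((0 : ZMod 3), b)) =
      ((if b then (Multiplicative.ofAdd (1 : ZMod M))⁻¹ else Multiplicative.ofAdd 1) ^ n,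
        ((0 : ZMod 3), b)) := by
    intro n
    induction n with
    | zero => simp
    | succ n ih =>
      rw [show 3 * (n + 1) = 3 + 3 * n by ring, pow_add, Perm.mul_apply, ih, SS5_c3 M θ hc,
        pow_succ']
  have h2 : ∃ n : ℕ, (SS5_Θ M θ (SS5_c M θ) ^ n) (1, ((0 : ZMod 3), b)) = (a, (0, b)) := by
    cases b
    · refine ⟨3 * (Multiplicative.toAdd a).val, ?_⟩
      rw [h1]
      refine Prod.ext ?_ rfl
      show (Multiplicative.ofAdd (1 : ZMod M)) ^ (Multiplicative.toAdd a).val = a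
      rw [← ofAdd_nsmul, nsmul_eq_mul, mul_one, ZMod.natCast_zmod_val, ofAdd_toAdd]
    · refine ⟨3 * (- Multiplicative.toAdd a).val, ?_⟩
      rw [h1]
      refine Prod.ext ?_ rfl
      show ((Multiplicative.ofAdd (1 : ZMod M))⁻¹) ^ (- Multiplicative.toAdd a).val = a
      rw [inv_pow, ← ofAdd_nsmul, nsmul_eq_mul, mul_one, ZMod.natCast_zmod_val, ofAdd_neg, inv_inv,
        ofAdd_toAdd]
  obtain ⟨n, hn⟩ := h2
  have e1 : SS5_v M ((0 : ZMod 3) + 1, b) = 1 :=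
    if_neg (by decide : ((0 : ZMod 3) + 1) ≠ 0)
  have e2 : SS5_v M ((0 : ZMod 3) + 1 + 1, b) = 1 :=
    if_neg (by decide : ((0 : ZMod 3) + 1 + 1) ≠ 0)
  have hx : x = 0 ∨ x = 1 ∨ x = 2 := by
    revert x
    decide
  rcases hx with rfl | rfl | rfl
  · exact ⟨n, hn⟩
  · refine ⟨1 + n, ?_⟩
    rw [pow_add, Perm.mul_apply, hn, pow_one, SS5_Θc M θ hc, e1, one_mul]
    rfl
  · refine ⟨1 + (1 + n), ?_⟩
    rw [pow_add, Perm.mul_apply, pow_add, Perm.mul_apply, hn, pow_one, SS5_Θc M θ hc,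
      SS5_Θc M θ hc, e1, e2, one_mul, one_mul]
    rfl

/-- the map to the points -/
def SS5_F (y : Om (ZMod (3 * M)) Empty) : SS5_A M × (ZMod 3 × Bool) :=
  Sum.elim (fun q : ZMod (3 * M) × Bool => (SS5_Θ M θ (SS5_c M θ) ^ q.1.val)
    (1, ((0 : ZMod 3), q.2))) Empty.elim y

theorem SS5_bij [NeZero M] (hc : ∀ x b, θ (swap 2 3 * swap 3 4) (x, b) = (x + 1, b)) :
    Function.Bijective (SS5_F M θ) := by
  have : NeZero (3 * M) := ⟨mul_ne_zero (by norm_num) (NeZero.ne M)⟩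
  have hfA : Finite (SS5_A M) := inferInstanceAs (Finite (ZMod M))
  have hfin : Finite (SS5_A M × (ZMod 3 × Bool)) := inferInstance
  have hsurj : Function.Surjective (SS5_F M θ) := by
    rintro ⟨a, x, b⟩
    obtain ⟨n, hn⟩ := SS5_surj M θ hc a x b
    refine ⟨Sum.inl ((n : ZMod (3 * M)), b), ?_⟩
    show (SS5_Θ M θ (SS5_c M θ) ^ ((n : ZMod (3 * M))).val) (1, ((0 : ZMod 3), b)) = _
    rw [ZMod.val_natCast, SS5_mod _ (3 * M) n ?_, hn]
    rw [← map_pow, SS5_pow, map_one]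
  have hcard : Nat.card (Om (ZMod (3 * M)) Empty) = Nat.card (SS5_A M × (ZMod 3 × Bool)) := by
    rw [Nat.card_sum, Nat.card_prod, Nat.card_prod, Nat.card_prod]
    have e1 : Nat.card (SS5_A M) = M := Nat.card_zmod M
    rw [e1, Nat.card_zmod, Nat.card_zmod]
    simp only [Nat.card_eq_fintype_card, Fintype.card_bool, Fintype.card_empty]
    ring
  exact (Nat.bijective_iff_surjective_and_card (SS5_F M θ)).mpr ⟨hsurj, hcard⟩

theorem SS5_Fc [NeZero M] (i : ZMod (3 * M)) (b : Bool) :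
    SS5_Θ M θ (SS5_c M θ) (SS5_F M θ (Sum.inl (i, b))) = SS5_F M θ (Sum.inl (i + 1, b)) := by
  have : NeZero (3 * M) := ⟨mul_ne_zero (by norm_num) (NeZero.ne M)⟩
  show SS5_Θ M θ (SS5_c M θ) ((SS5_Θ M θ (SS5_c M θ) ^ i.val) (1, ((0 : ZMod 3), b)))
    = (SS5_Θ M θ (SS5_c M θ) ^ (i + 1).val) (1, ((0 : ZMod 3), b))
  rw [SS5_val (3 * M) _ ?_ i, pow_succ', Perm.mul_apply]
  rw [← map_pow, SS5_pow, map_one]

theorem SS5_Fu [NeZero M] (hu : ∀ x b, θ (swap 0 1) (x, b) = (x, !b)) (i : ZMod (3 * M))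
    (b : Bool) :
    SS5_Θ M θ (SS5_u M θ) (SS5_F M θ (Sum.inl (i, b))) = SS5_F M θ (Sum.inl (i, !b)) := by
  show SS5_Θ M θ (SS5_u M θ) ((SS5_Θ M θ (SS5_c M θ) ^ i.val) (1, ((0 : ZMod 3), b)))
    = (SS5_Θ M θ (SS5_c M θ) ^ i.val) (1, ((0 : ZMod 3), !b))
  have hcom : SS5_Θ M θ (SS5_u M θ) * SS5_Θ M θ (SS5_c M θ) ^ i.val
      = SS5_Θ M θ (SS5_c M θ) ^ i.val * SS5_Θ M θ (SS5_u M θ) := by
    rw [← map_pow, ← map_mul, ← map_mul]
    congr 1
    exact (Commute.pow_left (show Commute (SS5_c M θ) (SS5_u M θ) from SS5_cu M θ hu) i.val).symm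
  rw [← Perm.mul_apply, hcom, Perm.mul_apply, SS5_Θu M θ hu, inv_one]

/-- `B` is the normal closure of `u` -/
theorem SS5_ncl (hfix : ∀ ω, ∃ h : Perm (Fin 5), Perm.sign h = -1 ∧ θ h ω = ω) (hM : Odd M) :
    Subgroup.normalClosure {SS5_u M θ} = ⊤ := by
  have h1 : ∀ h : Perm (Fin 5), (inr h : SS5_B M θ) ∈ Subgroup.normalClosure {SS5_u M θ} := by
    intro h
    have h2 : (Subgroup.normalClosure {SS5_u M θ}).comap (inr : Perm (Fin 5) →* SS5_B M θ) = ⊤ := by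
      rw [eq_top_iff, ← Perm.closure_isSwap, Subgroup.closure_le]
      rintro g ⟨i, j, hij, rfl⟩
      have hconj : IsConj (swap (0 : Fin 5) 1) (swap i j) :=
        Perm.isConj_swap (by decide) hij
      obtain ⟨d, hd⟩ := isConj_iff.mp hconj
      show (inr (swap i j) : SS5_B M θ) ∈ Subgroup.normalClosure {SS5_u M θ}
      rw [← hd, map_mul, map_mul, map_inv]
      exact Subgroup.normalClosure_normal.conj_mem _
        (Subgroup.subset_normalClosure (Set.mem_singleton _)) _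
    have h3 : h ∈ (Subgroup.normalClosure {SS5_u M θ}).comap
        (inr : Perm (Fin 5) →* SS5_B M θ) := by
      rw [h2]
      exact Subgroup.mem_top h
    exact h3
  have h2 : ∀ v : SS5_V M, (inl v : SS5_B M θ) ∈ Subgroup.normalClosure {SS5_u M θ} := by
    refine SS5_com M θ hfix hM _ fun v h => ?_
    rw [commutatorElement_def]
    refine Subgroup.mul_mem _ ?_ (Subgroup.inv_mem _ (h1 h))
    exact Subgroup.normalClosure_normal.conj_mem _ (h1 h) _
  rw [eq_top_iff]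
  intro b _
  rw [← inl_left_mul_inr_right b]
  exact Subgroup.mul_mem _ (h2 _) (h1 _)

end

theorem prf_SS5 (hSym : SSym) (hS5a : SS5a) : SS5 := by
  intro k _ _ _ M _ hM
  obtain ⟨θ, hu, hc, hfix⟩ := hS5a
  have : Fact (Nat.Prime 2) := ⟨Nat.prime_two⟩
  have hfV : Finite (SS5_V M) := by
    have : Finite (SS5_A M) := inferInstanceAs (Finite (ZMod M))
    infer_instance
  have hfB : Finite (SS5_B M θ) := Finite.of_equiv _ SemidirectProduct.equivProd.symm
  have hco : Odd (orderOf (SS5_c M θ)) :=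
    Odd.of_dvd_nat (Odd.mul (by decide) hM) (orderOf_dvd_of_pow_eq_one (SS5_pow M θ))
  have hncl := SS5_ncl M θ hfix hM
  have hcu := SS5_cu M θ hu
  -- the data
  have hD : GT.Dat 2 (Subgroup.zpowers (SS5_u M θ)) (SS5_c M θ) := by
    refine ⟨?_, ?_, ?_, ?_⟩
    · rintro ⟨y, hy⟩
      obtain ⟨n, rfl⟩ := Subgroup.mem_zpowers_iff.1 hy
      refine ⟨1, Subtype.ext ?_⟩
      show (SS5_u M θ ^ n) ^ 2 ^ 1 = 1
      rw [← zpow_natCast, ← zpow_mul, mul_comm, zpow_mul, zpow_natCast, pow_one, pow_two, SS5_uu,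
        one_zpow]
    · intro y hy
      obtain ⟨n, rfl⟩ := Subgroup.mem_zpowers_iff.1 hy
      have h1 : SS5_c M θ * SS5_u M θ ^ n = SS5_u M θ ^ n * SS5_c M θ :=
        (Commute.zpow_right (show Commute (SS5_c M θ) (SS5_u M θ) from hcu) n)
      rw [h1, mul_inv_cancel_right]
      exact hy
    · intro h
      exact (Nat.not_even_iff_odd.mpr hco) (even_iff_two_dvd.mpr h)
    · rw [eq_top_iff, ← hncl]
      exact Subgroup.normalClosure_mono (Set.singleton_subset_iff.mpr (Subgroup.mem_zpowers _))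
  -- the normal subgroup
  have hN : (inl : SS5_V M →* SS5_B M θ).range.Normal := by
    rw [range_inl_eq_ker_rightHom]
    infer_instance
  have hNs : Group.IsSolvable (inl : SS5_V M →* SS5_B M θ).range := by
    refine Group.isSolvable_of_comm ?_
    rintro ⟨_, v, rfl⟩ ⟨_, w, rfl⟩
    refine Subtype.ext ?_
    show (inl v : SS5_B M θ) * inl w = inl w * inl v
    rw [← map_mul, ← map_mul, mul_comm]
  have hNC : (inl : SS5_V M →* SS5_B M θ).range ≤
      ⁅(inl : SS5_V M →* SS5_B M θ).range, (⊤ : Subgroup (SS5_B M θ))⁆ := by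
    rintro _ ⟨v, rfl⟩
    refine SS5_com M θ hfix hM _ (fun w h => ?_) v
    exact Subgroup.commutator_mem_commutator ⟨w, rfl⟩ (Subgroup.mem_top _)
  have hCop : GT.CopC 2 (inl : SS5_V M →* SS5_B M θ).range (SS5_c M θ) := by
    intro r hr _ hd
    rw [Subgroup.relIndex_eq_one.mpr hNC] at hd
    exact absurd (Nat.dvd_one.mp hd) hr.ne_one
  have hT := GT.all_GAx 2 _ (MP7b0bad.SV.all_VRAx k 2)
  -- the quotient
  have hS : Rel k (Perm (Fin 5)) (Subgroup.zpowers (swap 0 1) ⊔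
      Subgroup.zpowers (swap 2 3 * swap 3 4)) := by
    refine hSym k (Fin 5) 0 1 (swap 2 3 * swap 3 4) (by decide) (by decide) (by decide) ?_
    refine Odd.of_dvd_nat (show Odd 3 by decide) (orderOf_dvd_of_pow_eq_one ?_)
    decide
  let q : Perm (Fin 5) →* SS5_B M θ ⧸ (inl : SS5_V M →* SS5_B M θ).range :=
    (QuotientGroup.mk' _).comp inr
  have hmk : ∀ b : SS5_B M θ, QuotientGroup.mk' (inl : SS5_V M →* SS5_B M θ).range b = q b.right := by
    intro b
    show _ = QuotientGroup.mk' _ (inr b.right)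
    have h1 : QuotientGroup.mk' (inl : SS5_V M →* SS5_B M θ).range (inl b.left) = 1 :=
      (QuotientGroup.eq_one_iff _).mpr ⟨_, rfl⟩
    conv_lhs => rw [← inl_left_mul_inr_right b, map_mul, h1, one_mul]
  have hq : Function.Surjective q := by
    intro y
    obtain ⟨b, rfl⟩ := QuotientGroup.mk'_surjective _ y
    exact ⟨b.right, (hmk b).symm⟩
  have hR : Rel k (SS5_B M θ) (Subgroup.zpowers (SS5_u M θ) ⊔ Subgroup.zpowers (SS5_c M θ)) := by
    refine GT.all_GMain 2 _ hT (SS5_B M θ) (Subgroup.zpowers (SS5_u M θ)) _ (SS5_c M θ) hD hNs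
      hCop ?_
    have h := hT.quo (Perm (Fin 5)) _ q _ hq hS
    have he : (Subgroup.zpowers (swap (0 : Fin 5) 1) ⊔
        Subgroup.zpowers (swap 2 3 * swap 3 4)).map q
        = (GT.Pc (Subgroup.zpowers (SS5_u M θ)) (SS5_c M θ)).map
          (QuotientGroup.mk' (inl : SS5_V M →* SS5_B M θ).range) := by
      rw [GT.Pc, Subgroup.map_sup, Subgroup.map_sup, MonoidHom.map_zpowers, MonoidHom.map_zpowers,
        MonoidHom.map_zpowers, MonoidHom.map_zpowers, hmk, hmk]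
      rfl
    rw [← he]
    exact h
  -- the label
  let e : Om (ZMod (3 * M)) Empty ≃ SS5_A M × (ZMod 3 × Bool) :=
    Equiv.ofBijective (SS5_F M θ) (SS5_bij M θ hc)
  refine ⟨SS5_B M θ, inferInstance, hfB, SS5_u M θ, SS5_c M θ,
    (e.symm.permCongrHom : _ →* Perm (Om (ZMod (3 * M)) Empty)).comp (SS5_Θ M θ),
    Perm.sign.comp rightHom, hncl, hco, hR, ?_, ?_, ?_⟩
  · ext y : 1
    rcases y with ⟨i, b⟩ | y
    · show e.symm (SS5_Θ M θ (SS5_u M θ) (e (Sum.inl (i, b)))) = Sum.inl (i, !b)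
      rw [Equiv.symm_apply_eq]
      exact SS5_Fu M θ hu i b
    · exact y.elim
  · ext y : 1
    rcases y with ⟨i, b⟩ | y
    · show e.symm (SS5_Θ M θ (SS5_c M θ) (e (Sum.inl (i, b)))) = Sum.inl (i + 1, b)
      rw [Equiv.symm_apply_eq]
      exact SS5_Fc M θ i b
    · exact y.elim
  · show Perm.sign (swap (0 : Fin 5) 1) = -1
    exact Perm.sign_swap (by decide)

end MP7b0bad.S2
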