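import Pool.Agent.Work.MP_7b0bad_ag.S2.Stmts

set_option autoImplicit false

/-!
# Block S2, item SS5a: the action of `S_5` on `6` points

The six points are the six affine structures over the field with five elements on `Fin 5` (midpoint
functions); `SS5a_M w` is the midpoint function of the point `w`.
-/

namespace MP7b0bad.S2

open Equiv

/-- the midpoint function of the standard structure -/
def SS5a_M0 (a b : Fin 5) : Fin 5 := 3 * (a + b)

/-- `c^x u^b` -/
def SS5a_g (w : ZMod 3 × Bool) : Perm (Fin 5) :=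
  (swap 2 3 * swap 3 4) ^ w.1.val * (if w.2 then swap 0 1 else 1)

/-- the midpoint function of the point `w` -/
def SS5a_M (w : ZMod 3 × Bool) (a b : Fin 5) : Fin 5 :=
  SS5a_g w (SS5a_M0 ((SS5a_g w)⁻¹ a) ((SS5a_g w)⁻¹ b))

theorem SS5a_inj : ∀ w w' : ZMod 3 × Bool, (∀ a b, SS5a_M w a b = SS5a_M w' a b) → w = w' := by
  decide +kernel

theorem SS5a_gen : ∀ i : Fin 4, ∀ w : ZMod 3 × Bool, ∃ w' : ZMod 3 × Bool, ∀ a b : Fin 5,
    SS5a_M w' (swap i.castSucc i.succ a) (swap i.castSucc i.succ b) =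
      swap i.castSucc i.succ (SS5a_M w a b) := by
  decide +kernel

theorem SS5a_all (g : Perm (Fin 5)) : ∀ w : ZMod 3 × Bool, ∃ w' : ZMod 3 × Bool, ∀ a b : Fin 5,
    SS5a_M w' (g a) (g b) = g (SS5a_M w a b) := by
  have h : g ∈ Submonoid.closure (Set.range fun i : Fin 4 => swap i.castSucc i.succ) := by
    rw [Perm.mclosure_swap_castSucc_succ 4]
    exact Submonoid.mem_top g
  induction h using Submonoid.closure_induction with
  | mem x hx =>
    obtain ⟨i, rfl⟩ := hx
    exact SS5a_gen i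
  | one => exact fun w => ⟨w, fun a b => rfl⟩
  | mul x y _ _ hx hy =>
    intro w
    obtain ⟨w1, h1⟩ := hy w
    obtain ⟨w2, h2⟩ := hx w1
    refine ⟨w2, fun a b => ?_⟩
    rw [Perm.mul_apply, Perm.mul_apply, Perm.mul_apply, h2, h1]

theorem SS5a_uniq (g : Perm (Fin 5)) (w v v' : ZMod 3 × Bool)
    (h : ∀ a b : Fin 5, SS5a_M v (g a) (g b) = g (SS5a_M w a b))
    (h' : ∀ a b : Fin 5, SS5a_M v' (g a) (g b) = g (SS5a_M w a b)) : v = v' := by
  refine SS5a_inj v v' fun a b => ?_
  have h1 := h (g⁻¹ a) (g⁻¹ b)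
  have h2 := h' (g⁻¹ a) (g⁻¹ b)
  have e : ∀ c : Fin 5, g (g⁻¹ c) = c := fun c => g.apply_symm_apply c
  rw [e, e] at h1 h2
  rw [h1, h2]

theorem SS5a_u : ∀ (x : ZMod 3) (b : Bool), ∀ a a' : Fin 5,
    SS5a_M (x, !b) (swap 0 1 a) (swap 0 1 a') = swap 0 1 (SS5a_M (x, b) a a') := by
  decide +kernel

theorem SS5a_c : ∀ (x : ZMod 3) (b : Bool), ∀ a a' : Fin 5,
    SS5a_M (x + 1, b) ((swap 2 3 * swap 3 4 : Perm (Fin 5)) a)
      ((swap 2 3 * swap 3 4 : Perm (Fin 5)) a') =
      (swap 2 3 * swap 3 4 : Perm (Fin 5)) (SS5a_M (x, b) a a') := by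
  decide +kernel

/-- multiplication by `2` -/
def SS5a_h0 : Perm (Fin 5) := swap 1 2 * swap 2 4 * swap 4 3

theorem SS5a_h : ∀ w : ZMod 3 × Bool, ∀ a a' : Fin 5,
    SS5a_M w ((SS5a_g w * SS5a_h0 * (SS5a_g w)⁻¹) a) ((SS5a_g w * SS5a_h0 * (SS5a_g w)⁻¹) a') =
      (SS5a_g w * SS5a_h0 * (SS5a_g w)⁻¹) (SS5a_M w a a') := by
  decide +kernel

theorem prf_SS5a : SS5a := by
  choose f hf using SS5a_all
  let θ : Perm (Fin 5) →* Function.End (ZMod 3 × Bool) :=
    { toFun := f
      map_one' := by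
        funext w
        exact SS5a_uniq 1 w _ _ (hf 1 w) (fun a b => rfl)
      map_mul' := fun g h => by
        funext w
        refine SS5a_uniq (g * h) w _ _ (hf (g * h) w) (fun a b => ?_)
        change SS5a_M (f g (f h w)) _ _ = _
        rw [Perm.mul_apply, Perm.mul_apply, Perm.mul_apply, hf, hf] }
  let Θ : Perm (Fin 5) →* Perm (ZMod 3 × Bool) :=
    { toFun := fun g =>
        { toFun := f g
          invFun := f g⁻¹
          left_inv := fun w => by
            have h := congrArg (fun e => e w) (map_mul θ g⁻¹ g)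
            rw [inv_mul_cancel, map_one] at h
            exact h.symm
          right_inv := fun w => by
            have h := congrArg (fun e => e w) (map_mul θ g g⁻¹)
            rw [mul_inv_cancel, map_one] at h
            exact h.symm }
      map_one' := by
        ext1 w
        exact congrArg (fun e => e w) (map_one θ)
      map_mul' := fun g h => by
        ext1 w
        exact congrArg (fun e => e w) (map_mul θ g h) }
  refine ⟨Θ, fun x b => ?_, fun x b => ?_, fun i => ?_⟩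
  · exact SS5a_uniq _ (x, b) _ _ (hf _ _) (SS5a_u x b)
  · exact SS5a_uniq _ (x, b) _ _ (hf _ _) (SS5a_c x b)
  · refine ⟨SS5a_g i * SS5a_h0 * (SS5a_g i)⁻¹, ?_, ?_⟩
    · rw [map_mul, map_mul, map_inv, mul_inv_cancel_comm]
      unfold SS5a_h0
      decide +kernel
    · exact SS5a_uniq _ i _ _ (hf _ _) (SS5a_h i)

end MP7b0bad.S2
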