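import Pool.Agent.Work.MP_7b0bad_ag.S2.Stmts
import Pool.Agent.Work.MP_7b0bad_ag.Bd.B10

set_option autoImplicit false

/-!
# Block S2: the symmetric group
-/

namespace MP7b0bad.S2

open Equiv

/-- elements of the group generated by two commuting elements -/
theorem SSym_mem {G : Type} [Group G] {s c g : G} (h : Commute s c)
    (hg : g ∈ Subgroup.zpowers s ⊔ Subgroup.zpowers c) : ∃ i j : ℤ, g = s ^ i * c ^ j := by
  let D : Subgroup G :=
    { carrier := {g | ∃ i j : ℤ, g = s ^ i * c ^ j}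
      one_mem' := ⟨0, 0, by simp⟩
      mul_mem' := by
        rintro x y ⟨i, j, rfl⟩ ⟨i', j', rfl⟩
        refine ⟨i + i', j + j', ?_⟩
        have h1 : c ^ j * s ^ i' = s ^ i' * c ^ j := (h.symm.zpow_zpow j i').eq
        rw [zpow_add, zpow_add, mul_assoc, ← mul_assoc (c ^ j), h1]
        simp only [mul_assoc]
      inv_mem' := by
        rintro x ⟨i, j, rfl⟩
        refine ⟨-i, -j, ?_⟩
        rw [mul_inv_rev, zpow_neg, zpow_neg]
        exact ((h.zpow_zpow i j).inv_inv).eq.symm }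
  have h1 : Subgroup.zpowers s ⊔ Subgroup.zpowers c ≤ D := by
    refine sup_le ?_ ?_
    · rw [Subgroup.zpowers_le]
      exact ⟨1, 0, by simp⟩
    · rw [Subgroup.zpowers_le]
      exact ⟨0, 1, by simp⟩
  exact h1 hg

theorem SSym_normal {G : Type} [Group G] {s c : G} (h : Commute s c) :
    ((Subgroup.zpowers s).subgroupOf (Subgroup.zpowers s ⊔ Subgroup.zpowers c)).Normal := by
  refine ⟨fun x hx g => ?_⟩
  rw [Subgroup.mem_subgroupOf] at hx ⊢
  obtain ⟨l, hl⟩ := hx
  obtain ⟨i, j, hij⟩ := SSym_mem h g.2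
  have h1 : Commute (g : G) (x : G) := by
    rw [hij]
    have h2 : s ^ l = (x : G) := hl
    rw [← h2]
    exact ((Commute.refl s).zpow_zpow i l).mul_left (h.symm.zpow_zpow j l)
  have h3 : ((g * x * g⁻¹ : (Subgroup.zpowers s ⊔ Subgroup.zpowers c : Subgroup G)) : G) = x := by
    change (g : G) * x * (g : G)⁻¹ = x
    rw [h1.eq, mul_inv_cancel_right]
  rw [h3]
  exact ⟨l, hl⟩

theorem SSym_index {G : Type} [Group G] [Finite G] {s c : G} (h : Commute s c)
    (hc : Odd (orderOf c)) : Nat.Coprime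
      ((Subgroup.zpowers s).subgroupOf (Subgroup.zpowers s ⊔ Subgroup.zpowers c)).index 2 := by
  have hn := SSym_normal h
  rw [Nat.coprime_comm, Nat.Prime.coprime_iff_not_dvd Nat.prime_two]
  intro hdvd
  have : Fact (Nat.Prime 2) := ⟨Nat.prime_two⟩
  obtain ⟨x, hx⟩ := exists_prime_orderOf_dvd_card'
    (G := (Subgroup.zpowers s ⊔ Subgroup.zpowers c : Subgroup G) ⧸
      (Subgroup.zpowers s).subgroupOf (Subgroup.zpowers s ⊔ Subgroup.zpowers c)) 2 hdvd
  obtain ⟨g, rfl⟩ := QuotientGroup.mk_surjective x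
  obtain ⟨i, j, hij⟩ := SSym_mem h g.2
  have h1 : ((g ^ orderOf c : (Subgroup.zpowers s ⊔ Subgroup.zpowers c : Subgroup G)) : G) =
      s ^ (i * orderOf c) := by
    change (g : G) ^ orderOf c = _
    rw [hij, (h.zpow_zpow i j).mul_pow, ← zpow_natCast, ← zpow_natCast, ← zpow_mul, ← zpow_mul,
      mul_comm j, zpow_mul c, zpow_natCast c, pow_orderOf_eq_one, one_zpow, mul_one]
  have h2 : (QuotientGroup.mk g : (Subgroup.zpowers s ⊔ Subgroup.zpowers c : Subgroup G) ⧸
      (Subgroup.zpowers s).subgroupOf (Subgroup.zpowers s ⊔ Subgroup.zpowers c)) ^ orderOf c = 1 := by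
    rw [← QuotientGroup.mk_pow, QuotientGroup.eq_one_iff, Subgroup.mem_subgroupOf, h1]
    exact ⟨_, rfl⟩
  have h3 := orderOf_dvd_of_pow_eq_one h2
  rw [hx] at h3
  exact hc.not_two_dvd_nat h3

theorem prf_SSym (hT0 : T0) (hMain : SnT.SMain) : SSym := by
  intro k _ _ _ T _ _ a b c hab ha hb hc
  let e : T ≃ Fin (Fintype.card T) := Fintype.equivFin T
  let φ : Perm T ≃* Perm (Fin (Fintype.card T)) := e.permCongrHom
  have hs : φ (swap a b) = swap (e a) (e b) := symm_trans_swap_trans a b e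
  have hcomm : Commute (swap a b) c := by
    have h1 := mul_swap_eq_swap_mul c a b
    rw [ha, hb] at h1
    exact h1.symm
  have hcomm' : Commute (swap (e a) (e b)) (φ c) := by
    rw [← hs]
    exact hcomm.map φ
  have hodd : Odd (orderOf (φ c)) := by
    rw [MulEquiv.orderOf_eq]
    exact hc
  have h1 : Occurs k (Perm (Fin (Fintype.card T)))
      (Subgroup.zpowers (swap (e a) (e b)) ⊔ Subgroup.zpowers (φ c)) :=
    hMain k (Fintype.card T) _ (Subgroup.zpowers (swap (e a) (e b))) le_sup_left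
      (SSym_normal hcomm') ⟨e a, e b, fun h => hab (e.injective h), rfl⟩
      (SSym_index hcomm' hodd) ⟨φ c, rfl⟩
  have h2 := (hT0 k (Perm (Fin (Fintype.card T))) _).2 h1
  have h3 := prf_QIso k _ _ φ.symm _ h2
  have h4 : (Subgroup.zpowers (swap (e a) (e b)) ⊔ Subgroup.zpowers (φ c)).map
      φ.symm.toMonoidHom = Subgroup.zpowers (swap a b) ⊔ Subgroup.zpowers c := by
    rw [Subgroup.map_sup, MonoidHom.map_zpowers, MonoidHom.map_zpowers]
    have h5 : φ.symm.toMonoidHom (swap (e a) (e b)) = swap a b := by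
      change φ.symm (swap (e a) (e b)) = swap a b
      rw [← hs, MulEquiv.symm_apply_apply]
    have h6 : φ.symm.toMonoidHom (φ c) = c := φ.symm_apply_apply c
    rw [h5, h6]
  rw [h4] at h3
  exact h3

end MP7b0bad.S2
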