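import Pool.Agent.Work.MP_7b0bad_ag.S2.Stmts

set_option autoImplicit false

/-!
# Block S2: the wreath product of a group of odd order with a group of order two
-/

namespace MP7b0bad.S2

open Equiv
open scoped commutatorElement

/-- the homomorphism from the group of order two given by an involution -/
def SWr_c2 {G : Type} [Group G] (g : G) (hg : g * g = 1) : ℤˣ →* G where
  toFun e := if e = 1 then 1 else g
  map_one' := if_pos rfl
  map_mul' := by
    intro a b
    have h1 : (-1 : ℤˣ) ≠ 1 := by decide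
    rcases Int.units_eq_one_or a with rfl | rfl
    · rw [one_mul, if_pos rfl, one_mul]
    · rcases Int.units_eq_one_or b with rfl | rfl
      · rw [mul_one, if_pos rfl, mul_one]
      · rw [if_neg h1, if_pos (by decide), hg]

theorem SWr_c2_neg {G : Type} [Group G] (g : G) (hg : g * g = 1) : SWr_c2 g hg (-1) = g := by
  change (if (-1 : ℤˣ) = 1 then (1 : G) else g) = g
  exact if_neg (by decide)

/-- the exchange of the factors -/
def SWr_sw (K : Type) [Group K] : MulAut (K × K) := MulEquiv.prodComm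

theorem SWr_sw_sq (K : Type) [Group K] : SWr_sw K * SWr_sw K = 1 := by
  ext x <;> rfl

/-- the wreath product -/
abbrev SWr_B (K : Type) [Group K] : Type :=
  SemidirectProduct (K × K) ℤˣ (SWr_c2 (SWr_sw K) (SWr_sw_sq K))

instance SWr_fin (K : Type) [Group K] [Finite K] : Finite (SWr_B K) :=
  Finite.of_equiv _ (SemidirectProduct.equivProd (φ := SWr_c2 (SWr_sw K) (SWr_sw_sq K))).symm

theorem SWr_solv (K : Type) [Group K] (h : Group.IsSolvable K) : Group.IsSolvable (SWr_B K) := by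
  haveI := h
  refine Group.isSolvable_of_ker_le_range
    (SemidirectProduct.inl (φ := SWr_c2 (SWr_sw K) (SWr_sw_sq K)))
    (SemidirectProduct.rightHom (φ := SWr_c2 (SWr_sw K) (SWr_sw_sq K))) ?_
  rw [SemidirectProduct.range_inl_eq_ker_rightHom]

/-- the involution -/
def SWr_u (K : Type) [Group K] : SWr_B K := SemidirectProduct.inr (-1)

/-- the elements of the base group -/
def SWr_p {K : Type} [Group K] (x y : K) : SWr_B K := SemidirectProduct.inl (x, y)

theorem SWr_p_mul {K : Type} [Group K] (x y x' y' : K) :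
    SWr_p x y * SWr_p x' y' = SWr_p (x * x') (y * y') := by
  unfold SWr_p
  rw [← map_mul]
  rfl

theorem SWr_u_sq (K : Type) [Group K] : SWr_u K * SWr_u K = 1 := by
  unfold SWr_u
  rw [← map_mul]
  have : (-1 : ℤˣ) * -1 = 1 := by decide
  rw [this, map_one]

theorem SWr_conj {K : Type} [Group K] (x y : K) : SWr_u K * SWr_p x y * (SWr_u K)⁻¹ = SWr_p y x := by
  have h := SemidirectProduct.inl_aut (φ := SWr_c2 (SWr_sw K) (SWr_sw_sq K)) (-1 : ℤˣ) (x, y)
  rw [SWr_c2_neg] at h
  have h2 : (SemidirectProduct.inr (-1 : ℤˣ)⁻¹ : SWr_B K) = (SWr_u K)⁻¹ := by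
    rw [map_inv]
    rfl
  rw [h2] at h
  exact h.symm

theorem SWr_comm {K : Type} [Group K] (x : K) : SWr_u K * SWr_p x x = SWr_p x x * SWr_u K := by
  have h := SWr_conj x x
  rwa [mul_inv_eq_iff_eq_mul] at h

/-- modulo a normal subgroup containing the involution -/
theorem SWr_quo {K : Type} [Group K] {Q : Type} [Group Q] (q : SWr_B K →* Q)
    (hq : q (SWr_u K) = 1) :
    (∀ x y : K, q (SWr_p x y) = q (SWr_p (x * y) 1)) ∧
    (∀ x y : K, q (SWr_p x 1) * q (SWr_p y 1) = q (SWr_p y 1) * q (SWr_p x 1)) := by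
  have h1 : ∀ x y : K, q (SWr_p x y) = q (SWr_p y x) := by
    intro x y
    rw [← SWr_conj x y, map_mul, map_mul, map_inv, hq, one_mul, inv_one, mul_one]
  have h2 : ∀ x y : K, q (SWr_p x y) = q (SWr_p (x * y) 1) := by
    intro x y
    have e1 : SWr_p x y = SWr_p x 1 * SWr_p 1 y := by
      rw [SWr_p_mul, mul_one, one_mul]
    have e2 : SWr_p (x * y) 1 = SWr_p x 1 * SWr_p y 1 := by
      rw [SWr_p_mul, mul_one]
    rw [e1, e2, map_mul, map_mul, h1 1 y]
  refine ⟨h2, fun x y => ?_⟩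
  have e1 : SWr_p x 1 * SWr_p 1 y = SWr_p 1 y * SWr_p x (1 : K) := by
    rw [SWr_p_mul, SWr_p_mul, mul_one, one_mul, mul_one, one_mul]
  have e2 := congrArg q e1
  rwa [map_mul, map_mul, h1 1 y] at e2

/-- the action on `A × Bool` -/
def SWr_blk {A : Type} : (Perm A × Perm A) →* Perm (A × Bool) where
  toFun p :=
    { toFun := fun z => (cond z.2 (p.2 z.1) (p.1 z.1), z.2)
      invFun := fun z => (cond z.2 (p.2⁻¹ z.1) (p.1⁻¹ z.1), z.2)
      left_inv := by
        rintro ⟨a, b⟩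
        cases b
        · exact Prod.ext (p.1.symm_apply_apply a) rfl
        · exact Prod.ext (p.2.symm_apply_apply a) rfl
      right_inv := by
        rintro ⟨a, b⟩
        cases b
        · exact Prod.ext (p.1.apply_symm_apply a) rfl
        · exact Prod.ext (p.2.apply_symm_apply a) rfl }
  map_one' := by
    apply Equiv.ext
    rintro ⟨a, b⟩
    cases b <;> rfl
  map_mul' p q := by
    apply Equiv.ext
    rintro ⟨a, b⟩
    cases b <;> rfl

/-- the action of the base group on the points -/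
def SWr_f1 {A : Type} (K : Subgroup (Perm A)) : (K × K) →* Perm (Om A Empty) :=
  ((Perm.sumCongrHom (A × Bool) Empty).comp (MonoidHom.inl (Perm (A × Bool)) (Perm Empty))).comp
    (SWr_blk.comp (MonoidHom.prodMap K.subtype K.subtype))

theorem SWr_f1_inl {A : Type} (K : Subgroup (Perm A)) (p : K × K) (z : A × Bool) :
    SWr_f1 K p (Sum.inl z) = Sum.inl (cond z.2 ((p.2 : Perm A) z.1) ((p.1 : Perm A) z.1), z.2) := rfl

theorem SWr_uu_inl (A : Type) (z : A × Bool) : uu A Empty (Sum.inl z) = Sum.inl (z.1, !z.2) := rfl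

theorem SWr_uu_sq (A : Type) : uu A Empty * uu A Empty = 1 := by
  apply Equiv.ext
  rintro (⟨a, b⟩ | x)
  · change uu A Empty (uu A Empty (Sum.inl (a, b))) = Sum.inl (a, b)
    rw [SWr_uu_inl, SWr_uu_inl]
    cases b <;> rfl
  · exact x.elim

theorem SWr_compat {A : Type} (K : Subgroup (Perm A)) (g : ℤˣ) :
    (SWr_f1 K).comp (SWr_c2 (SWr_sw K) (SWr_sw_sq K) g).toMonoidHom =
      (MulAut.conj (SWr_c2 (uu A Empty) (SWr_uu_sq A) g)).toMonoidHom.comp (SWr_f1 K) := by
  rcases Int.units_eq_one_or g with rfl | rfl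
  · rw [map_one, map_one, map_one]
    rfl
  · rw [SWr_c2_neg, SWr_c2_neg]
    apply MonoidHom.ext
    intro p
    change SWr_f1 K (p.2, p.1) = uu A Empty * SWr_f1 K p * (uu A Empty)⁻¹
    rw [eq_mul_inv_iff_mul_eq]
    apply Equiv.ext
    rintro (⟨a, b⟩ | x)
    · change SWr_f1 K (p.2, p.1) (uu A Empty (Sum.inl (a, b))) =
        uu A Empty (SWr_f1 K p (Sum.inl (a, b)))
      rw [SWr_uu_inl, SWr_f1_inl, SWr_f1_inl, SWr_uu_inl]
      cases b <;> rfl
    · exact x.elim

/-- the action of the wreath product -/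
def SWr_th {A : Type} (K : Subgroup (Perm A)) : SWr_B K →* Perm (Om A Empty) :=
  SemidirectProduct.lift (SWr_f1 K) (SWr_c2 (uu A Empty) (SWr_uu_sq A)) (SWr_compat K)

theorem SWr_th_u {A : Type} (K : Subgroup (Perm A)) : SWr_th K (SWr_u K) = uu A Empty := by
  unfold SWr_th SWr_u
  rw [SemidirectProduct.lift_inr, SWr_c2_neg]

theorem SWr_th_c {A : Type} (K : Subgroup (Perm A)) (t : K) :
    SWr_th K (SWr_p t t) = cp (t : Perm A) (1 : Perm Empty) := by
  unfold SWr_th SWr_p
  rw [SemidirectProduct.lift_inl]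
  apply Equiv.ext
  rintro (⟨a, b⟩ | x)
  · rw [SWr_f1_inl]
    cases b <;> rfl
  · exact x.elim

theorem SWr_pow {K : Type} [Group K] (x : K) (m : ℕ) : (SWr_p x x) ^ m = SWr_p (x ^ m) (x ^ m) := by
  unfold SWr_p
  rw [← map_pow]
  rfl

theorem prf_SWr (hSolv : MT.MSolv) : SWr := by
  intro k _ _ _ A _ K hK hodd t ht
  haveI : Fact (Nat.Prime 2) := ⟨Nat.prime_two⟩
  -- the group
  let B := SWr_B K
  let u : B := SWr_u K
  let H : Subgroup B := Subgroup.normalClosure {u}
  haveI hHn : H.Normal := Subgroup.normalClosure_normal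
  let q : B →* B ⧸ H := QuotientGroup.mk' H
  have hker : ∀ b : B, q b = 1 ↔ b ∈ H := fun b => QuotientGroup.eq_one_iff b
  have huH : u ∈ H := Subgroup.subset_normalClosure rfl
  have hqu : q u = 1 := (hker u).2 huH
  obtain ⟨hq1, hq2⟩ := SWr_quo q hqu
  -- `t` is in the commutator subgroup
  have htK : ∃ h : t ∈ K, q (SWr_p (⟨t, h⟩ : K) 1) = 1 := by
    let f : K →* B ⧸ H := q.comp
      ((SemidirectProduct.inl (φ := SWr_c2 (SWr_sw K) (SWr_sw_sq K))).comp (MonoidHom.inl K K))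
    have hf : ∀ x, f x = q (SWr_p x 1) := fun x => rfl
    have hle : ⁅K, K⁆ ≤ f.ker.map K.subtype := by
      rw [Subgroup.commutator_le]
      intro a ha b hb
      refine ⟨⁅(⟨a, ha⟩ : K), (⟨b, hb⟩ : K)⁆, ?_, rfl⟩
      change f _ = 1
      rw [map_commutatorElement, commutatorElement_eq_one_iff_mul_comm, hf, hf]
      exact hq2 _ _
    obtain ⟨x, hx, hxt⟩ := hle ht
    have hxt' : (x : Perm A) = t := hxt
    subst hxt'
    exact ⟨x.2, hx⟩
  obtain ⟨htK, hqt⟩ := htK
  let c : B := SWr_p (⟨t, htK⟩ : K) ⟨t, htK⟩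
  have hcH : c ∈ H := by
    rw [← hker]
    change q (SWr_p _ _) = 1
    rw [hq1]
    have e1 : SWr_p ((⟨t, htK⟩ : K) * ⟨t, htK⟩) 1 = SWr_p (⟨t, htK⟩ : K) 1 * SWr_p ⟨t, htK⟩ 1 := by
      rw [SWr_p_mul, mul_one]
    rw [e1, map_mul, hqt, one_mul]
  have hcu : c * u = u * c := (SWr_comm (⟨t, htK⟩ : K)).symm
  -- the order of `c`
  have hcard : c ^ Nat.card K = 1 := by
    change (SWr_p _ _) ^ _ = 1
    rw [SWr_pow, pow_card_eq_one']
    exact map_one _
  have hco : Odd (orderOf c) := Odd.of_dvd_nat hodd (orderOf_dvd_of_pow_eq_one hcard)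
  -- every element is the product of an element of `H` and an element which commutes with `u`
  have hBH : ∀ b : B, ∃ z : B, z * u = u * z ∧ b * z⁻¹ ∈ H := by
    intro b
    obtain ⟨r, hr⟩ := hodd
    have hsq : ∀ x : K, x ^ (r + 1) * x ^ (r + 1) = x := by
      intro x
      have h1 : x ^ Nat.card K = 1 := pow_card_eq_one'
      rw [← pow_add]
      have h2 : r + 1 + (r + 1) = Nat.card K + 1 := by omega
      rw [h2, pow_succ, h1, one_mul]
    set x : K := b.left.1 with hx
    set y : K := b.left.2 with hy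
    refine ⟨SWr_p ((x * y) ^ (r + 1)) ((x * y) ^ (r + 1)), (SWr_comm _).symm, ?_⟩
    rw [← hker, map_mul, map_inv, mul_inv_eq_one, hq1, hsq]
    have h1 : b = SWr_p x y * SemidirectProduct.inr b.right :=
      (SemidirectProduct.inl_left_mul_inr_right b).symm
    have h2 : q (SemidirectProduct.inr b.right) = 1 := by
      rcases Int.units_eq_one_or b.right with h | h
      · rw [h, map_one, map_one]
      · rw [h]
        exact hqu
    rw [h1, map_mul, h2, mul_one, hq1]
  -- the conjugates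
  have hcl : ∀ b : B, ∃ h ∈ H, b * u * b⁻¹ = h * u * h⁻¹ := by
    intro b
    obtain ⟨z, hz, hb⟩ := hBH b
    refine ⟨b * z⁻¹, hb, ?_⟩
    have h1 : z⁻¹ * u * z = u := by
      rw [mul_assoc, ← hz, inv_mul_cancel_left]
    rw [mul_inv_rev, inv_inv]
    calc b * u * b⁻¹ = b * (z⁻¹ * u * z) * b⁻¹ := by rw [h1]
      _ = b * z⁻¹ * u * (z * b⁻¹) := by simp only [mul_assoc]
  have hgen : Subgroup.closure {g | ∃ x ∈ H, ∃ p ∈ Subgroup.zpowers u, g = x * p * x⁻¹} = H := by
    apply le_antisymm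
    · rw [Subgroup.closure_le]
      rintro g ⟨x, hx, p, hp, rfl⟩
      exact H.mul_mem (H.mul_mem hx ((Subgroup.zpowers_le.2 huH) hp)) (H.inv_mem hx)
    · change Subgroup.closure _ ≤ _
      rw [Subgroup.closure_le]
      intro g hg
      obtain ⟨u', hu', hug⟩ := Group.mem_conjugatesOfSet_iff.1 hg
      rw [Set.mem_singleton_iff] at hu'
      subst hu'
      obtain ⟨b, hb⟩ := isConj_iff.1 hug
      obtain ⟨h, hh, he⟩ := hcl b
      apply Subgroup.subset_closure
      exact ⟨h, hh, u, Subgroup.mem_zpowers u, by rw [← hb, he]⟩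
  -- realisation
  have hNz : MT.Nz 2 (Subgroup.zpowers u) c := by
    refine ⟨?_, ?_, ?_⟩
    · rintro ⟨x, hx⟩
      refine ⟨1, ?_⟩
      apply Subtype.ext
      change x ^ 2 ^ 1 = 1
      obtain ⟨i, rfl⟩ := hx
      change (u ^ i) ^ 2 ^ 1 = 1
      rw [pow_one, sq, ← (Commute.refl u).mul_zpow, SWr_u_sq, one_zpow]
    · exact fun h => (Nat.not_even_iff_odd.2 hco) (even_iff_two_dvd.2 h)
    · rintro x ⟨i, rfl⟩
      change c * u ^ i * c⁻¹ ∈ _
      have h1 : Commute c (u ^ i) := Commute.zpow_right hcu i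
      rw [h1.eq, mul_inv_cancel_right]
      exact ⟨i, rfl⟩
  have hle : Subgroup.zpowers u ⊔ Subgroup.zpowers c ≤ H :=
    sup_le (Subgroup.zpowers_le.2 huH) (Subgroup.zpowers_le.2 hcH)
  haveI : Group.IsSolvable B := SWr_solv K hK
  have hRz := hSolv k 2 B (Subgroup.zpowers u) H c hNz hle inferInstance hgen
  have hsub : (Subgroup.zpowers u ⊔ Subgroup.zpowers c).subgroupOf H =
      Subgroup.zpowers (⟨u, huH⟩ : H) ⊔ Subgroup.zpowers (⟨c, hcH⟩ : H) := by
    have e1 : ∀ (g : B) (hg : g ∈ H), (Subgroup.zpowers g).subgroupOf H =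
        Subgroup.zpowers (⟨g, hg⟩ : H) := by
      intro g hg
      apply Subgroup.map_injective H.subtype_injective
      rw [Subgroup.map_subgroupOf_eq_of_le (Subgroup.zpowers_le.2 hg), MonoidHom.map_zpowers]
      rfl
    rw [Subgroup.subgroupOf_sup (Subgroup.zpowers_le.2 huH) (Subgroup.zpowers_le.2 hcH),
      e1 u huH, e1 c hcH]
  refine ⟨H, inferInstance, inferInstance, ⟨u, huH⟩, ⟨c, hcH⟩, (SWr_th K).comp H.subtype,
    (SemidirectProduct.rightHom (φ := SWr_c2 (SWr_sw K) (SWr_sw_sq K))).comp H.subtype,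
    ?_, ?_, ?_, ?_, ?_, ?_⟩
  · -- generation
    apply Subgroup.map_injective H.subtype_injective
    rw [Subgroup.normalClosure, MonoidHom.map_closure, ← MonoidHom.range_eq_map,
      Subgroup.range_subtype]
    apply le_antisymm
    · rw [Subgroup.closure_le]
      rintro g ⟨y, -, rfl⟩
      exact y.2
    · change Subgroup.closure _ ≤ _
      rw [Subgroup.closure_le]
      intro g hg
      obtain ⟨u', hu', hug⟩ := Group.mem_conjugatesOfSet_iff.1 hg
      rw [Set.mem_singleton_iff] at hu'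
      subst hu'
      obtain ⟨b, hb⟩ := isConj_iff.1 hug
      obtain ⟨h, hh, he⟩ := hcl b
      apply Subgroup.subset_closure
      refine ⟨⟨h, hh⟩ * ⟨u, huH⟩ * ⟨h, hh⟩⁻¹, ?_, ?_⟩
      · exact Group.mem_conjugatesOfSet_iff.2 ⟨⟨u, huH⟩, rfl, isConj_iff.2 ⟨⟨h, hh⟩, rfl⟩⟩
      · rw [← hb, he]
        rfl
  · rw [Subgroup.orderOf_mk]
    exact hco
  · rw [← hsub]
    exact hRz.2
  · exact SWr_th_u K
  · exact SWr_th_c K ⟨t, htK⟩
  · exact SemidirectProduct.rightHom_inr (φ := SWr_c2 (SWr_sw K) (SWr_sw_sq K)) (-1 : ℤˣ)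

end MP7b0bad.S2
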