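import Pool.Agent.Work.MP_7b0bad_ag.S2.SDec
import Pool.Agent.Work.MP_7b0bad_ag.S2.SRe
import Pool.Agent.Work.MP_7b0bad_ag.S2.SEmb
import Pool.Agent.Work.MP_7b0bad_ag.S2.SEq
import Pool.Agent.Work.MP_7b0bad_ag.S2.SMul
import Pool.Agent.Work.MP_7b0bad_ag.S2.SSym
import Pool.Agent.Work.MP_7b0bad_ag.S2.SF
import Pool.Agent.Work.MP_7b0bad_ag.S2.SB1
import Pool.Agent.Work.MP_7b0bad_ag.S2.SG3
import Pool.Agent.Work.MP_7b0bad_ag.S2.SWr
import Pool.Agent.Work.MP_7b0bad_ag.S2.SAff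
import Pool.Agent.Work.MP_7b0bad_ag.S2.SNF
import Pool.Agent.Work.MP_7b0bad_ag.S2.SS5a
import Pool.Agent.Work.MP_7b0bad_ag.S2.SS5
import Pool.Agent.Work.MP_7b0bad_ag.S2.SCyc
import Pool.Agent.Work.MP_7b0bad_ag.S2.SRr
import Pool.Agent.Work.MP_7b0bad_ag.S2.SPt
import Pool.Agent.Work.MP_7b0bad_ag.S2.SFin
import Pool.Agent.Work.MP_7b0bad_ag.S2.Fin
import Pool.Agent.Work.MP_7b0bad_ag.MT.MSolv
import Pool.Agent.Work.MP_7b0bad_ag.MT.MFam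
import Pool.Agent.Work.MP_7b0bad_ag.MT.MChar2
import Pool.Agent.Work.MP_7b0bad_ag.SV.LAll
import Pool.Agent.Work.MP_7b0bad_ag.SnT.Main
import Pool.Agent.Work.MP_7b0bad_ag.SnT.SAtom
import Pool.Agent.Work.MP_7b0bad_ag.SnT.SChar
import Pool.Agent.Work.MP_7b0bad_ag.SnT.SCharE
import Pool.Agent.Work.MP_7b0bad_ag.SnT.SComb
import Pool.Agent.Work.MP_7b0bad_ag.SnT.SCount
import Pool.Agent.Work.MP_7b0bad_ag.SnT.SCyc
import Pool.Agent.Work.MP_7b0bad_ag.SnT.SEx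
import Pool.Agent.Work.MP_7b0bad_ag.SnT.SGal
import Pool.Agent.Work.MP_7b0bad_ag.SnT.SIner
import Pool.Agent.Work.MP_7b0bad_ag.SnT.SIrr
import Pool.Agent.Work.MP_7b0bad_ag.SnT.SMob
import Pool.Agent.Work.MP_7b0bad_ag.SnT.SNoDec
import Pool.Agent.Work.MP_7b0bad_ag.SnT.SNoDecP
import Pool.Agent.Work.MP_7b0bad_ag.SnT.SOrb
import Pool.Agent.Work.MP_7b0bad_ag.SnT.SOrbC
import Pool.Agent.Work.MP_7b0bad_ag.SnT.SRed
import Pool.Agent.Work.MP_7b0bad_ag.SnT.STCop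
import Pool.Agent.Work.MP_7b0bad_ag.SnT.STDeg
import Pool.Agent.Work.MP_7b0bad_ag.SnT.STWr
import Pool.Agent.Work.MP_7b0bad_ag.SnT.STame
import Pool.Agent.Work.MP_7b0bad_ag.SnT.SUnr
import Pool.Agent.Work.MP_7b0bad_ag.SnT.SVal

set_option autoImplicit false

/-!
# Block S2: the result for `p = 2` from the join `MT.MRz`
-/

namespace MP7b0bad.S2

theorem all_SMain : SnT.SMain := by
  have hNoDec := SnT.prf_SNoDec SnT.prf_SMob
    (SnT.prf_SNoDecP SnT.prf_STDeg SnT.prf_STCop SnT.prf_STWr) SnT.prf_STDeg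
  have hAtom := SnT.prf_SAtom hNoDec SnT.prf_SIrr
  have hOrb := SnT.prf_SOrb SnT.prf_SCount SnT.prf_SVal
  have hChar := SnT.prf_SChar SnT.prf_SVal SnT.prf_STame SnT.prf_SCharE
  have hCyc := SnT.prf_SCyc SnT.prf_SCount hOrb hChar
  exact SnT.prf_SMain SnT.prf_SEx SnT.prf_SIrr hAtom SnT.prf_SGal SnT.prf_SUnr SnT.prf_SCount hCyc
    SnT.prf_SIner SnT.prf_SComb SnT.prf_SOrbC SnT.prf_SRed

theorem all_SSym : SSym := prf_SSym all_T0 all_SMain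
theorem all_SF : SF := prf_SF all_SSym
theorem all_SB1 : SB1 := prf_SB1 all_SSym
theorem all_SG3 : SG3 := prf_SG3 MT.prf_MSolv
theorem all_SAff : SAff := prf_SAff (prf_SWr MT.prf_MSolv)
theorem all_SS5 : SS5 := prf_SS5 all_SSym prf_SS5a

/-- the result for `p = 2` from the join -/
theorem all_SFin_of (hMRz : MT.MRz) : SFin :=
  prf_SFin (prf_SPt prf_SDec (prf_SRr prf_SRe prf_SEmb prf_SEq (prf_SMul hMRz) all_SF all_SB1
    all_SG3 all_SAff prf_SNF all_SS5 (prf_SCyc prf_SEq (prf_SMul hMRz)))) (MT.prf_MFam hMRz)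
    (MT.prf_MChar2 hMRz)

end MP7b0bad.S2
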