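import Pool.Agent.Work.MP_7b0bad_ag.S2.Stmts

set_option autoImplicit false

/-!
# Block S2, item SAff: the affine group
-/

namespace MP7b0bad.S2

open Equiv
open scoped commutatorElement

/-- the affine permutation `x ↦ u x + b` -/
def SAff_T {m : ℕ} (a : (ZMod m)ˣ) (p : Subgroup.zpowers a × ZMod m) : Perm (ZMod m) where
  toFun x := ((p.1 : (ZMod m)ˣ) : ZMod m) * x + p.2
  invFun x := (((p.1 : (ZMod m)ˣ)⁻¹ : (ZMod m)ˣ) : ZMod m) * (x - p.2)
  left_inv x := by
    show (((p.1 : (ZMod m)ˣ)⁻¹ : (ZMod m)ˣ) : ZMod m) *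
      (((p.1 : (ZMod m)ˣ) : ZMod m) * x + p.2 - p.2) = x
    rw [add_sub_cancel_right, ← mul_assoc, Units.inv_mul, one_mul]
  right_inv x := by
    show ((p.1 : (ZMod m)ˣ) : ZMod m) *
      ((((p.1 : (ZMod m)ˣ)⁻¹ : (ZMod m)ˣ) : ZMod m) * (x - p.2)) + p.2 = x
    rw [← mul_assoc, Units.mul_inv, one_mul, sub_add_cancel]

theorem SAff_T_apply {m : ℕ} (a : (ZMod m)ˣ) (p : Subgroup.zpowers a × ZMod m) (x : ZMod m) :
    SAff_T a p x = ((p.1 : (ZMod m)ˣ) : ZMod m) * x + p.2 := rfl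

theorem SAff_T_inj {m : ℕ} (a : (ZMod m)ˣ) : Function.Injective (SAff_T a) := by
  intro p q h
  have h0 := congrArg (fun g : Perm (ZMod m) => g 0) h
  have h1 := congrArg (fun g : Perm (ZMod m) => g 1) h
  simp only [SAff_T_apply, mul_zero, zero_add, mul_one] at h0 h1
  rw [h0] at h1
  have h2 := add_right_cancel h1
  refine Prod.ext (Subtype.ext (Units.ext h2)) h0

/-- the affine group -/
def SAff_K {m : ℕ} (a : (ZMod m)ˣ) : Subgroup (Perm (ZMod m)) where
  carrier := Set.range (SAff_T a)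
  one_mem' := by
    refine ⟨(1, 0), ?_⟩
    ext x
    rw [SAff_T_apply]
    simp
  mul_mem' := by
    rintro _ _ ⟨p, rfl⟩ ⟨q, rfl⟩
    refine ⟨(p.1 * q.1, ((p.1 : (ZMod m)ˣ) : ZMod m) * q.2 + p.2), ?_⟩
    ext x
    rw [Perm.mul_apply, SAff_T_apply, SAff_T_apply, SAff_T_apply]
    simp only [Subgroup.coe_mul, Units.val_mul]
    ring
  inv_mem' := by
    rintro _ ⟨p, rfl⟩
    refine ⟨(p.1⁻¹, - ((((p.1 : (ZMod m)ˣ)⁻¹ : (ZMod m)ˣ) : ZMod m) * p.2)), ?_⟩
    ext x
    rw [SAff_T_apply]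
    show _ = (((p.1 : (ZMod m)ˣ)⁻¹ : (ZMod m)ˣ) : ZMod m) * (x - p.2)
    simp only [Subgroup.coe_inv]
    ring

theorem SAff_mem {m : ℕ} (a : (ZMod m)ˣ) (g : Perm (ZMod m)) :
    g ∈ SAff_K a ↔ ∃ p, SAff_T a p = g := Iff.rfl

/-- the linear part -/
noncomputable def SAff_psi {m : ℕ} (a : (ZMod m)ˣ) : SAff_K a →* (ZMod m)ˣ where
  toFun g := ((g.2.choose).1 : (ZMod m)ˣ)
  map_one' := by
    have h := (1 : SAff_K a).2.choose_spec
    have h0 := congrArg (fun g : Perm (ZMod m) => g 0) h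
    have h1 := congrArg (fun g : Perm (ZMod m) => g 1) h
    simp only [SAff_T_apply, mul_zero, zero_add, mul_one, Subgroup.coe_one, Perm.one_apply]
      at h0 h1
    rw [h0, add_zero] at h1
    exact Units.ext h1
  map_mul' f g := by
    have hfg := (f * g).2.choose_spec
    have hf := f.2.choose_spec
    have hg := g.2.choose_spec
    have e1 : ∀ x, SAff_T a (f * g).2.choose x =
        SAff_T a f.2.choose (SAff_T a g.2.choose x) := by
      intro x
      rw [hfg, hf, hg]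
      rfl
    have h0 := e1 0
    have h1 := e1 1
    rw [SAff_T_apply, SAff_T_apply, SAff_T_apply, mul_zero, mul_zero, zero_add, zero_add] at h0
    rw [SAff_T_apply, SAff_T_apply, SAff_T_apply, mul_one, mul_one, h0] at h1
    apply Units.ext
    rw [Units.val_mul]
    have h2 : (((f * g).2.choose.1 : (ZMod m)ˣ) : ZMod m) =
        ((f.2.choose.1 : (ZMod m)ˣ) : ZMod m) * ((g.2.choose.1 : (ZMod m)ˣ) : ZMod m) := by
      linear_combination h1
    exact h2

/-- the translations -/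
def SAff_tr {m : ℕ} (a : (ZMod m)ˣ) : Multiplicative (ZMod m) →* SAff_K a where
  toFun b := ⟨SAff_T a (1, Multiplicative.toAdd b), ⟨_, rfl⟩⟩
  map_one' := by
    apply Subtype.ext
    ext x
    show SAff_T a (1, 0) x = x
    rw [SAff_T_apply]
    simp
  map_mul' b c := by
    apply Subtype.ext
    ext x
    show SAff_T a (1, Multiplicative.toAdd b + Multiplicative.toAdd c) x =
      SAff_T a (1, Multiplicative.toAdd b) (SAff_T a (1, Multiplicative.toAdd c) x)
    rw [SAff_T_apply, SAff_T_apply, SAff_T_apply]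
    simp only [Subgroup.coe_one, Units.val_one, one_mul]
    ring

theorem SAff_solv {m : ℕ} (a : (ZMod m)ˣ) : Group.IsSolvable (SAff_K a) := by
  refine Group.isSolvable_of_ker_le_range (SAff_tr a) (SAff_psi a) ?_
  intro g hg
  have h1 : ((g.2.choose).1 : (ZMod m)ˣ) = 1 := hg
  refine ⟨Multiplicative.ofAdd g.2.choose.2, ?_⟩
  apply Subtype.ext
  show SAff_T a (1, g.2.choose.2) = g
  have h2 := g.2.choose_spec
  refine Eq.trans (congrArg (SAff_T a) ?_) h2
  exact Prod.ext (Subtype.ext h1.symm) rfl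

theorem SAff_odd {m : ℕ} [NeZero m] (a : (ZMod m)ˣ) (hm : Odd m) (ha : Odd (orderOf a)) :
    Odd (Nat.card (SAff_K a)) := by
  have h : Nat.card (SAff_K a) = Nat.card (Subgroup.zpowers a × ZMod m) :=
    Nat.card_range_of_injective (SAff_T_inj a)
  rw [h, Nat.card_prod, Nat.card_zpowers, Nat.card_zmod]
  exact ha.mul hm

theorem prf_SAff (hWr : SWr) : SAff := by
  intro k _ _ _ m _ a hm ha hu
  refine hWr k (ZMod m) (SAff_K a) (SAff_solv a) (SAff_odd a hm ha) _ ?_
  obtain ⟨b, hb⟩ := hu.exists_right_inv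
  have h1 : SAff_T a (⟨a, Subgroup.mem_zpowers a⟩, 0) ∈ SAff_K a := ⟨_, rfl⟩
  have h2 : SAff_T a (1, b) ∈ SAff_K a := ⟨_, rfl⟩
  have h3 := Subgroup.commutator_mem_commutator h1 h2
  have h4 : ⁅SAff_T a (⟨a, Subgroup.mem_zpowers a⟩, 0), SAff_T a (1, b)⁆ =
      Equiv.addRight (1 : ZMod m) := by
    rw [commutatorElement_def]
    rw [mul_inv_eq_iff_eq_mul, mul_inv_eq_iff_eq_mul]
    ext x
    rw [Perm.mul_apply, Perm.mul_apply, Perm.mul_apply, SAff_T_apply, SAff_T_apply, SAff_T_apply,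
      SAff_T_apply, Equiv.coe_addRight]
    simp only [Subgroup.coe_one, Units.val_one, one_mul, add_zero]
    linear_combination hb
  rw [← h4]
  exact h3

end MP7b0bad.S2
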