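import Pool.Agent.Work.MP_7b0bad_ag.S2.Stmts

set_option autoImplicit false

/-! # Block S2, item SDec: normal form of a pair of commuting permutations -/

namespace MP7b0bad.S2

open Equiv

/-- an orbit of an element of odd order is not preserved by a commuting involution without fixed
points in it -/
theorem SDec_fix {A : Type} {u c : Perm A} (hu : u * u = 1) (hcu : c * u = u * c)
    (hc : Odd (orderOf c)) {x : A} {k : ℤ} (h : u x = (c ^ k) x) : u x = x := by
  have h1 : ∀ y, u (u y) = y := fun y => by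
    rw [← Perm.mul_apply, hu, Perm.one_apply]
  have hcom : Commute (c ^ k) u := Commute.zpow_left hcu k
  have h2 : (c ^ k) ((c ^ k) x) = x := by
    calc (c ^ k) ((c ^ k) x) = (c ^ k) (u x) := by rw [h]
      _ = u ((c ^ k) x) := by rw [← Perm.mul_apply, hcom.eq, Perm.mul_apply]
      _ = u (u x) := by rw [h]
      _ = x := h1 x
  obtain ⟨m, hm⟩ := hc
  have h3 : ∀ j : ℕ, ((c ^ k * c ^ k) ^ j) x = x := by
    intro j
    induction j with
    | zero => rfl
    | succ j ih =>
      rw [pow_succ, Perm.mul_apply, Perm.mul_apply, h2, ih]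
  have h4 : (c ^ k * c ^ k) ^ (m + 1) = c ^ k := by
    rw [← zpow_add, ← zpow_natCast, ← zpow_mul]
    have e : (k + k) * ((m + 1 : ℕ) : ℤ) = (orderOf c : ℤ) * k + k := by
      rw [hm]
      push_cast
      ring
    rw [e, zpow_add, zpow_mul, zpow_natCast, pow_orderOf_eq_one, one_zpow, one_mul]
  have h5 := h3 (m + 1)
  rw [h4] at h5
  rw [h, h5]

theorem prf_SDec : SDec := by
  intro A _ u c hu hcu hc
  have huu : ∀ y, u (u y) = y := fun y => by
    rw [← Perm.mul_apply, hu, Perm.one_apply]
  have hcu' : ∀ y, c (u y) = u (c y) := fun y => by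
    rw [← Perm.mul_apply, hcu, Perm.mul_apply]
  -- a maximal set
  obtain ⟨R, hR⟩ := (Set.toFinite {R : Set A | (∀ x ∈ R, u x ∉ R) ∧ ∀ x, c x ∈ R ↔ x ∈ R}).exists_maximal
    ⟨∅, by simp⟩
  obtain ⟨⟨hR1, hR2⟩, hRmax⟩ := hR
  have hR3 : ∀ (k : ℤ) (x : A), (c ^ k) x ∈ R ↔ x ∈ R := by
    have hn : ∀ (k : ℕ) (x : A), (c ^ k) x ∈ R ↔ x ∈ R := by
      intro k
      induction k with
      | zero => intro x; rfl
      | succ k ih =>
        intro x
        rw [pow_succ, Perm.mul_apply, ih, hR2]
    intro k x
    cases k with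
    | ofNat k => simpa using hn k x
    | negSucc k =>
      rw [zpow_negSucc]
      have := hn (k + 1) ((c ^ (k + 1))⁻¹ x)
      rw [← Perm.mul_apply, mul_inv_cancel, Perm.one_apply] at this
      exact this.symm
  have hcov : ∀ x, u x ≠ x → x ∈ R ∨ u x ∈ R := by
    intro x hx
    by_contra hcon
    push Not at hcon
    obtain ⟨hx1, hx2⟩ := hcon
    set C : Set A := Set.range fun k : ℤ => (c ^ k) x with hC
    have hcom : ∀ (k : ℤ) (y : A), u ((c ^ k) y) = (c ^ k) (u y) := by
      intro k y
      have h : Commute (c ^ k) u := Commute.zpow_left hcu k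
      rw [← Perm.mul_apply, ← h.eq, Perm.mul_apply]
    have hsub : R ∪ C ∈ {R : Set A | (∀ x ∈ R, u x ∉ R) ∧ ∀ x, c x ∈ R ↔ x ∈ R} := by
      constructor
      · intro y hy hy'
        rcases hy with hy | ⟨k, rfl⟩
        · rcases hy' with hy' | ⟨k, hk⟩
          · exact hR1 y hy hy'
          · replace hk : (c ^ k) x = u y := hk
            have h1 : y = (c ^ k) (u x) := by
              have h2 : u (u y) = u ((c ^ k) x) := by rw [hk]
              rw [huu, hcom] at h2
              exact h2
            rw [h1, hR3] at hy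
            exact hx2 hy
        · rw [hcom] at hy'
          rcases hy' with hy' | ⟨j, hj⟩
          · rw [hR3] at hy'
            exact hx2 hy'
          · replace hj : (c ^ j) x = (c ^ k) (u x) := hj
            have h1 : u x = (c ^ (-k + j)) x := by
              rw [zpow_add, Perm.mul_apply, hj, ← Perm.mul_apply, ← zpow_add, neg_add_cancel,
                zpow_zero, Perm.one_apply]
            exact hx (SDec_fix hu hcu hc h1)
      · intro y
        constructor
        · rintro (hy | ⟨k, hk⟩)
          · exact Or.inl ((hR2 y).1 hy)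
          · replace hk : (c ^ k) x = c y := hk
            refine Or.inr ⟨-1 + k, ?_⟩
            show (c ^ (-1 + k)) x = y
            rw [zpow_add, Perm.mul_apply, hk, zpow_neg_one, ← Perm.mul_apply, inv_mul_cancel,
              Perm.one_apply]
        · rintro (hy | ⟨k, rfl⟩)
          · exact Or.inl ((hR2 y).2 hy)
          · refine Or.inr ⟨1 + k, ?_⟩
            show (c ^ (1 + k)) x = c ((c ^ k) x)
            rw [zpow_add, Perm.mul_apply, zpow_one]
    exact hx1 (hRmax hsub Set.subset_union_left (Or.inr ⟨0, rfl⟩))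
  -- the labelling
  set F : Set A := {x | u x = x} with hF
  have hF2 : ∀ x, c x ∈ F ↔ x ∈ F := by
    intro x
    show u (c x) = c x ↔ u x = x
    rw [← hcu', c.injective.eq_iff]
  let f : Om R F → A := fun z => match z with
    | Sum.inl (r, false) => r
    | Sum.inl (r, true) => u r
    | Sum.inr x => x
  have f1 : ∀ r : R, f (Sum.inl (r, false)) = r := fun _ => rfl
  have f2 : ∀ r : R, f (Sum.inl (r, true)) = u r := fun _ => rfl
  have f3 : ∀ x : F, f (Sum.inr x) = x := fun _ => rfl
  have hinj : Function.Injective f := by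
    rintro (⟨r, _ | _⟩ | x) (⟨r', _ | _⟩ | x') h
    · rw [f1, f1] at h
      rw [Subtype.ext h]
    · rw [f1, f2] at h
      exact absurd (h ▸ r.2) (hR1 _ r'.2)
    · rw [f1, f3] at h
      have h1 : u (r : A) = r := by rw [h]; exact x'.2
      exact absurd (h1.symm ▸ r.2) (hR1 _ r.2)
    · rw [f2, f1] at h
      exact absurd (h.symm ▸ r'.2) (hR1 _ r.2)
    · rw [f2, f2] at h
      rw [Subtype.ext (u.injective h)]
    · rw [f2, f3] at h
      have h1 : u (u (r : A)) = u r := by rw [h]; exact x'.2
      have h2 : u (r : A) = r := u.injective h1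
      exact absurd (h2.symm ▸ r.2) (hR1 _ r.2)
    · rw [f3, f1] at h
      have h1 : u (r' : A) = r' := by rw [← h]; exact x.2
      exact absurd (h1.symm ▸ r'.2) (hR1 _ r'.2)
    · rw [f3, f2] at h
      have h1 : u (u (r' : A)) = u r' := by rw [← h]; exact x.2
      have h2 : u (r' : A) = r' := u.injective h1
      exact absurd (h2.symm ▸ r'.2) (hR1 _ r'.2)
    · rw [f3, f3] at h
      rw [Subtype.ext h]
  have hsurj : Function.Surjective f := by
    intro x
    by_cases hx : u x = x
    · exact ⟨Sum.inr ⟨x, hx⟩, rfl⟩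
    · rcases hcov x hx with h | h
      · exact ⟨Sum.inl (⟨x, h⟩, false), rfl⟩
      · exact ⟨Sum.inl (⟨u x, h⟩, true), huu x⟩
  set e : A ≃ Om R F := (Equiv.ofBijective f ⟨hinj, hsurj⟩).symm with he
  have hes : ∀ z, e.symm z = f z := fun z => rfl
  refine ⟨R, F, inferInstance, inferInstance, e, c.subtypePerm hR2, c.subtypePerm hF2, ?_, ?_,
    ?_, ?_⟩
  · ext1 z
    rw [Equiv.permCongr_apply, hes, ← Equiv.eq_symm_apply, hes]
    rcases z with ⟨r, _ | _⟩ | x
    · rfl
    · show u (u r) = r
      exact huu _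
    · exact x.2
  · ext1 z
    rw [Equiv.permCongr_apply, hes, ← Equiv.eq_symm_apply, hes]
    rcases z with ⟨r, _ | _⟩ | x
    · rfl
    · show c (u r) = u (c r)
      exact hcu' _
    · rfl
  · apply Odd.of_dvd_nat hc
    apply orderOf_dvd_of_pow_eq_one
    rw [Perm.subtypePerm_pow]
    simp only [pow_orderOf_eq_one]
    rfl
  · apply Odd.of_dvd_nat hc
    apply orderOf_dvd_of_pow_eq_one
    rw [Perm.subtypePerm_pow]
    simp only [pow_orderOf_eq_one]
    rfl

end MP7b0bad.S2
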