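import Pool.Agent.Work.MP_7b0bad_ag.MT.GStmts
import Pool.Agent.Work.MP_7b0bad_ag.SnT.Stmts

set_option autoImplicit false

/-!
# Block S2: symmetric and alternating groups in characteristic 2 with tame inertia, statements

`MT.Rz k P c H`: `P ⟨c⟩ ≤ H` and `Rel k H (P ⟨c⟩)` (`P ⟨c⟩` is an inertia group for `H`).
The join is `MT.MRz` (`MT/MRz.lean`), `MT.MFam` (`MT/MFam.lean`), `MT.MChar2` (`MT/MChar2.lean`,
with `MChar2_toTop`, `MChar2_ofTop`, `MChar2_wild`), solvable groups `MT.MSolv` (`MT/MSolv.lean`),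
images under homomorphisms `MT.anax_tr`, powers of `c` `MT.anax_pow` (`MT/ANax.lean`),
`all_QIso` (`AllH.lean`): isomorphisms of groups.
-/

namespace MP7b0bad.S2

open Equiv

/-- the points: the pairs `(i, false), (i, true)`, `i ∈ L`, of the involution, and its fixed points
`F` -/
abbrev Om (L F : Type) : Type := (L × Bool) ⊕ F

/-- the involution: `(i, b) ↦ (i, !b)` -/
def uu (L F : Type) : Perm (Om L F) :=
  Perm.sumCongr ((Equiv.prodCongr (Equiv.refl L) Equiv.boolNot : Perm (L × Bool))) (1 : Perm F)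

/-- `(i, b) ↦ (π i, b)`, `j ↦ τ j` -/
def cp {L F : Type} (π : Perm L) (τ : Perm F) : Perm (Om L F) :=
  Perm.sumCongr ((Equiv.prodCongr π (Equiv.refl Bool) : Perm (L × Bool))) τ

/-- `⟨uu⟩ ⟨cp π τ⟩` is realised in a group generated by conjugates of `uu` -/
def Re (k : Type) [Field k] (L F : Type) (π : Perm L) (τ : Perm F) : Prop :=
  ∃ H : Subgroup (Perm (Om L F)), H ≤ Subgroup.normalClosure {uu L F} ∧
    MT.Rz k (Subgroup.zpowers (uu L F)) (cp π τ) H

/-- `⟨uu⟩ ⟨cp π τ⟩` is the image of a realised group `⟨u⟩ ⟨c⟩ ≤ H`, and `H` has a character `ε` with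
`ε u = -1` -/
def Src (k : Type) [Field k] (L F : Type) (π : Perm L) (τ : Perm F) : Prop :=
  ∃ (H : Type) (_ : Group H) (_ : Finite H) (u c : H) (θ : H →* Perm (Om L F)) (ε : H →* ℤˣ),
    Subgroup.normalClosure {u} = ⊤ ∧ Odd (orderOf c) ∧
    Rel k H (Subgroup.zpowers u ⊔ Subgroup.zpowers c) ∧
    θ u = uu L F ∧ θ c = cp π τ ∧ ε u = -1

/-! ## A. General facts -/

/-- [SDec] NORMAL FORM of a pair of commuting permutations `u`, `c`, `u² = 1`, `c` of odd order.
PROOF. If `u x ≠ x`, the `c`-cycle `C` of `x` does not contain `u x`: `u x = c^i x` gives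
`x = u (u x) = c^i (u x) = c^(2i) x`, so `x = c^i x` (the length of `C` divides the order of `c`, it
is odd), so `u x = x`.  Let `R` be a maximal subset of the support of `u` with `c R = R` and
`R ∩ u R = ∅`; then the support is `R ∪ u R` (otherwise add the `c`-cycle of a point `x` outside:
it is disjoint from `R`, `u R` and from its image under `u`).  `L = R`, `F` = fixed points of `u`,
`π = c|R`, `τ = c|F`, `e x = (x, false)` for `x ∈ R`, `e (u x) = (x, true)`. -/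
def SDec : Prop := ∀ (A : Type) [Finite A] (u c : Perm A), u * u = 1 → c * u = u * c →
  Odd (orderOf c) → ∃ (L F : Type) (_ : Finite L) (_ : Finite F) (e : A ≃ Om L F) (π : Perm L)
    (τ : Perm F), e.permCongr u = uu L F ∧ e.permCongr c = cp π τ ∧ Odd (orderOf π) ∧
    Odd (orderOf τ)

/-- [SRe] PROOF. `MT.anax_tr` for `θ`; the image of `H = normalClosure {u}` is contained in
`normalClosure {uu}`. -/
def SRe : Prop := ∀ (k : Type) [Field k] [IsAlgClosed k] [CharP k 2] (L F : Type) [Finite L]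
  [Finite F] (π : Perm L) (τ : Perm F), Src k L F π τ → Re k L F π τ

/-- [SEmb] more points.  PROOF. `H` acts on `L₁ × Bool` by `(i, b) ↦ (i, !b)` if `ε h = -1`,
trivially if `ε h = 1`, and trivially on `F₁`.  `ε c = 1` because `c` has odd order.
(`Om (L₀ ⊕ L₁) (F₀ ⊕ F₁) ≃ Om L₀ F₀ ⊕ (L₁ × Bool) ⊕ F₁`.) -/
def SEmb : Prop := ∀ (k : Type) [Field k] (L₀ L₁ F₀ F₁ : Type) (π : Perm L₀) (τ : Perm F₀),
  Src k L₀ F₀ π τ → Src k (L₀ ⊕ L₁) (F₀ ⊕ F₁) (Perm.sumCongr π 1) (Perm.sumCongr τ 1)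

/-- [SEq] relabelling.  PROOF. `MT.anax_tr` for the isomorphism `Perm (Om L F) → Perm (Om L' F')`
given by `Om L F ≃ Om L' F'`; it maps `uu`, `cp π τ` to `uu`, `cp π' τ'`. -/
def SEq : Prop := ∀ (k : Type) [Field k] [IsAlgClosed k] [CharP k 2] (L F L' F' : Type) [Finite L]
  [Finite F] (e : L ≃ L') (e' : F ≃ F') (π : Perm L) (τ : Perm F), Re k L F π τ →
  Re k L' F' (e.permCongr π) (e'.permCongr τ)

/-- [SMul] (hRz : MT.MRz) products.  PROOF. `MRz` with `P = P₀ = P₁ = ⟨uu⟩`. -/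
def SMul : Prop := ∀ (k : Type) [Field k] [IsAlgClosed k] [CharP k 2] (L F : Type) [Finite L]
  [Finite F] (π π' : Perm L) (τ τ' : Perm F), Odd (orderOf π) → Odd (orderOf π') →
  Odd (orderOf τ) → Odd (orderOf τ') → π * π' = π' * π → τ * τ' = τ' * τ →
  Re k L F π τ → Re k L F π' τ' → Re k L F (π * π') (τ * τ')

/-- [SSym] (hT0 : T0, hMain : SnT.SMain) the symmetric group.  PROOF. `T ≃ Fin n`, `SMain` for
`G₁ = ⟨(a b)⟩`, `G₀ = G₁ ⟨c⟩` (`c` commutes with `(a b)`; `G₀ / G₁` is a quotient of `⟨c⟩`). -/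
def SSym : Prop := ∀ (k : Type) [Field k] [IsAlgClosed k] [CharP k 2] (T : Type) [Fintype T]
  [DecidableEq T] (a b : T) (c : Perm T), a ≠ b → c a = a → c b = b → Odd (orderOf c) →
  Rel k (Perm T) (Subgroup.zpowers (swap a b) ⊔ Subgroup.zpowers c)

/-! ## B. Building blocks -/

/-- [SF] (hSym) the fixed points of the involution.  PROOF. `T = Bool ⊕ F`, `H = Perm T` acting on
`T ≃ Om Unit F`, `u = (inl false, inl true)`, `c = 1 ⊕ τ`, `ε` = sign. -/
def SF : Prop := ∀ (k : Type) [Field k] [IsAlgClosed k] [CharP k 2] (F : Type) [Finite F]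
  (τ : Perm F), Odd (orderOf τ) → Src k Unit F 1 τ

/-- [SB1] (hSym) an `m`-cycle with two more pairs of the involution.  PROOF. `T = ZMod m ⊕ Bool`,
`H = Perm T`, `u = (inr false, inr true)`, `c = (x ↦ x + 1) ⊕ 1`, `ε` = sign.  `H` acts on
`T × Bool` by `(t, b) ↦ (σ t, b)` for `σ` even, `(t, b) ↦ (σ t, !b)` for `σ` odd.  Label:
`T × Bool ≃ Om (ZMod m ⊕ Bool) Empty`, `(inl x, b) ↦ (inl x, b)`,
`(inr y, b) ↦ (inr (xor y b), b)`. -/
def SB1 : Prop := ∀ (k : Type) [Field k] [IsAlgClosed k] [CharP k 2] (m : ℕ) [NeZero m], Odd m →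
  Src k (ZMod m ⊕ Bool) Empty (Perm.sumCongr (Equiv.addRight (1 : ZMod m)) 1) 1

/-- [SG3] (hSolv : MT.MSolv) an `m`-cycle and `m` fixed points of the involution: the complex
reflection group `G(m, m, 3)`.  PROOF. `H` = all permutations `(i, x) ↦ (σ i, x + v i)` of
`Fin 3 × ZMod m` with `v 0 + v 1 + v 2 = 0` (a group, solvable: the subgroup `σ = 1` is abelian, the
quotient embeds in `S_3`).  `u = (0 1)`, `v = 0`; `c`: `σ = 1`, `v = (1, 1, -2)`; `ε` = sign of `σ`.
`c u = u c`.  `H` is generated by the conjugates of `u`: they generate all `(σ, 0)`, and with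
`h = (1, v)`: `h u h⁻¹ u⁻¹ = (1, v - u v)`, where `v - u v = (a, -a, 0)`, `a = v 0 - v 1`; every
`a` occurs (`m` odd); with the `(σ, 0)` one gets all `v` with sum `0`.  `Rel` from `MSolv` for the
group `H` (`P = ⟨u⟩`, `H = ⊤`) and `MChar2_ofTop`.  Label: `(0, x) ↦ (x, false)`,
`(1, x) ↦ (x, true)`, `(2, x) ↦ x`. -/
def SG3 : Prop := ∀ (k : Type) [Field k] [IsAlgClosed k] [CharP k 2] (m : ℕ) [NeZero m], Odd m →
  Src k (ZMod m) (ZMod m) (Equiv.addRight (1 : ZMod m)) (Equiv.addRight (-2 : ZMod m))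

/-- [SWr] (hSolv : MT.MSolv) PROOF. `B` = the wreath product of `K` and `C_2`, acting on
`A × Bool`: the permutations `(a, b) ↦ (x_b a, b)` and `(a, b) ↦ (x_b a, !b)`, `x_b ∈ K`;
`u = (1, flip)`, `c = (t, t)`.  `B` is solvable.  `H` = the normal closure of `u` in `B`; it contains
`[(x, 1), u] = (x, x⁻¹)` for `x ∈ K`, so `(x, x⁻¹)(y, y⁻¹)((xy)⁻¹, xy) = (1, x⁻¹ y⁻¹ x y)`; so it
contains `K' × K'` and `c`.  `H` is generated by the `H`-conjugates of `u`: `B = H Z`, `Z` =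
centraliser of `u` in `B`: `Z` contains the `(x, x)`, modulo `H` we have `(x, y) ≡ (xy, 1)` and
`(x, x) ≡ (x², 1)`, and squaring is bijective on `K / K'` (odd order); and
`(h z) u (h z)⁻¹ = h u h⁻¹`.  `ε` = the sign of the action on `Bool`. -/
def SWr : Prop := ∀ (k : Type) [Field k] [IsAlgClosed k] [CharP k 2] (A : Type) [Finite A]
  (K : Subgroup (Perm A)), Group.IsSolvable K → Odd (Nat.card K) → ∀ t ∈ ⁅K, K⁆,
  Src k A Empty t 1

/-- [SAff] (hWr) PROOF. `K` = the permutations `x ↦ a^i x + b` of `ZMod m`: solvable, of order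
`m · orderOf a`, odd.  `x ↦ x + 1` is the commutator of `x ↦ a x` and `x ↦ x + b`,
`(a - 1) b = 1` (or its inverse). -/
def SAff : Prop := ∀ (k : Type) [Field k] [IsAlgClosed k] [CharP k 2] (m : ℕ) [NeZero m]
  (a : (ZMod m)ˣ), Odd m → Odd (orderOf a) → IsUnit ((a : ZMod m) - 1) →
  Src k (ZMod m) Empty (Equiv.addRight (1 : ZMod m)) 1

/-- [SNF] number theory.  PROOF. `r - 1` is not a power of `2`, so it has an odd prime divisor `d`.
`(ZMod r)ˣ` has an element `g` of order `d` (Cauchy); lift it to a unit `a` of `ZMod (r^i)`; `a^d` is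
in the kernel of the reduction, a group of order `r^(i-1)`, so the order of `a` is odd.  `a - 1` is a
unit because its image `g - 1` in `ZMod r` is not `0`. -/
def SNF : Prop := ∀ (r i : ℕ), r.Prime → r ≠ 2 → (¬ ∃ j : ℕ, r = 2 ^ j + 1) → 0 < i →
  ∃ a : (ZMod (r ^ i))ˣ, Odd (orderOf a) ∧ IsUnit ((a : ZMod (r ^ i)) - 1)

/-- [SS5a] the action of `S_5` on `6` points.  PROOF. `S_5` acts by conjugation on the set `Ω` of
its Sylow `5`-subgroups; there are `6` of them (`≡ 1` mod `5`, the number divides `24`, it is not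
`1`), the normalisers have order `20`.  The transposition `u = (0 1)` fixes no point: the
normaliser `N` of a Sylow 5-subgroup `S` contains no transposition (an element of order 2 of `N` with
a fixed point acts on `S ≃ ℤ/5` by `-1`, so it fixes only one point).  The 3-cycle `c = (2 3 4)`
fixes no point (3 does not divide `20`).  So `c` has two 3-cycles on `Ω`; `u` does not preserve any
of them (it would be a power of the 3-cycle, so `1` on it).  `Ω ≃ ZMod 3 × Bool`: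
`(x, b) = c^x u^b ω₀`.  The last condition: `N` has index `6` and contains a 4-cycle (Sylow: the
normaliser of order 20 contains an element `h` of order 4, a 4-cycle, odd) for every point.
(Or: an explicit homomorphism and `decide`.) -/
def SS5a : Prop := ∃ θ : Perm (Fin 5) →* Perm (ZMod 3 × Bool),
  (∀ x b, θ (swap 0 1) (x, b) = (x, !b)) ∧
  (∀ x b, θ (swap 2 3 * swap 3 4) (x, b) = (x + 1, b)) ∧
  ∀ i, ∃ h : Perm (Fin 5), Perm.sign h = -1 ∧ θ h i = i

/-- [SS5] (hSym, hS5a, hAx : GT.TAx for `Rel`, hMain : GT.GMain; both are theorems: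
`GT.all_GAx 2 _ (SV.all_VRAx k 2)`, `GT.all_GMain`) a `3M`-cycle.
PROOF. `S = Perm (Fin 5)` with the action `θ` on `Ω = ZMod 3 × Bool` of `SS5a`, `u₀ = (0 1)`,
`c₀ = (2 3)(3 4)`.  `V = (ZMod M)^Ω`, `S` acts on `V` by `(h v) (h ω) = sgn(h) v ω`; `B = V ⋊ S`.
`B` acts on `ZMod M × Ω` by `(x, ω) ↦ (sgn(h) x + v (h ω), h ω)`.  `u = (0, u₀)`,
`c = (v, c₀)` with `v (0, false) = 1`, `v (0, true) = -1`, `v = 0` otherwise.  `c u = u c`; the order
of `c` is odd (`c^(3M) = 1`).  `c^3` acts on `ZMod M × {(j, false)}` by `x ↦ x + 1` and on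
`ZMod M × {(j, true)}` by `x ↦ x - 1`.
(1) `V = [V, B]`: for `ω ∈ Ω` let `h` fix `ω`, `sgn h = -1`; `(h - 1)` maps the vector `e_ω` to
`-2 e_ω`, `M` is odd.
(2) `B` is the normal closure of `u`: it contains `S` (generated by transpositions) and `[V, S] = V`.
(3) `Rel k B (⟨u⟩ ⟨c⟩)`: `GMain` for `N = V` (abelian; `⁅V, ⊤⁆ = V`, so the condition `CopC` is
empty), `B / V ≃ S`, and `hSym` for `S` with `u₀`, `c₀` (`QIso`).
(4) Label: `ZMod M × Ω ≃ Om (ZMod (3M)) Empty`: the point `c^i u^b (0, (0, false))` is `(i, b)`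
(`0 ≤ i < 3M`): `⟨c⟩` acts simply transitively on `ZMod M × ZMod 3 × {b}` for `b = false, true`, and
`u` exchanges the two sets.  `ε` = sign of `h`.  (`M = 1` is allowed.) -/
def SS5 : Prop := ∀ (k : Type) [Field k] [IsAlgClosed k] [CharP k 2] (M : ℕ) [NeZero M], Odd M →
  Src k (ZMod (3 * M)) Empty (Equiv.addRight (1 : ZMod (3 * M))) 1

/-! ## C. Assembly -/

/-- [SCyc] (hEq, hMul) reduction to cycles.  PROOF. `π` is the product of its cycles
(`Equiv.Perm.cycle_induction_on` or `cycleFactorsFinset`), they commute; the length of a cycle is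
`minimalPeriod π x = r^a`, `0 < a`; a cycle of length `m` is `(x ↦ x + 1) ⊕ 1` for some
`L ≃ ZMod m ⊕ L₁`. -/
def SCyc : Prop := ∀ (k : Type) [Field k] [IsAlgClosed k] [CharP k 2] (L F : Type) [Finite L]
  [Finite F] (r : ℕ) (π : Perm L), r.Prime → r ≠ 2 → (∃ j, π ^ r ^ j = 1) → Re k L F 1 1 →
  (∀ (a : ℕ) (L₁ : Type) [Finite L₁], 0 < a → (∃ x, Function.minimalPeriod π x = r ^ a) →
    Nonempty (L ≃ ZMod (r ^ a) ⊕ L₁) →
    Re k (ZMod (r ^ a) ⊕ L₁) F (Perm.sumCongr (Equiv.addRight (1 : ZMod (r ^ a))) 1) 1) →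
  Re k L F π 1

/-- the condition on the cycles: if `r` is a Fermat prime, `r ≥ 5`, then for every `m`-cycle,
`m > 1`, of `π` there are two more pairs, or `m` fixed points -/
def Cnd (L F : Type) (r : ℕ) (π : Perm L) : Prop :=
  5 ≤ r → (∃ j : ℕ, r = 2 ^ j + 1) → ∀ x : L, 1 < Function.minimalPeriod π x →
    Function.minimalPeriod π x + 2 ≤ Nat.card L ∨ Function.minimalPeriod π x ≤ Nat.card F

/-- [SRr] (hRe, hEmb, hEq, hMul, hF, hB1, hG3, hAff, hNF, hS5, hCyc) elements of `r`-power order.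
PROOF. `(1, τ)`: `SF`, `SEmb` (`L ≃ Unit ⊕ L₁`), `SRe`, `SEq`; also for `τ = 1`.
`(π, 1)`: `SCyc`.  Let `m = r^a` be the length of a cycle of `π`, `L ≃ ZMod m ⊕ L₁`.  If `r = 3`:
`SS5` with `M = 3^(a-1)`, `SEmb`.  If `r` is not a Fermat prime: `SNF`, `SAff`, `SEmb`.  If
`r ≥ 5` is a Fermat prime and `m + 2 ≤ |L|`, then `L₁ ≃ Bool ⊕ L₂`: `SB1`, `SEmb`, `SEq`.  If
`m ≤ |F|`, then `F ≃ ZMod m ⊕ F₂`: `SG3`, `SEmb` and `SEq` give `(x + 1 ⊕ 1, x - 2 ⊕ 1)`; multiply by
`(1, x + 2 ⊕ 1)` (`SMul`). -/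
def SRr : Prop := ∀ (k : Type) [Field k] [IsAlgClosed k] [CharP k 2] (L F : Type) [Finite L]
  [Finite F] [Nonempty L] (r : ℕ) (π : Perm L) (τ : Perm F), r.Prime → r ≠ 2 →
  (∃ j, π ^ r ^ j = 1) → (∃ j, τ ^ r ^ j = 1) → Cnd L F r π → Re k L F π τ

/-- the condition for permutations of `n` points: if `r` is a Fermat prime, `r ≥ 5`, then for every
cycle of `g` of length `m > 1` consisting of points moved by `u`, `u` moves at least `2 m + 4` points
or fixes at least `m` points -/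
def Cn (n r : ℕ) (u g : Perm (Fin n)) : Prop :=
  5 ≤ r → (∃ j : ℕ, r = 2 ^ j + 1) → ∀ x : Fin n, u x ≠ x → 1 < Function.minimalPeriod g x →
    2 * Function.minimalPeriod g x + 4 ≤ u.support.card ∨
      Function.minimalPeriod g x + u.support.card ≤ n

/-- [SPt] (hDec, hRr) PROOF. `SDec` for `Fin n`; `|support u| = 2 |L|`, `n = 2 |L| + |F|`,
`minimalPeriod π i = minimalPeriod g x` for `e x = (i, b)`; `MT.anax_tr` for
`Perm (Om L F) ≃* Perm (Fin n)`. -/
def SPt : Prop := ∀ (k : Type) [Field k] [IsAlgClosed k] [CharP k 2] (n r : ℕ)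
  (u g : Perm (Fin n)), r.Prime → r ≠ 2 → u ≠ 1 → u * u = 1 → g * u = u * g →
  (∃ j, g ^ r ^ j = 1) → Cn n r u g →
  ∃ H : Subgroup (Perm (Fin n)), H ≤ Subgroup.normalClosure {u} ∧
    MT.Rz k (Subgroup.zpowers u) g H

/-- [SFin] (hPt, hFam : MT.MFam, hChar2 : MT.MChar2) THE RESULT.  `X` is the alternating or the
symmetric group.  PROOF. If `c = 1`: `MChar2_wild`.  For the primes `r` dividing the order of `c` let
`c_r ∈ ⟨c⟩` be the `r`-parts of `c` (`c = ∏ c_r`; for example `Equiv`-free: powers of `c`), `u_r` as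
in the hypothesis, `H_r` from `SPt` for `u_r`, `c_r` (in `Perm (Fin n)`); `H_r ≤ X` because `X`
contains the alternating group, so it is normal in `Perm (Fin n)`; so `Rz k ⟨u_r⟩ c_r H_r` holds
in the group `X` (`QIso` for `H_r.subgroupOf X ≃* H_r`).  `MFam` for `P`, `P'_r = ⟨u_r⟩`, then
`MChar2` with `P₀ = P`. -/
def SFin : Prop := ∀ (k : Type) [Field k] [IsAlgClosed k] [CharP k 2] (n : ℕ)
  (X : Subgroup (Perm (Fin n))), alternatingGroup (Fin n) ≤ X → ∀ (P : Subgroup X) (c : X),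
  MT.Nz 2 P c → Subgroup.normalClosure (P : Set X) = ⊤ →
  (∀ r : ℕ, r.Prime → r ∣ orderOf c → ∃ u ∈ P, u ≠ 1 ∧ u * u = 1 ∧
    ∀ g ∈ Subgroup.zpowers c, (∃ m : ℕ, g ^ r ^ m = 1) → g * u = u * g ∧
      Cn n r (u : Perm (Fin n)) (g : Perm (Fin n))) →
  Rel k X (P ⊔ Subgroup.zpowers c)

end MP7b0bad.S2
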